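import Pool.Agent.KS6_26.D.Limit

/-!
Heights of points, and finiteness over a finitely generated field.
-/

set_option autoImplicit false

open MvPolynomial FF Pool.Agent.W603.LV Pool.Agent.W603.PV Pool.Agent.W602.RG
open Pool.Agent.TH145.GH

namespace Pool.Agent.KS6_26.D

/-- Evaluation at a sequence of points. -/
theorem aeval_mk {k0 K σ : Type} [Field k0] [Field K] [Algebra k0 K] (g : ℕ → σ → K)
    (f : MvPolynomial σ k0) :
    eval₂ ((cst K).comp (algebraMap k0 K)) (fun i => Om.mk fun m => g m i) f =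
      Om.mk fun m => aeval (g m) f := by
  have h1 : eval₂Hom ((cst K).comp (algebraMap k0 K)) (fun i => Om.mk fun m => g m i) =
      (Pool.Agent.TH145.MF.mkHom K).comp
        (RingHom.pi fun m => ((aeval (g m) : MvPolynomial σ k0 →ₐ[k0] K) :
          MvPolynomial σ k0 →+* K)) := by
    apply MvPolynomial.ringHom_ext
    · intro r
      rw [MvPolynomial.eval₂Hom_C, RingHom.comp_apply, RingHom.comp_apply,
        Pool.Agent.TH145.MF.mkHom_apply, cst_apply]
      congr 1
      funext m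
      exact (MvPolynomial.algHom_C (aeval (g m)) r).symm
    · intro i
      rw [MvPolynomial.eval₂Hom_X', RingHom.comp_apply, Pool.Agent.TH145.MF.mkHom_apply]
      congr 1
      funext m
      exact (aeval_X (g m) i).symm
  have h2 := congrArg (fun φ : MvPolynomial σ k0 →+* Om K => φ f) h1
  exact h2

/-- Monomials at a sequence of points. -/
theorem mn_mk {K ι : Type} [Field K] (x : ℕ → ι → K) (J : ι →₀ ℕ) :
    mn (fun l => Om.mk fun m => x m l) J = Om.mk fun m => mn (x m) J := by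
  induction J using Finsupp.induction_linear with
  | zero =>
    simp only [mn_zero]
    rfl
  | add I J hI hJ =>
    simp only [mn_add]
    rw [hI, hJ, Om.mk_mul]
  | single l k =>
    simp only [mn_single]
    rw [← Pool.Agent.TH145.MF.mkHom_apply (k := K) fun m => x m l, ← map_pow]
    rfl

variable {k0 K υ : Type} [Field k0] [Field K] [Algebra k0 K] [IsAlgClosed K] [CharZero K]
  {y : υ → K} (E : IntermediateField (IntermediateField.adjoin k0 (Set.range y)) K)
  {ι S A Δ : Type} [DecidableEq S] [Fintype S] [Fintype A] [Fintype Δ] [Fintype ι]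
  {β : ι → S} {d : A → S → ℕ} {q : Δ → A × (ι →₀ ℕ)} {n : S → ℕ} {en : ∀ s, Fin (n s + 1) → ι}

/-- The heights of the points are bounded. -/
theorem heights (hy : AlgebraicIndependent k0 y)
    [FiniteDimensional (IntermediateField.adjoin k0 (Set.range y)) E]
    {tE : A → (ι →₀ ℕ) → E.toSubfield} (D : A → (ι →₀ ℕ) → Derivation ℤ K K)
    (hDE : ∀ a I, ∀ x ∈ E, D a I x ∈ E)
    (hDy : ∀ a I j, ∃ r : k0, D a I (y j) = algebraMap k0 K r)
    (h : RelD k0 β d D (fun a I => (tE a I : K)) q)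
    {Mn : A → Finset (ι →₀ ℕ)} (hMn : ∀ a I, I ∈ Mn a ↔ mdeg β I = d a) (hB : Blk β n en)
    {l0 : S → ι} (hl0 : ∀ s, β (l0 s) = s) {R : Set (MvPolynomial (ι ⊕ A) k0)}
    {g : MvPolynomial (ι ⊕ A) k0} (hyp : HypL k0 β d (Fintype.card Δ) 0 l0 R g) (i : υ) :
    ∃ H : ℤ, ∀ x : ι → E, (∀ s, x (l0 s) = 1) →
      (∀ f ∈ R, aeval (Sum.elim (fun l => (x l : K)) fun a =>
        ∑ J ∈ Mn a, (tE a J : K) * mn (fun l => (x l : K)) J) f = 0) →
      aeval (Sum.elim (fun l => (x l : K)) fun a =>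
        ∑ J ∈ Mn a, (tE a J : K) * mn (fun l => (x l : K)) J) g ≠ 0 →
      ∀ l, hgt (kap k0 y i) (⟨(x l : K), subset_LL y _ i (x l).2⟩ :
        LL k0 y (E : Set K) i) ≤ H := by
  classical
  have hFF : IsFF (kap k0 y i) (LL k0 y (E : Set K) i) := LL_ff E hy i
  have hac : IsAlgClosed (kap k0 y i) := acl_isAlgClosed _
  have hcz : CharZero (kap k0 y i) := charZero_of_injective_algebraMap
    (algebraMap ℚ (kap k0 y i)).injective
  have hczL : CharZero (LL k0 y (E : Set K) i) :=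
    charZero_of_injective_algebraMap (algebraMap (kap k0 y i) _).injective
  let φ : E.toSubfield →+* LL k0 y (E : Set K) i :=
    { toFun := fun x => ⟨x, subset_LL y _ i x.2⟩
      map_one' := rfl
      map_mul' := fun _ _ => rfl
      map_zero' := rfl
      map_add' := fun _ _ => rfl }
  have hφ : ∀ x, (φ x : K) = x := fun _ => rfl
  obtain ⟨D', hD'⟩ : ∃ D' : A → (ι →₀ ℕ) → Derivation ℤ (LL k0 y (E : Set K) i)
      (LL k0 y (E : Set K) i), ∀ a I x, ((D' a I x : LL k0 y (E : Set K) i) : K) = D a I x :=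
    ⟨fun a I => resDer _ (D a I) fun x hx =>
      der_LL E (D a I) (h.Dk a I) (hDy a I) (hDE a I) i hx, fun _ _ _ => rfl⟩
  have hS : ∀ a I, Sem (kap k0 y i) (D' a I) := fun a I c =>
    ⟨⟨_, der_kap (D a I) (h.Dk a I) (hDy a I) i c.2⟩, Subtype.ext (hD' a I _)⟩
  let ψ : k0 →+* LL k0 y (E : Set K) i :=
    { toFun := fun r => ⟨algebraMap k0 K r, subset_LL y _ i (k0_mem E r)⟩
      map_one' := Subtype.ext (map_one _)
      map_mul' := fun a b => Subtype.ext (map_mul _ a b)
      map_zero' := Subtype.ext (map_zero _)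
      map_add' := fun a b => Subtype.ext (map_add _ a b) }
  let _ : Algebra k0 (LL k0 y (E : Set K) i) := ψ.toAlgebra
  obtain ⟨t', ht'⟩ : ∃ t' : A → (ι →₀ ℕ) → LL k0 y (E : Set K) i,
    t' = fun a I => φ (tE a I) := ⟨_, rfl⟩
  have hrel : RelD k0 β d D' t' q := by
    refine ⟨fun a I r => ?_, fun a I hI f => ?_, h.qd, fun a I hI hq => ?_,
      fun a I b J hI hJ hq hab => ?_⟩
    · apply Subtype.ext
      rw [hD']
      exact h.Dk a I r
    · apply Subtype.ext
      rw [hD']
      exact h.irr a I hI _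
    · apply Subtype.ext
      rw [hD', ht']
      exact h.Dt1 a I hI hq
    · apply Subtype.ext
      rw [hD', ht']
      exact h.Dt0 a I b J hI hJ hq hab
  -- the loss
  obtain ⟨e0, he0, he0f, he0l⟩ := exists_loss_fin
    (D := fun p : Σ a, {I // I ∈ Mn a} => D' p.1 p.2.1) (k := kap k0 y i) (fun p => hS _ _)
  obtain ⟨g', hg0, hgf, hg⟩ := exists_poles (κ := kap k0 y i)
    (Finset.univ.image fun p : (Σ a, {I // I ∈ Mn a}) × Δ =>
      cdef β d D' t' q p.1.1 p.1.2.1 p.2)
  obtain ⟨e, he⟩ : ∃ e : Place (kap k0 y i) (LL k0 y (E : Set K) i) → ℤ,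
    ∀ P, e P = e0 P + g' P := ⟨_, fun _ => rfl⟩
  have hloc : ∀ P, Loc P D' (cdef β d D' t' q)
      (fun ξ : Empty => (ξ.elim : Derivation ℤ (LL k0 y (E : Set K) i)
        (LL k0 y (E : Set K) i))) (e P) := by
    intro P
    have h1 := he0 P
    have h2 := hg0 P
    refine ⟨by rw [he]; omega, fun f hf a I => ?_, fun a I δ => ?_, fun f _ ξ => ξ.elim⟩
    · by_cases hI : mdeg β I = d a
      · refine (he0l P f hf ⟨a, I, (hMn a I).2 hI⟩).mono ?_
        rw [he]; omega
      · rw [hrel.irr a I hI]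
        exact Ge.zero
    · by_cases hI : mdeg β I = d a
      · refine (hg P _ (Finset.mem_image_of_mem _ (Finset.mem_univ
          ((⟨a, I, (hMn a I).2 hI⟩, δ) : (Σ a, {I // I ∈ Mn a}) × Δ)))).mono ?_
        rw [he]; omega
      · unfold cdef
        rw [if_neg hI]
        exact Ge.zero
  have hfin : {P | e P ≠ 0}.Finite := by
    refine (he0f.union hgf).subset fun P hP => ?_
    by_contra hcon
    rw [Set.mem_union, not_or] at hcon
    have h1 : ¬ (e0 P ≠ 0) := hcon.1
    have h2 : ¬ (g' P ≠ 0) := hcon.2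
    apply hP
    rw [he]
    push Not at h1 h2
    rw [h1, h2, add_zero]
  obtain ⟨H, hH⟩ : ∃ H : ℤ, H = max (∑ᶠ P, (Fintype.card ι + Fintype.card Δ) * e P) 0 :=
    ⟨_, rfl⟩
  refine ⟨H, fun x hx hxR hxg l => ?_⟩
  obtain ⟨x', hx'⟩ : ∃ x' : ι → LL k0 y (E : Set K) i,
    ∀ j, x' j = ⟨(x j : K), subset_LL y _ i (x j).2⟩ := ⟨_, fun _ => rfl⟩
  have hx'K : ∀ j, algebraMap (LL k0 y (E : Set K) i) K (x' j) = x j := fun j => by
    rw [hx']
    rfl
  have hxl0 : ∀ s, x' (l0 s) = 1 := by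
    intro s
    rw [hx']
    apply Subtype.ext
    change (x (l0 s) : K) = 1
    rw [hx]; rfl
  have hval : ∀ f : MvPolynomial (ι ⊕ A) k0, algebraMap (LL k0 y (E : Set K) i) K
      (aeval (Sum.elim x' fun a => ∑ J ∈ Mn a, t' a J * mn x' J) f) =
      aeval (Sum.elim (fun l => (x l : K)) fun a =>
        ∑ J ∈ Mn a, (tE a J : K) * mn (fun l => (x l : K)) J) f := by
    intro f
    have h1 := hom_eval₂ f ψ (algebraMap (LL k0 y (E : Set K) i) K)
      (Sum.elim x' fun a => ∑ J ∈ Mn a, t' a J * mn x' J)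
    refine h1.trans ?_
    have h2 : (algebraMap (LL k0 y (E : Set K) i) K).comp ψ = algebraMap k0 K := by
      ext r
      rfl
    rw [h2, aeval_def]
    congr 1
    funext j
    rcases j with j | a
    · exact hx'K j
    · simp only [Sum.elim_inr]
      rw [map_sum]
      refine Finset.sum_congr rfl fun J _ => ?_
      rw [map_mul, mn_hom, ht']
      simp only [hx'K]
      rfl
  have hnum : NumC k0 β d (Fintype.card Δ) 0 x' fun a => ∑ J ∈ Mn a, t' a J * mn x' J := by
    refine hyp _ x' _ hxl0 (fun f hf => ?_) fun h0 => ?_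
    · apply (algebraMap (LL k0 y (E : Set K) i) K).injective
      rw [map_zero, hval, hxR f hf]
    · apply hxg
      rw [← hval, h0, map_zero]
  have h1 := (hrel.rel (E := fun ξ : Empty => (ξ.elim : Derivation ℤ
    (LL k0 y (E : Set K) i) (LL k0 y (E : Set K) i))) (fun ξ => ξ.elim)
    (fun ξ => ξ.elim)).height hMn hB hloc hfin hl0 hxl0 hnum (β l)
  obtain ⟨j0, hj0⟩ := hB.surj (β l) (l0 (β l)) (hl0 _)
  obtain ⟨j, hj⟩ := hB.surj (β l) l rfl
  rw [← hx' l]
  by_cases hl : x' l = 0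
  · rw [hl, hH]
    have h2 := Pool.Agent.TH145.MG.hgt_const (k := kap k0 y i) (L := LL k0 y (E : Set K) i) 0
    rw [map_zero] at h2
    rw [h2]
    exact le_max_right _ _
  · have h2 := Pool.Agent.W603.CX.hgt_le_pht (k := kap k0 y i) (fun j => x' (en (β l) j))
      (j := j) (l := j0) (by rw [hj]; exact hl) (by rw [hj0, hxl0]; exact one_ne_zero)
    rw [hj, hj0, hxl0, div_one] at h2
    rw [hH]
    exact h2.trans (h1.trans (le_max_left _ _))

/-- Finiteness of the points. -/
theorem fin_all [IsAlgClosed k0] [Finite υ] (hy : IsTranscendenceBasis k0 y)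
    [FiniteDimensional (IntermediateField.adjoin k0 (Set.range y)) E]
    [IsGalois (IntermediateField.adjoin k0 (Set.range y)) E]
    {tE : A → (ι →₀ ℕ) → E.toSubfield} (D : A → (ι →₀ ℕ) → Derivation ℤ K K)
    (hDE : ∀ a I, ∀ x ∈ E, D a I x ∈ E)
    (hDy : ∀ a I j, ∃ r : k0, D a I (y j) = algebraMap k0 K r)
    (h : RelD k0 β d D (fun a I => (tE a I : K)) q)
    {Mn : A → Finset (ι →₀ ℕ)} (hMn : ∀ a I, I ∈ Mn a ↔ mdeg β I = d a) (hB : Blk β n en)
    {l0 : S → ι} (hl0 : ∀ s, β (l0 s) = s) {R : Set (MvPolynomial (ι ⊕ A) k0)}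
    {g : MvPolynomial (ι ⊕ A) k0} (hyp : HypL k0 β d (Fintype.card Δ) 0 l0 R g) :
    {x : ι → K | (∀ l, x l ∈ E) ∧ (∀ s, x (l0 s) = 1) ∧
      (∀ f ∈ R, aeval (Sum.elim x fun a => ∑ J ∈ Mn a, (tE a J : K) * mn x J) f = 0) ∧
      aeval (Sum.elim x fun a => ∑ J ∈ Mn a, (tE a J : K) * mn x J) g ≠ 0}.Finite := by
  classical
  by_contra hinf
  let f := Set.Infinite.natEmbedding _ hinf
  obtain ⟨x, hx⟩ : ∃ x : ℕ → ι → K, ∀ n, x n = (f n).1 := ⟨_, fun _ => rfl⟩
  have hxinj : Function.Injective x := by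
    intro a b hab
    rw [hx, hx] at hab
    exact f.injective (Subtype.ext hab)
  have hxE : ∀ n l, x n l ∈ E := fun n l => by rw [hx]; exact (f n).2.1 l
  have hxl : ∀ n s, x n (l0 s) = 1 := fun n => by rw [hx]; exact (f n).2.2.1
  have hxR : ∀ n, ∀ g ∈ R, aeval (Sum.elim (x n) fun a =>
      ∑ J ∈ Mn a, (tE a J : K) * mn (x n) J) g = 0 := fun n => by
    rw [hx]; exact (f n).2.2.2.1
  have hxg : ∀ n, aeval (Sum.elim (x n) fun a =>
      ∑ J ∈ Mn a, (tE a J : K) * mn (x n) J) g ≠ 0 := fun n => by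
    rw [hx]; exact (f n).2.2.2.2
  choose H hH using fun i => heights E hy.1 D hDE hDy h hMn hB hl0 hyp i
  have hz : ∀ l, Om.mk (fun n => x n l) ∈ OE k0 ((E.toSubfield : Subfield K) : Set K) := fun l =>
    lim_mem E hy (fun n => ⟨x n l, hxE n l⟩) H fun n i =>
      hH i (fun l => ⟨x n l, hxE n l⟩) (fun s => Subtype.ext (hxl n s)) (hxR n) (hxg n) l
  have hval : ∀ f : MvPolynomial (ι ⊕ A) k0, eval₂ ((cst K).comp (algebraMap k0 K))
      (Sum.elim (fun l => Om.mk fun n => x n l) fun a =>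
        ∑ J ∈ Mn a, cst K (tE a J) * mn (fun l => Om.mk fun n => x n l) J) f =
      Om.mk fun n => aeval (Sum.elim (x n) fun a =>
        ∑ J ∈ Mn a, (tE a J : K) * mn (x n) J) f := by
    intro f
    rw [← aeval_mk]
    congr 1
    funext j
    rcases j with j | a
    · rfl
    · simp only [Sum.elim_inr]
      rw [Pool.Agent.W61.RG.GSP.mk_sum (Mn a) (fun J m => (tE a J : K) * mn (x m) J)]
      refine Finset.sum_congr rfl fun J _ => ?_
      rw [mn_mk, cst_apply, Om.mk_mul]
  have hacl := limit E.toSubfield (fun r => k0_mem E r) (tE := tE) D hDE h hMn hB hl0 hyp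
    (fun l => Om.mk fun n => x n l) hz (fun s => by
      have h1 : (fun n => x n (l0 s)) = fun _ => 1 := funext fun n => hxl n s
      rw [h1]; rfl) (fun g hg => by
      rw [hval]
      have h2 : (fun n => aeval (Sum.elim (x n) fun a =>
        ∑ J ∈ Mn a, (tE a J : K) * mn (x n) J) g) = fun _ => 0 := by
        funext n
        exact hxR n g hg
      rw [h2]
      rfl) (by
      rw [hval]
      intro h0
      have h1 : (Om.mk fun n => aeval (Sum.elim (x n) fun a =>
        ∑ J ∈ Mn a, (tE a J : K) * mn (x n) J) g) = Om.mk fun _ => 0 := h0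
      rw [Om.mk_eq] at h1
      obtain ⟨n, hn⟩ := h1.exists
      exact hxg n hn)
  choose a ha using fun l => eventually_const (hacl l)
  exact not_all_const hxinj a ha

end Pool.Agent.KS6_26.D
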