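import Pool.Agent.KS6_26.D.VLin
import Pool.Graph.R_seed8.TH145.GF.Main

/-!
The order of the canonical forms at divisorial places, and general type.
-/

set_option autoImplicit false

open FF Pool.Agent.W603.LV Pool.Agent.W603.PV Pool.Agent.TH145.GH
open Pool.Agent.W602.GT
open Pool.Agent.TH145.GF (vE det_dec der_comb exists_lift)

namespace Pool.Agent.KS6_26.D

variable {K L : Type} [Field K] [Field L] [Algebra K L] [CharZero K] {ι S A Δ : Type}
  [DecidableEq S] {β : ι → S} {d : A → S → ℕ} {w : ℕ}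
  {D : A → (ι →₀ ℕ) → Derivation ℤ L L} {c : A → (ι →₀ ℕ) → Δ → L}
  {n : S → ℕ} {en : ∀ s, Fin (n s + 1) → ι}

open scoped Classical in
/-- The order of the form at a divisorial place. -/
theorem ord_form [Fintype S] (hB : Blk β n en)
    (hw : 0 < w) (htr : Algebra.trdeg K L = w) {P : Place K L} (hP : Divisorial w P)
    (hS : ∀ a I, Sem K (D a I)) (hc : ∀ a I δ, ∃ r : K, c a I δ = algebraMap K L r)
    {t : Fin w → L} (ht : IsTranscendenceBasis K t)
    {E : Fin w → Derivation K L L} (hEt : ∀ i j, E i (t j) = if i = j then 1 else 0)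
    {Dd : Fin w → Derivation K L L} (hM : (Matrix.of fun i j => Dd i (t j)).det ≠ 0)
    {x : ι → L} {e0 : S → ι} (he0 : ∀ s, β (e0 s) = s) (hx0 : ∀ s, x (e0 s) ≠ 0)
    {b : Finset (Gx ι S A (Fin w) ⊕ A)} (hb : ∀ v ∈ Vert ι S A (Fin w), Sum.inl v ∈ b)
    (σ : b → ι ⊕ Δ)
    (hspan : Submodule.span L (Set.range (gen β d D c (vE E) x)) ≤
      Submodule.span L (gen β d D c (vE E) x '' {g | Sum.inl g ∈ b}))
    (hdet : (mx β d D c (vE E) x (fun a => std e0 (d a)) b σ).det ≠ 0)
    (hreg : ∀ i, DerReg P (Dd i)) :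
    (∑ s, ((wt β σ s : ℤ) - dsum d b s) * pord P (fun j => x (en s j))) ≤
      P.ord (Matrix.of fun i j => Dd i (t j)).det +
      P.ord ((mx β d D c (vE E) x (fun a => std e0 (d a)) b σ).det /
        ∏ i ∈ b, Sum.elim (fun _ => (1 : L)) (fun a => mn x (std e0 (d a))) i) := by
  obtain ⟨M, hMd⟩ : ∃ M : Matrix (Fin w) (Fin w) L, M = Matrix.of fun i j => Dd i (t j) := ⟨_, rfl⟩
  rw [← hMd] at hM ⊢
  have hDdE : ∀ i f, Dd i f = ∑ j, M i j * E j f := fun i f => by
    rw [der_comb ht hEt (Dd i) f, hMd]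
    rfl
  have hMu : IsUnit M.det := isUnit_iff_ne_zero.2 hM
  have hEDd : ∀ i f, E i f = ∑ j, M⁻¹ i j * Dd j f := fun i f => by
    have h1 : (fun j => Dd j f) = M.mulVec fun j => E j f := by
      funext j
      rw [hDdE]
      rfl
    have h3 : ∑ j, M⁻¹ i j * Dd j f = M⁻¹.mulVec (fun j => Dd j f) i := rfl
    rw [h3, h1, Matrix.mulVec_mulVec, Matrix.nonsing_inv_mul _ hMu, Matrix.one_mulVec]
  choose ξ hξ using fun a I => exists_lift hw htr hP (hS a I)
  obtain ⟨D', hD'⟩ : ∃ D' : A → (ι →₀ ℕ) → Derivation ℤ L L, ∀ a I f,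
    D' a I f = D a I f - ξ a I f :=
    ⟨fun a I => D a I - (ξ a I).restrictScalars ℤ, fun a I f => by simp⟩
  have hD'E : ∀ a I f, D' a I f = D a I f + ∑ j, (-(ξ a I (t j))) * vE E j f := fun a I f => by
    rw [hD', der_comb ht hEt (ξ a I) f, sub_eq_add_neg, ← Finset.sum_neg_distrib]
    congr 1
    exact Finset.sum_congr rfl fun j _ => (neg_mul _ _).symm
  have hDD' : ∀ a I f, D a I f = D' a I f + ∑ j, (∑ i, ξ a I (t i) * M⁻¹ i j) * vE Dd j f := by
    intro a I f
    have h1 : ∑ j, (∑ i, ξ a I (t i) * M⁻¹ i j) * vE Dd j f = ξ a I f := by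
      rw [der_comb ht hEt (ξ a I) f]
      simp only [Finset.sum_mul]
      rw [Finset.sum_comm]
      refine Finset.sum_congr rfl fun i _ => ?_
      rw [hEDd i f, Finset.mul_sum]
      exact Finset.sum_congr rfl fun j _ => mul_assoc _ _ _
    rw [h1, hD']
    ring
  have h1 := det_add_vert (β := β) (d := d) (c := c) (D := D) (D' := D') (E := vE E)
    (κ := fun a I j => -(ξ a I (t j))) hD'E x hb σ (fun a => std e0 (d a))
  have h2 : (mx β d D' c (vE Dd) x (fun a => std e0 (d a)) b σ).det =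
      M.det * (mx β d D' c (vE E) x (fun a => std e0 (d a)) b σ).det := by
    have := det_lin (β := β) (d := d) (c := c) (D := D') (E := vE E) (E' := vE Dd) (M := M)
      (fun i f => hDdE i f) x hb σ (fun a => std e0 (d a))
    exact (det_dec _ _ _).trans (this.trans (congrArg₂ (· * ·) (det_dec _ _ _) (det_dec _ _ _)))
  rw [h1] at h2
  have hloc : Loc P D' c (vE Dd) 0 := by
    refine ⟨le_rfl, fun f hf a I => ?_, fun a I δ => ?_, fun f hf i => ?_⟩
    · rw [neg_zero]
      by_cases hf0 : f = 0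
      · rw [hf0, map_zero]
        exact Ge.zero
      · rw [hD']
        exact (hξ a I f hf0).mono (hf.resolve_left hf0)
    · obtain ⟨r, hr⟩ := hc a I δ
      rw [hr, neg_zero]
      exact Ge.const r
    · rw [neg_zero]
      exact hreg i f hf
  have hv : ∀ ξ : Fin w, (Sum.inr (Sum.inl ξ) : Gx ι S A (Fin w)) ∈
      {g : Gx ι S A (Fin w) | Sum.inl g ∈ b} := fun ξ => hb _ (Or.inr ⟨ξ, rfl⟩)
  have hspan' : Submodule.span L (Set.range (gen β d D' c (vE Dd) x)) ≤
      Submodule.span L (gen β d D' c (vE Dd) x '' {g | Sum.inl g ∈ b}) := by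
    rw [← Set.image_univ]
    refine (span_change (β := β) (d := d) (c := c) hD'E (M := M) (fun i f => hDdE i f) x
      (B := Set.univ) (fun _ => Set.mem_univ _)).trans ?_
    rw [Set.image_univ]
    refine hspan.trans ?_
    exact span_change (β := β) (d := d) (c := c) hDD' (M := M⁻¹) (fun i f => hEDd i f) x hv
  have h3 := local_est (d := d) hB P hloc he0 hx0 (fun s => hb _ (Or.inl ⟨s, rfl⟩)) σ hspan' (by
    rw [h2]
    exact mul_ne_zero hM hdet)
  have hZ0 : (∏ i ∈ b, Sum.elim (fun _ => (1 : L)) (fun a => mn x (std e0 (d a))) i) ≠ 0 := by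
    refine Finset.prod_ne_zero_iff.2 fun i _ => ?_
    rcases i with g | a
    · exact one_ne_zero
    · rw [Sum.elim_inr, mn_std]
      exact Finset.prod_ne_zero_iff.2 fun s _ => pow_ne_zero _ (hx0 s)
  rw [h2, mul_div_assoc, P.ord_mul hM (div_ne_zero hdet hZ0), mul_zero, sub_zero] at h3
  exact h3

/-- A transcendence basis among the coordinates. -/
theorem exists_coord_basis {K L ι : Type} [Field K] [Field L] [Algebra K L] [Finite ι] {w : ℕ}
    (htr : Algebra.trdeg K L = w) {x : ι → L}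
    (hgen : Algebra.IsAlgebraic (IntermediateField.adjoin K (Set.range x)) L) :
    ∃ l : Fin w → ι, IsTranscendenceBasis K fun i => x (l i) := by
  classical
  have h3 : Algebra.IsAlgebraic (Algebra.adjoin K (Set.range x)) L :=
    ⟨fun f => IntermediateField.isAlgebraic_adjoin_iff.1 (hgen.isAlgebraic f)⟩
  obtain ⟨u, -, hu, hub⟩ := exists_isTranscendenceBasis_between (R := K) (∅ : Set L) (Set.range x)
    (Set.empty_subset _) ((algebraicIndependent_empty_type_iff (R := K) (A := L)
      (x := fun i : (∅ : Set L) => (i : L))).2 (algebraMap K L).injective)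
  have hfin : Finite u := Set.Finite.to_subtype ((Set.finite_range x).subset hu)
  have := Fintype.ofFinite u
  have hcard : Fintype.card u = w := by
    have h4 := hub.lift_cardinalMk_eq_trdeg
    rw [htr] at h4
    simpa using h4
  obtain ⟨e⟩ : Nonempty (Fin w ≃ u) := ⟨(Fintype.equivFinOfCardEq hcard).symm⟩
  choose l hl using fun i : Fin w => hu (e i).2
  refine ⟨l, ?_⟩
  have h5 : (fun i => x (l i)) = (fun z : u => (z : L)) ∘ e := by
    funext i
    exact hl i
  rw [h5]
  exact (isTranscendenceBasis_equiv e).2 hub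

open scoped Classical in
/-- Subvarieties are of general type. -/
theorem general_core {k0 : Type} [Field k0] [Algebra k0 K] [Algebra k0 L] [IsScalarTower k0 K L]
    [Fintype S] [Fintype A] [Fintype Δ] [Fintype ι]
    (hB : Blk β n en) {Mn : A → Finset (ι →₀ ℕ)} (hMn : ∀ a I, I ∈ Mn a ↔ mdeg β I = d a)
    {q : Δ → A × (ι →₀ ℕ)} {t0 : A → (ι →₀ ℕ) → K} {ε : A → (ι →₀ ℕ) → L} {Y : Type}
    {E0 : Y → Derivation ℤ L L}
    (h : Rel k0 β d D c E0 (fun a I => algebraMap K L (t0 a I)) ε q)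
    (hw : 0 < w) (htr : Algebra.trdeg K L = w)
    (hS : ∀ a I, Sem K (D a I)) (hc : ∀ a I δ, ∃ r : K, c a I δ = algebraMap K L r)
    {x : ι → L} {l0 : S → ι} (hl0 : ∀ s, β (l0 s) = s) (hx0 : ∀ s, x (l0 s) = 1)
    (hgen : Algebra.IsAlgebraic (IntermediateField.adjoin K (Set.range x)) L)
    (hε : ∀ a I, ε a I * ∑ J ∈ Mn a, algebraMap K L (t0 a J) * mn x J = 0)
    (hnum : NumC k0 β d (Fintype.card Δ) w x
      fun a => ∑ J ∈ Mn a, algebraMap K L (t0 a J) * mn x J) : GeneralType K L w := by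
  obtain ⟨l, hl⟩ := exists_coord_basis htr hgen
  obtain ⟨t, ht⟩ : ∃ t : Fin w → L, ∀ i, t i = x (l i) := ⟨_, fun _ => rfl⟩
  have htb : IsTranscendenceBasis K t := by
    have : t = fun i => x (l i) := funext ht
    rw [this]
    exact hl
  -- the vertical derivations
  obtain ⟨E, hE⟩ : ∃ E : Fin w → Derivation K L L, ∀ i j, E i (t j) = if i = j then 1 else 0 := by
    obtain ⟨E, hE⟩ := exists_dual htb
    refine ⟨E, fun i j => ?_⟩
    have := congrFun (congrFun hE i) j
    rw [Matrix.of_apply, Matrix.one_apply] at this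
    rw [this]
  have hrel : Rel k0 β d D c (vE E) (fun a I => algebraMap K L (t0 a I)) ε q := by
    refine h.vert (fun i r => ?_) fun i b J _ => ?_
    · change E i (algebraMap k0 L r) = 0
      rw [IsScalarTower.algebraMap_apply k0 K L]
      exact (E i).map_algebraMap _
    · exact (E i).map_algebraMap _
  have hindep : LinearIndepOn L (gen β d D c (vE E) x) (Vert ι S A (Fin w)) := by
    obtain ⟨f, hf⟩ : ∃ f : S ⊕ Fin w → Gx ι S A (Fin w), ∀ o, f o =
      Sum.elim Sum.inl (fun i => Sum.inr (Sum.inl i)) o := ⟨_, fun _ => rfl⟩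
    have h1 : Vert ι S A (Fin w) = f '' Set.univ := by
      ext i
      constructor
      · rintro (⟨s, rfl⟩ | ⟨i, rfl⟩)
        · exact ⟨Sum.inl s, trivial, by rw [hf]; rfl⟩
        · exact ⟨Sum.inr i, trivial, by rw [hf]; rfl⟩
      · rintro ⟨(s | i), -, rfl⟩
        · rw [hf]; exact Or.inl ⟨s, rfl⟩
        · rw [hf]; exact Or.inr ⟨i, rfl⟩
    rw [h1]
    refine LinearIndepOn.image_of_comp _ _ ?_
    rw [linearIndepOn_univ_iff, Fintype.linearIndependent_iff]
    intro r hr
    have h2 : ∀ q, r (Sum.inl (β q)) * x q + ∑ i, r (Sum.inr i) * E i (x q) = 0 := by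
      intro q
      have h3 := congrFun hr (Sum.inl q)
      rw [Fintype.sum_sum_type, Pi.add_apply, Finset.sum_apply, Finset.sum_apply] at h3
      simp only [Function.comp_apply, hf, Sum.elim_inl, Sum.elim_inr, gen, Pi.smul_apply,
        smul_eq_mul, Pi.zero_apply] at h3
      rw [Finset.sum_eq_single (β q)] at h3
      · rw [if_pos rfl] at h3
        exact h3
      · intro s _ hs
        rw [if_neg (Ne.symm hs), mul_zero]
      · intro h; exact absurd (Finset.mem_univ _) h
    have h3 : ∀ s, r (Sum.inl s) = 0 := by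
      intro s
      have h4 := h2 (l0 s)
      rw [hx0, mul_one, Finset.sum_eq_zero fun i _ => by
        rw [(E i).map_one_eq_zero, mul_zero], add_zero, hl0] at h4
      exact h4
    rintro (s | j)
    · exact h3 s
    · have h4 := h2 (l j)
      rw [h3, zero_mul, zero_add, ← ht, Finset.sum_eq_single j] at h4
      · rwa [hE, if_pos rfl, mul_one] at h4
      · intro i _ hi
        rw [hE, if_neg hi, mul_zero]
      · intro h; exact absurd (Finset.mem_univ _) h
  have hx1 : ∀ s, x (l0 s) ≠ 0 := fun s => by rw [hx0]; exact one_ne_zero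
  have hnum' : NumC k0 β d (Fintype.card Δ) (Fintype.card (Fin w)) x
      fun a => ∑ J ∈ Mn a, algebraMap K L (t0 a J) * mn x J := by
    rw [Fintype.card_fin]
    exact hnum
  have hcz : CharZero L := charZero_of_injective_algebraMap (algebraMap K L).injective
  obtain ⟨b, σ, hb, hspan, hdet, hwt, -⟩ := hrel.exists_good hMn hε hl0 hx0 hl0 hx1 hindep hnum'
  have hZ : (∏ i ∈ b, Sum.elim (fun _ => (1 : L)) (fun a => mn x (std l0 (d a))) i) = 1 := by
    refine Finset.prod_eq_one fun i _ => ?_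
    rcases i with g | a
    · rfl
    · rw [Sum.elim_inr, mn_std]
      exact Finset.prod_eq_one fun s _ => by rw [hx0, one_pow]
  obtain ⟨lj, hlj⟩ : ∃ lj : Fin (w + 1) → L, lj = Fin.cons 1 t := ⟨_, rfl⟩
  have hljx : ∀ j, ∃ s i, x i = lj j ∧ β i = s := by
    intro j
    refine Fin.cases ?_ (fun i => ?_) j
    · have hne : Nonempty S := by
        have : 0 < w := hw
        exact ⟨β (l ⟨0, hw⟩)⟩
      obtain ⟨s⟩ := hne
      exact ⟨s, l0 s, by rw [hx0, hlj, Fin.cons_zero], hl0 s⟩
    · exact ⟨_, l i, by rw [hlj, Fin.cons_succ, ht], rfl⟩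
  obtain ⟨ω, hω⟩ : ∃ ω : Fin (w + 1) → (Fin w → Derivation K L L) → L, ∀ j Dd, ω j Dd =
    (mx β d D c (vE Dd) x (fun a => std l0 (d a)) b σ).det * lj j := ⟨_, fun _ _ => rfl⟩
  have hlin : ∀ (M : Matrix (Fin w) (Fin w) L) (D1 D2 : Fin w → Derivation K L L),
      (∀ i f, D1 i f = ∑ j, M i j * D2 j f) → ∀ j, ω j D1 = M.det * ω j D2 := by
    intro M D1 D2 h j
    have h1 := det_lin (β := β) (d := d) (c := c) (D := D) (E := vE D2) (E' := vE D1) (M := M)
      h x hb σ (fun a => std l0 (d a))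
    have h2 : (mx β d D c (vE D1) x (fun a => std l0 (d a)) b σ).det =
        M.det * (mx β d D c (vE D2) x (fun a => std l0 (d a)) b σ).det := by
      exact (det_dec _ _ _).trans (h1.trans (congrArg₂ (· * ·) (det_dec _ _ _) (det_dec _ _ _)))
    rw [hω, hω, h2]
    ring
  have hωE : ω 0 E ≠ 0 := by
    rw [hω, hlj, Fin.cons_zero, mul_one]
    exact hdet
  -- the regularity
  have hreg : ∀ (Q : Place K L), Divisorial w Q → ∀ (Dd : Fin w → Derivation K L L),
      (∀ i, DerReg Q (Dd i)) → ∀ j, Q.Reg (ω j Dd) := by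
    intro Q hQ Dd hDd j
    obtain ⟨M, hM⟩ : ∃ M : Matrix (Fin w) (Fin w) L, M = Matrix.of fun i j => Dd i (t j) := ⟨_, rfl⟩
    have hωM := hlin M Dd E (fun i f => by
      rw [der_comb htb hE (Dd i) f, hM]
      rfl) j
    by_cases hM0 : M.det = 0
    · rw [hωM, hM0, zero_mul]
      exact Q.reg_zero
    by_cases hxj : lj j = 0
    · rw [hω, hxj, mul_zero]
      exact Q.reg_zero
    have h1 := ord_form hB hw htr hQ hS hc htb hE (Dd := Dd) (by
      have h2 := hM0
      rw [hM] at h2
      rw [Ne, det_dec _ _ (Matrix.of fun i j => Dd i (t j))]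
      exact h2) hl0 hx1 hb σ hspan hdet hDd
    rw [hZ, div_one] at h1
    have h2 : Q.ord (Matrix.of fun i j => Dd i (t j)).det = Q.ord M.det := by
      congr 1
      rw [hM]
    right
    rw [hωM, hω, Q.ord_mul hM0 (mul_ne_zero hdet hxj), Q.ord_mul hdet hxj]
    -- the orders of the blocks
    have h4 : ∀ s, pord Q (fun j => x (en s j)) ≤ 0 := by
      intro s
      obtain ⟨j0, hj0⟩ := hB.surj s (l0 s) (hl0 s)
      have h5 := pord_le Q (f := fun j => x (en s j)) (j := j0) (by rw [hj0]; exact hx1 s)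
      rwa [hj0, hx0, Q.ord_one] at h5
    have h5 : ∀ s, -pord Q (fun j => x (en s j)) ≤
        ((wt β σ s : ℤ) - dsum d b s) * pord Q (fun j => x (en s j)) := by
      intro s
      have h6 := h4 s
      have h7 := hwt s
      have h8 : ((wt β σ s : ℤ) - dsum d b s) ≤ -1 := by omega
      nlinarith
    obtain ⟨s, i, hi, his⟩ := hljx j
    have h6 : pord Q (fun j => x (en s j)) ≤ Q.ord (lj j) := by
      obtain ⟨j1, hj1⟩ := hB.surj s i his
      have h7 := pord_le Q (f := fun j => x (en s j)) (j := j1) (by rw [hj1, hi]; exact hxj)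
      rwa [hj1, hi] at h7
    have h7 : -pord Q (fun j => x (en s j)) ≤
        ∑ s, ((wt β σ s : ℤ) - dsum d b s) * pord Q (fun j => x (en s j)) := by
      refine (h5 s).trans (Finset.single_le_sum (f := fun s =>
        ((wt β σ s : ℤ) - dsum d b s) * pord Q (fun j => x (en s j))) (fun s _ => ?_)
        (Finset.mem_univ s))
      have h8 := h5 s
      have h9 := h4 s
      linarith
    linarith
  refine ⟨htr, 1, one_pos, ω, fun j M Dd => ?_, fun Q hQ j Dd hDd => ?_, E, hωE, ?_⟩
  · rw [pow_one]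
    refine hlin M _ Dd (fun i f => ?_) j
    rw [← Derivation.coeFnAddMonoidHom_apply, map_sum, Finset.sum_apply]
    rfl
  · exact hreg Q hQ Dd hDd j
  · have h1 : (fun i : Fin w => ω i.succ E / ω 0 E) = t := by
      funext i
      rw [hω, hω, hlj, Fin.cons_succ, Fin.cons_zero, mul_one, mul_div_cancel_left₀ _ hdet]
    rw [h1]
    exact htb.1

end Pool.Agent.KS6_26.D
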