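import Pool.Agent.KS6_26.D.Setup
import Pool.Graph.R_seed8.TH145.GC.Scale

/-!
Forms such that the ratios of the coefficients generate a field of large transcendence degree.
-/

set_option autoImplicit false

open MvPolynomial Pool.Agent.TH145.GH
open Pool.Agent.TH145.MG (cl subset_cl mem_cl mem_cl_iff card_le indep_of_mem)

namespace Pool.Agent.KS6_26.D

section trdeg

variable {k K : Type} [Field k] [Field K] [Algebra k K]

theorem trdeg_le_of_cl {J : Type} [Finite J] (F : IntermediateField k K) (g : J → K)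
    (h : ∀ w ∈ F, w ∈ cl k (Set.range g)) : Algebra.trdeg k F ≤ Nat.card J := by
  obtain ⟨ι', x, hx⟩ := exists_isTranscendenceBasis' k F
  rw [← hx.cardinalMk_eq_trdeg]
  by_contra hcon
  rw [not_le] at hcon
  have h1 : ((Nat.card J + 1 : ℕ) : Cardinal) ≤ Cardinal.mk ι' := by
    rw [Nat.cast_add, Nat.cast_one, ← Cardinal.succ_natCast]
    exact Order.succ_le_of_lt hcon
  obtain ⟨s, hs⟩ := Cardinal.exists_finset_le_card ι' _ h1
  have h2 : AlgebraicIndependent k fun i : s => (x i : K) :=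
    (hx.1.comp (fun i : s => (i : ι')) Subtype.val_injective).map' (f := F.val)
      Subtype.val_injective
  have h3 := card_le _ h2 g fun i => h _ (x i).2
  rw [Nat.card_eq_fintype_card, Fintype.card_coe] at h3
  omega

/-- Independent elements in a finite family. -/
theorem exists_free {J : Type} [Finite J] (z : J → K) {δ : ℕ}
    (h : (Nat.card J : Cardinal) ≤
      Algebra.trdeg k (IntermediateField.adjoin k (Set.range z)) + δ) :
    ∃ I : Finset J, AlgebraicIndependent k (fun b : I => z b) ∧ Nat.card J ≤ I.card + δ := by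
  classical
  obtain ⟨B, hB⟩ := (AlgebraicIndependent.matroid k K).exists_isBasis (Set.range z)
  have hBi : AlgebraicIndependent k ((↑) : B → K) := hB.indep
  have hBx : B ⊆ Set.range z := hB.subset
  have hBfin : B.Finite := (Set.finite_range z).subset hBx
  have hcl : ∀ i, z i ∈ (AlgebraicIndependent.matroid k K).closure B :=
    fun i => hB.subset_closure ⟨i, rfl⟩
  have := hBfin.fintype
  choose f hf using fun b : B => hBx b.2
  have hfi : Function.Injective f := by
    intro a b hab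
    apply Subtype.ext
    rw [← hf a, ← hf b, hab]
  refine ⟨Finset.univ.image f, ?_, ?_⟩
  · have h1 : ∀ i : (Finset.univ.image f : Finset J), ∃ b, f b = i := fun i => by
      obtain ⟨b, -, hb⟩ := Finset.mem_image.1 i.2
      exact ⟨b, hb⟩
    choose g hg using h1
    have hgi : Function.Injective g := by
      intro a b hab
      apply Subtype.ext
      rw [← hg a, ← hg b, hab]
    have h2 := hBi.comp g hgi
    convert h2 using 1
    funext i
    change z i = (g i : K)
    rw [← hf, hg]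
  · rw [Finset.card_image_of_injective _ hfi, Finset.card_univ]
    have h1 : Algebra.trdeg k (IntermediateField.adjoin k (Set.range z)) ≤ Nat.card B := by
      refine trdeg_le_of_cl _ ((↑) : B → K) fun w hw => ?_
      have h2 : IntermediateField.adjoin k (Set.range z) ≤ cl k (Set.range ((↑) : B → K)) := by
        rw [IntermediateField.adjoin_le_iff, Subtype.range_coe]
        rintro _ ⟨i, rfl⟩
        exact mem_cl_iff.2 (hcl i)
      exact h2 hw
    have h2 := h.trans (add_le_add_left h1 δ)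
    rw [Nat.card_eq_fintype_card (α := B)] at h2
    exact_mod_cast h2

end trdeg

variable {ι S A : Type} [DecidableEq S]

/-- The indices of the ratios of the coefficients. -/
abbrev Rt (β : ι → S) (d : A → S → ℕ) (I0 : A → ι →₀ ℕ) : Type :=
  {p : A × (ι →₀ ℕ) // mdeg β p.2 = d p.1 ∧ p.2 ≠ I0 p.1}

theorem finite_Rt [Finite A] {β : ι → S} {d : A → S → ℕ} {Mn : A → Finset (ι →₀ ℕ)}
    (hMn : ∀ a I, I ∈ Mn a ↔ mdeg β I = d a) (I0 : A → ι →₀ ℕ) : Finite (Rt β d I0) := by
  have := Fintype.ofFinite A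
  refine Finite.of_injective (β := Σ a, {I // I ∈ Mn a})
    (fun p => ⟨p.1.1, p.1.2, (hMn _ _).2 p.2.1⟩) ?_
  rintro ⟨⟨a, I⟩, h1⟩ ⟨⟨b, J⟩, h2⟩ h
  have h3 : a = b := congrArg Sigma.fst h
  subst h3
  have h4 := eq_of_heq (Sigma.mk.inj_iff.1 h).2
  have h5 : I = J := congrArg Subtype.val h4
  subst h5
  rfl

omit [DecidableEq S] in
theorem HypL.mono {k0 : Type} [Field k0] [Fintype A] {β : ι → S} {d : A → S → ℕ} {δ δ' w : ℕ}
    {l0 : S → ι} {R : Set (MvPolynomial (ι ⊕ A) k0)} {g : MvPolynomial (ι ⊕ A) k0}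
    (h : HypL k0 β d δ w l0 R g) (hδ : δ' ≤ δ) : HypL k0 β d δ' w l0 R g := by
  intro L _ _ x u hx hR hg
  obtain ⟨r, f, m, h1, h2, h3, h4⟩ := h L x u hx hR hg
  exact ⟨r, f, m, h1, h2, h3, fun B hB s => by
    have := h4 B hB s
    omega⟩

/-- The equations of `V`, and the equations of the forms. -/
def RV {k0 : Type} [Field k0] (ι A : Type) (V : Set (MvPolynomial ι k0)) :
    Set (MvPolynomial (ι ⊕ A) k0) :=
  {g | (∃ f ∈ V, g = rename Sum.inl f) ∨ ∃ a, g = X (Sum.inr a)}

theorem RV_zero {k0 L : Type} [Field k0] [Field L] [Algebra k0 L] {V : Set (MvPolynomial ι k0)}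
    {x : ι → L} {u : A → L} : (∀ f ∈ RV ι A V, aeval (Sum.elim x u) f = 0) ↔
      (∀ f ∈ V, aeval x f = 0) ∧ ∀ a, u a = 0 := by
  constructor
  · intro h
    refine ⟨fun f hf => ?_, fun a => ?_⟩
    · have h1 := h _ (Or.inl ⟨f, hf, rfl⟩)
      rw [aeval_rename] at h1
      exact h1
    · have h1 := h _ (Or.inr ⟨a, rfl⟩)
      rw [aeval_X] at h1
      exact h1
  · rintro ⟨h1, h2⟩ g (⟨f, hf, rfl⟩ | ⟨a, rfl⟩)
    · rw [aeval_rename]
      exact h1 f hf
    · rw [aeval_X]
      exact h2 a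

/-- Finiteness of the points, in terms of the ratios of the coefficients. -/
theorem fin_points' {k0 K : Type} [Field k0] [Field K] [Algebra k0 K] [IsAlgClosed K]
    [CharZero K] [IsAlgClosed k0] [Fintype S] [Fintype A] [Fintype ι] {β : ι → S}
    {d : A → S → ℕ} {n : S → ℕ} {en : ∀ s, Fin (n s + 1) → ι}
    {Mn : A → Finset (ι →₀ ℕ)} (hMn : ∀ a I, I ∈ Mn a ↔ mdeg β I = d a) (hB : Blk β n en)
    {l0 : S → ι} (hl0 : ∀ s, β (l0 s) = s) {V : Set (MvPolynomial ι k0)} {δ : ℕ}
    (hyp : HypL k0 β d δ 0 l0 (RV ι A V) 1)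
    {t : A → (ι →₀ ℕ) → K} {I0 : A → ι →₀ ℕ} (hI0 : ∀ a, mdeg β (I0 a) = d a)
    (h0 : ∀ a, t a (I0 a) ≠ 0)
    {B : Finset (Rt β d I0)} (hBi : AlgebraicIndependent k0 fun b : B =>
      t b.1.1.1 b.1.1.2 / t b.1.1.1 (I0 b.1.1.1)) (hBc : Nat.card (Rt β d I0) ≤ B.card + δ)
    (T : Finset K) :
    {x : ι → K | (∀ l, x l ∈ IntermediateField.adjoin k0 (T : Set K)) ∧ (∀ s, x (l0 s) = 1) ∧
      (∀ f ∈ V, aeval x f = 0) ∧ ∀ a, ∑ J ∈ Mn a, t a J * mn x J = 0}.Finite := by
  classical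
  have := finite_Rt hMn I0
  have : Fintype (Rt β d I0) := Fintype.ofFinite _
  obtain ⟨K', _, _, hK', hc, τ, hτ⟩ := Pool.Agent.TH145.GC.exists_big K A
  let _ : Algebra k0 K' := ((algebraMap K K').comp (algebraMap k0 K)).toAlgebra
  have hst : IsScalarTower k0 K K' := IsScalarTower.of_algebraMap_eq fun _ => rfl
  obtain ⟨Δ, hΔ⟩ : ∃ Δ, Δ = {p : Rt β d I0 // p ∉ B} := ⟨_, rfl⟩
  subst hΔ
  obtain ⟨q, hq⟩ : ∃ q : {p : Rt β d I0 // p ∉ B} → A × (ι →₀ ℕ), ∀ p, q p = p.1.1 :=
    ⟨_, fun _ => rfl⟩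
  have hΔc : Fintype.card {p : Rt β d I0 // p ∉ B} ≤ δ := by
    have h1 := Fintype.card_subtype_compl fun p => p ∈ B
    have h2 : Fintype.card {p : Rt β d I0 // p ∈ B} = B.card := Fintype.card_coe B
    rw [Nat.card_eq_fintype_card] at hBc
    rw [h2] at h1
    omega
  obtain ⟨t', ht'⟩ : ∃ t' : A → (ι →₀ ℕ) → K', ∀ a I, t' a I =
    τ a / algebraMap K K' (t a (I0 a)) * algebraMap K K' (t a I) := ⟨_, fun _ _ => rfl⟩
  have h4 : ∀ a, algebraMap K K' (t a (I0 a)) ≠ 0 := fun a => by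
    rw [Ne, map_eq_zero]; exact h0 a
  have hτ0 : ∀ a, τ a ≠ 0 := fun a => by
    intro h5
    have h6 : Transcendental K (τ a) := hτ.transcendental a
    rw [h5] at h6
    exact h6 (by
      have := isAlgebraic_algebraMap (R := K) (A := K') 0
      rwa [map_zero] at this)
  have hti : ∀ a, t' a (I0 a) = τ a := fun a => by rw [ht', div_mul_cancel₀ _ (h4 a)]
  -- independence
  have hmd : ∀ a δ', q δ' ≠ (a, I0 a) := by
    intro a δ' h
    have h1 := δ'.1.2.2
    rw [hq] at h
    rw [h] at h1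
    exact h1 rfl
  have hBm : ∀ p : Fr β d q, p.1.2 ≠ I0 p.1.1 → ∃ b : B, b.1.1 = p.1 := by
    intro p hp
    by_contra hcon
    push Not at hcon
    have h1 : (⟨p.1, p.2.1, hp⟩ : Rt β d I0) ∉ B := fun h => hcon ⟨_, h⟩ rfl
    exact p.2.2 ⟨_, h1⟩ (hq _)
  have hind : AlgebraicIndependent k0 fun p : Fr β d q => t' p.1.1 p.1.2 := by
    have h2 := AlgebraicIndependent.sumElim_comp hBi hτ
    have he0 : ∀ p : Fr β d q, ∃ e : A ⊕ B, (p.1.2 = I0 p.1.1 → e = Sum.inl p.1.1) ∧
        (p.1.2 ≠ I0 p.1.1 → ∃ b : B, e = Sum.inr b ∧ b.1.1 = p.1) := by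
      intro p
      by_cases hp : p.1.2 = I0 p.1.1
      · exact ⟨Sum.inl p.1.1, fun _ => rfl, fun h => absurd hp h⟩
      · obtain ⟨b, hb⟩ := hBm p hp
        exact ⟨Sum.inr b, fun h => absurd h hp, fun _ => ⟨b, rfl, hb⟩⟩
    choose e he1 he2 using he0
    have hei : Function.Injective e := by
      intro p p' hpp
      apply Subtype.ext
      by_cases hp : p.1.2 = I0 p.1.1 <;> by_cases hp' : p'.1.2 = I0 p'.1.1
      · rw [he1 p hp, he1 p' hp'] at hpp
        have h3 : p.1.1 = p'.1.1 := Sum.inl_injective hpp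
        refine Prod.ext h3 ?_
        rw [hp, hp', h3]
      · obtain ⟨b, hb, -⟩ := he2 p' hp'
        rw [he1 p hp, hb] at hpp
        exact absurd hpp (by simp)
      · obtain ⟨b, hb, -⟩ := he2 p hp
        rw [he1 p' hp', hb] at hpp
        exact absurd hpp (by simp)
      · obtain ⟨b, hb, hb2⟩ := he2 p hp
        obtain ⟨b', hb', hb2'⟩ := he2 p' hp'
        rw [hb, hb'] at hpp
        rw [← hb2, ← hb2', Sum.inr_injective hpp]
    have h3 := h2.comp e hei
    have := finite_Fr (q := q) hMn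
    have htm : ∀ a, τ a ∈ cl k0 (Set.range fun p : Fr β d q => t' p.1.1 p.1.2) := fun a =>
      subset_cl ⟨⟨(a, I0 a), hI0 a, hmd a⟩, hti a⟩
    refine indep_of_mem _ _ h3 fun p => ?_
    rw [Function.comp_apply]
    by_cases hp : p.1.2 = I0 p.1.1
    · rw [he1 p hp]
      exact htm p.1.1
    · obtain ⟨b, hb, hb2⟩ := he2 p hp
      rw [hb]
      change algebraMap K K' (t b.1.1.1 b.1.1.2 / t b.1.1.1 (I0 b.1.1.1)) ∈ _
      rw [hb2]
      have h5 : algebraMap K K' (t p.1.1 p.1.2 / t p.1.1 (I0 p.1.1)) =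
          t' p.1.1 p.1.2 / τ p.1.1 := by
        have h6 := h4 p.1.1
        have h7 := hτ0 p.1.1
        rw [map_div₀, ht']
        field_simp
      rw [h5]
      exact div_mem (subset_cl ⟨p, rfl⟩) (htm p.1.1)
  have h3 := fin_points hMn hB hl0 (hyp.mono hΔc) (q := q) (fun p => by
    rw [hq]; exact p.1.2.1) hind (T.image (algebraMap K K'))
  have hval : ∀ (x : ι → K) (a : A), ∑ J ∈ Mn a, t' a J * mn (fun l => algebraMap K K' (x l)) J =
      τ a / algebraMap K K' (t a (I0 a)) * algebraMap K K' (∑ J ∈ Mn a, t a J * mn x J) := by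
    intro x a
    rw [map_sum, Finset.mul_sum]
    refine Finset.sum_congr rfl fun J _ => ?_
    rw [ht', map_mul, mn_hom, mul_assoc]
  refine Set.Finite.of_finite_image (f := fun x j => algebraMap K K' (x j)) (h3.subset ?_) ?_
  · rintro _ ⟨x, ⟨hx, hxl, hxV, hxF⟩, rfl⟩
    refine ⟨fun j => ?_, fun s => ?_, RV_zero.2 ⟨fun f hf => ?_, fun a => ?_⟩, by
      rw [map_one]; exact one_ne_zero⟩
    · have h4 : (IntermediateField.adjoin k0 (T : Set K)).map (IsScalarTower.toAlgHom k0 K K') =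
          IntermediateField.adjoin k0 ((T.image (algebraMap K K') : Finset K') : Set K') := by
        rw [IntermediateField.adjoin_map, Finset.coe_image]
        rfl
      rw [← h4]
      exact ⟨x j, hx j, rfl⟩
    · dsimp only
      rw [hxl, map_one]
    · have h6 := congrArg (algebraMap K K') (hxV f hf)
      rw [map_zero] at h6
      rw [← h6]
      exact (hom_eval₂ f (algebraMap k0 K) (algebraMap K K') x).symm
    · rw [hval, hxF, map_zero, mul_zero]
  · intro x _ x' _ hxx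
    funext j
    exact (algebraMap K K').injective (congrFun hxx j)

end Pool.Agent.KS6_26.D
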