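import Pool.Agent.KS6_26.D.Gform
import Pool.Agent.KS6_26.D.Scale

/-!
Subvarieties are of general type.
-/

set_option autoImplicit false

open MvPolynomial FF Pool.Agent.W603.LV Pool.Agent.W603.PV Pool.Agent.TH145.GH
open Pool.Agent.W602.GT
open Pool.Agent.TH145.GF (exists_dualsG)

namespace Pool.Agent.KS6_26.D

variable {k0 K L : Type} [Field k0] [Field K] [Field L] [Algebra k0 K] [Algebra K L]
  [Algebra k0 L] [IsScalarTower k0 K L] [IsAlgClosed K] [CharZero K] {ι S A : Type}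
  [DecidableEq S] {β : ι → S} {d : A → S → ℕ} {n : S → ℕ} {en : ∀ s, Fin (n s + 1) → ι}
  [Fintype S] [Fintype A] [Fintype ι] {w : ℕ}

/-- Independent coefficients. -/
theorem general_free {Δ : Type} [Fintype Δ] {q : Δ → A × (ι →₀ ℕ)}
    (hB : Blk β n en) {Mn : A → Finset (ι →₀ ℕ)} (hMn : ∀ a I, I ∈ Mn a ↔ mdeg β I = d a)
    (hq : ∀ δ, mdeg β (q δ).2 = d (q δ).1) {t : A → (ι →₀ ℕ) → K}
    (hind : AlgebraicIndependent k0 fun p : Fr β d q => t p.1.1 p.1.2)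
    {R : Set (MvPolynomial (ι ⊕ A) k0)} {g : MvPolynomial (ι ⊕ A) k0} {l0 : S → ι}
    (hl0 : ∀ s, β (l0 s) = s) (hyp : HypL k0 β d (Fintype.card Δ) w l0 R g) (hw : 0 < w) (htr : Algebra.trdeg K L = w)
    {x : ι → L} (hx0 : ∀ s, x (l0 s) = 1)
    (hgen : Algebra.IsAlgebraic (IntermediateField.adjoin K (Set.range x)) L)
    (hR : ∀ f ∈ R, aeval (Sum.elim x fun a =>
      ∑ J ∈ Mn a, algebraMap K L (t a J) * mn x J) f = 0)
    (hg : aeval (Sum.elim x fun a =>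
      ∑ J ∈ Mn a, algebraMap K L (t a J) * mn x J) g ≠ 0) : GeneralType K L w := by
  classical
  obtain ⟨ι', u, hu⟩ := exists_isTranscendenceBasis' K L
  obtain ⟨D0, hD0S, hD0⟩ := exists_dualsG (k0 := k0) hu _ hind
  obtain ⟨D, hD⟩ : ∃ D : A → (ι →₀ ℕ) → Derivation ℤ L L, ∀ a I, D a I =
      if h : mdeg β I = d a ∧ ∀ δ, q δ ≠ (a, I) then (D0 ⟨(a, I), h⟩).restrictScalars ℤ else 0 :=
    ⟨_, fun _ _ => rfl⟩
  have hDS : ∀ a I, Sem K (D a I) := by
    intro a I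
    rw [hD]
    split_ifs
    · exact hD0S _
    · exact fun r => ⟨0, by rw [map_zero]; rfl⟩
  have hDk : ∀ a I (r : k0), D a I (algebraMap k0 L r) = 0 := by
    intro a I r
    rw [hD]
    split_ifs
    · exact (D0 _).map_algebraMap r
    · rfl
  obtain ⟨T, hT⟩ : ∃ T : A → (ι →₀ ℕ) → L, ∀ a I, T a I = algebraMap K L (t a I) :=
    ⟨_, fun _ _ => rfl⟩
  obtain ⟨c, hc⟩ : ∃ c : A → (ι →₀ ℕ) → Δ → L, ∀ a I δ, c a I δ =
    kr T 0 a I (q δ).1 (q δ).2 - D a I (T (q δ).1 (q δ).2) := ⟨_, fun _ _ _ => rfl⟩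
  have hrel : Rel k0 β d D c (fun ξ : Empty => (ξ.elim : Derivation ℤ L L))
      (fun a I => algebraMap K L (t a I)) 0 q := by
    have hT' : T = fun a I => algebraMap K L (t a I) := by
      funext a I
      exact hT a I
    rw [← hT']
    refine ⟨hDk, fun ξ => ξ.elim, fun ξ => ξ.elim, hq, fun a I δ _ => hc a I δ,
      fun a I b J hI hJ hqJ => ?_⟩
    unfold kr
    rw [Pi.zero_apply, Pi.zero_apply, zero_mul, ite_self, add_zero, hT, hD]
    split_ifs with h1 h2 h2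
    · have h3 := hD0 ⟨(a, I), h1⟩ ⟨(b, J), hJ, hqJ⟩
      rw [if_pos (Subtype.ext h2)] at h3
      exact h3
    · have h3 := hD0 ⟨(a, I), h1⟩ ⟨(b, J), hJ, hqJ⟩
      rw [if_neg (fun h => h2 (congrArg Subtype.val h))] at h3
      exact h3
    · exact absurd ⟨hI, by rw [h2]; exact hqJ⟩ h1
    · rfl
  refine general_core hB hMn hrel hw htr hDS (fun a I δ => ?_) hl0 hx0 hgen (fun a I => by
    rw [Pi.zero_apply, Pi.zero_apply, zero_mul]) (hyp L x _ hx0 hR hg)
  rw [hc]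
  obtain ⟨r, hr⟩ := hDS a I (t (q δ).1 (q δ).2)
  unfold kr
  rw [hT, hr, Pi.zero_apply, Pi.zero_apply, zero_mul, ite_self, add_zero]
  split_ifs
  · exact ⟨1 - r, by rw [map_sub, map_one]⟩
  · exact ⟨0 - r, by rw [map_sub, map_zero]⟩

/-- Ratios of the coefficients. -/
theorem general_ratio (hB : Blk β n en) {Mn : A → Finset (ι →₀ ℕ)}
    (hMn : ∀ a I, I ∈ Mn a ↔ mdeg β I = d a) {t : A → (ι →₀ ℕ) → K} {I0 : A → ι →₀ ℕ}
    (h0 : ∀ a, t a (I0 a) ≠ 0) {V : Set (MvPolynomial ι k0)}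
    {δ : ℕ} {B : Finset (Rt β d I0)} (hBi : AlgebraicIndependent k0 fun b : B =>
      t b.1.1.1 b.1.1.2 / t b.1.1.1 (I0 b.1.1.1)) (hBc : Nat.card (Rt β d I0) ≤ B.card + δ)
    {l0 : S → ι} (hl0 : ∀ s, β (l0 s) = s) (hyp : HypL k0 β d δ w l0 (RV ι A V) 1)
    (hw : 0 < w) (htr : Algebra.trdeg K L = w) {x : ι → L} (hx0 : ∀ s, x (l0 s) = 1)
    (hgen : Algebra.IsAlgebraic (IntermediateField.adjoin K (Set.range x)) L)
    (hV : ∀ f ∈ V, aeval x f = 0)
    (hF : ∀ a, ∑ J ∈ Mn a, algebraMap K L (t a J) * mn x J = 0) : GeneralType K L w := by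
  classical
  have := finite_Rt hMn I0
  have : Fintype (Rt β d I0) := Fintype.ofFinite _
  obtain ⟨ι', u, hu⟩ := exists_isTranscendenceBasis' K L
  obtain ⟨D0, hD0S, hD0⟩ := exists_dualsG (k0 := k0) hu _ hBi
  obtain ⟨Δ, hΔ⟩ : ∃ Δ, Δ = {p : Rt β d I0 // p ∉ B} := ⟨_, rfl⟩
  subst hΔ
  obtain ⟨q, hq⟩ : ∃ q : {p : Rt β d I0 // p ∉ B} → A × (ι →₀ ℕ), ∀ p, q p = p.1.1 :=
    ⟨_, fun _ => rfl⟩
  have hΔc : Fintype.card {p : Rt β d I0 // p ∉ B} ≤ δ := by
    have h1 := Fintype.card_subtype_compl fun p => p ∈ B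
    have h2 : Fintype.card {p : Rt β d I0 // p ∈ B} = B.card := Fintype.card_coe B
    rw [Nat.card_eq_fintype_card] at hBc
    rw [h2] at h1
    omega
  -- the scaled coefficients
  obtain ⟨ρ, hρ⟩ : ∃ ρ : A → (ι →₀ ℕ) → K, ∀ a I, ρ a I = t a I / t a (I0 a) :=
    ⟨_, fun _ _ => rfl⟩
  have hρ0 : ∀ a, ρ a (I0 a) = 1 := fun a => by rw [hρ, div_self (h0 a)]
  obtain ⟨T, hT⟩ : ∃ T : A → (ι →₀ ℕ) → L, ∀ a I, T a I = algebraMap K L (ρ a I) :=
    ⟨_, fun _ _ => rfl⟩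
  have hT0 : ∀ a, T a (I0 a) = 1 := fun a => by rw [hT, hρ0, map_one]
  have hD0' : ∀ b b' : B, D0 b (T b'.1.1.1 b'.1.1.2) = if b = b' then 1 else 0 := by
    intro b b'
    rw [hT, hρ]
    exact (hD0 b b').trans (by congr)
  -- the derivations
  obtain ⟨D, hD1, hD2, hD3⟩ : ∃ D : A → (ι →₀ ℕ) → Derivation ℤ L L,
      (∀ a f, D a (I0 a) f = -∑ b : B, (if b.1.1.1 = a then T b.1.1.1 b.1.1.2 * D0 b f else 0)) ∧
      (∀ b : B, ∀ f, D b.1.1.1 b.1.1.2 f = D0 b f) ∧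
      ∀ a I, I ≠ I0 a → (∀ b : B, b.1.1 ≠ (a, I)) → D a I = 0 := by
    refine ⟨fun a I => if I = I0 a then
      -∑ b : B, (if b.1.1.1 = a then T b.1.1.1 b.1.1.2 • (D0 b).restrictScalars ℤ else 0) else
      if h : ∃ b : B, b.1.1 = (a, I) then (D0 h.choose).restrictScalars ℤ else 0,
      fun a f => ?_, fun b f => ?_, fun a I hI hb => ?_⟩
    · simp only [if_true]
      rw [Derivation.neg_apply]
      congr 1
      rw [← Derivation.coeFnAddMonoidHom_apply, map_sum, Finset.sum_apply]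
      refine Finset.sum_congr rfl fun b _ => ?_
      split_ifs
      · rfl
      · rfl
    · have h1 : ∃ b' : B, b'.1.1 = (b.1.1.1, b.1.1.2) := ⟨b, rfl⟩
      simp only [if_neg b.1.2.2, dif_pos h1]
      have h2 : h1.choose = b := Subtype.ext (Subtype.ext h1.choose_spec)
      rw [h2]
      rfl
    · have h1 : ¬ ∃ b : B, b.1.1 = (a, I) := fun ⟨b, h⟩ => hb b h
      simp only [if_neg hI, dif_neg h1]
  have hD0S' : ∀ (b : B) (r : K), ∃ r' : K, D0 b (algebraMap K L r) = algebraMap K L r' :=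
    fun b r => hD0S b r
  have hcases : ∀ a I, I = I0 a ∨ (∃ b : B, b.1.1 = (a, I)) ∨
      (I ≠ I0 a ∧ ∀ b : B, b.1.1 ≠ (a, I)) := by
    intro a I
    by_cases h1 : I = I0 a
    · exact Or.inl h1
    · by_cases h2 : ∃ b : B, b.1.1 = (a, I)
      · exact Or.inr (Or.inl h2)
      · push Not at h2
        exact Or.inr (Or.inr ⟨h1, h2⟩)
  have hDS : ∀ a I, Sem K (D a I) := by
    intro a I r
    rcases hcases a I with rfl | ⟨b, hb⟩ | ⟨h1, h2⟩
    · rw [hD1]
      choose r' hr' using fun b => hD0S' b r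
      refine ⟨-∑ b : B, (if b.1.1.1 = a then ρ b.1.1.1 b.1.1.2 * r' b else 0), ?_⟩
      rw [map_neg, map_sum]
      congr 1
      refine Finset.sum_congr rfl fun b _ => ?_
      split_ifs
      · rw [hr', hT, map_mul]
      · rw [map_zero]
    · have h1 : D a I = D b.1.1.1 b.1.1.2 := by rw [hb]
      rw [h1, hD2]
      exact hD0S' b r
    · rw [hD3 a I h1 h2]
      exact ⟨0, by rw [map_zero]; rfl⟩
  have hDk : ∀ a I (r : k0), D a I (algebraMap k0 L r) = 0 := by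
    intro a I r
    rcases hcases a I with rfl | ⟨b, hb⟩ | ⟨h1, h2⟩
    · rw [hD1, neg_eq_zero]
      refine Finset.sum_eq_zero fun b _ => ?_
      rw [(D0 b).map_algebraMap, mul_zero, ite_self]
    · have h1 : D a I = D b.1.1.1 b.1.1.2 := by rw [hb]
      rw [h1, hD2]
      exact (D0 b).map_algebraMap r
    · rw [hD3 a I h1 h2]
      rfl
  obtain ⟨ε, hε⟩ : ∃ ε : A → (ι →₀ ℕ) → L, ∀ a I, ε a I = if I = I0 a then -1 else 0 :=
    ⟨_, fun _ _ => rfl⟩
  obtain ⟨c, hc⟩ : ∃ c : A → (ι →₀ ℕ) → {p : Rt β d I0 // p ∉ B} → L, ∀ a I δ, c a I δ =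
    kr T ε a I (q δ).1 (q δ).2 - D a I (T (q δ).1 (q δ).2) := ⟨_, fun _ _ _ => rfl⟩
  have hfree : ∀ b J, mdeg β J = d b → (∀ δ, q δ ≠ (b, J)) →
      J = I0 b ∨ ∃ b' : B, b'.1.1 = (b, J) := by
    intro b J hJ hqJ
    rcases hcases b J with h1 | h1 | ⟨h1, h2⟩
    · exact Or.inl h1
    · exact Or.inr h1
    · exfalso
      have h3 : (⟨(b, J), hJ, h1⟩ : Rt β d I0) ∉ B := fun h => h2 ⟨_, h⟩ rfl
      exact hqJ ⟨_, h3⟩ (hq _)
  have hrel : Rel k0 β d D c (fun ξ : Empty => (ξ.elim : Derivation ℤ L L))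
      (fun a I => algebraMap K L (ρ a I)) ε q := by
    have hT' : T = fun a I => algebraMap K L (ρ a I) := by
      funext a I
      exact hT a I
    rw [← hT']
    refine ⟨hDk, fun ξ => ξ.elim, fun ξ => ξ.elim, fun δ => by rw [hq]; exact δ.1.2.1,
      fun a I δ _ => hc a I δ, fun a I b J hI hJ hqJ => ?_⟩
    unfold kr
    rw [hε]
    rcases hfree b J hJ hqJ with rfl | ⟨b', hb'⟩
    · rw [hT0, (D a I).map_one_eq_zero, mul_one]
      by_cases hab : a = b
      · subst hab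
        by_cases hIa : I = I0 a
        · rw [if_pos (by rw [hIa]), if_pos rfl, if_pos hIa, add_neg_cancel]
        · rw [if_neg (fun h => hIa (Prod.mk_inj.1 h).2), if_pos rfl, if_neg hIa, add_zero]
      · rw [if_neg (fun h => hab (Prod.mk_inj.1 h).1), if_neg hab, add_zero]
    · have hbb : b = b'.1.1.1 := by rw [hb']
      have hJJ : J = b'.1.1.2 := by rw [hb']
      subst hbb
      subst hJJ
      have hJ0 : b'.1.1.2 ≠ I0 b'.1.1.1 := b'.1.2.2
      rcases hcases a I with rfl | ⟨b, hb⟩ | ⟨h1, h2⟩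
      · rw [hD1, if_neg (fun h => hJ0 (by rw [← (Prod.mk_inj.1 h).2, (Prod.mk_inj.1 h).1])),
          if_pos rfl, zero_add, Finset.sum_eq_single b']
        · rw [hD0', if_pos rfl, mul_one]
          by_cases hab : b'.1.1.1 = a
          · rw [if_pos hab, if_pos hab.symm, neg_one_mul]
          · rw [if_neg hab, if_neg (Ne.symm hab), neg_zero]
        · intro b _ hb
          rw [hD0', if_neg hb, mul_zero, ite_self]
        · intro h; exact absurd (Finset.mem_univ _) h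
      · have h1 : a = b.1.1.1 := by rw [hb]
        have h2 : I = b.1.1.2 := by rw [hb]
        subst h1
        subst h2
        rw [hD2, hD0', if_neg b.1.2.2, zero_mul, ite_self, add_zero]
        by_cases hbb : b = b'
        · rw [if_pos hbb, if_pos (by rw [hbb])]
        · rw [if_neg hbb, if_neg fun h => hbb (Subtype.ext (Subtype.ext (by
            rw [← Prod.mk.eta (p := b.1.1), ← Prod.mk.eta (p := b'.1.1)]; exact h)))]
      · rw [hD3 a I h1 h2, if_neg h1, zero_mul, ite_self, add_zero, if_neg]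
        · rfl
        · intro h
          exact h2 b' h.symm
  have hsum : ∀ a, ∑ J ∈ Mn a, algebraMap K L (ρ a J) * mn x J = 0 := by
    intro a
    have h1 : ∑ J ∈ Mn a, algebraMap K L (ρ a J) * mn x J =
        algebraMap K L (t a (I0 a))⁻¹ * ∑ J ∈ Mn a, algebraMap K L (t a J) * mn x J := by
      rw [Finset.mul_sum]
      refine Finset.sum_congr rfl fun J _ => ?_
      rw [hρ, div_eq_mul_inv, map_mul]
      ring
    rw [h1, hF, mul_zero]
  refine general_core hB hMn hrel hw htr hDS (fun a I δ => ?_) hl0 hx0 hgen (fun a I => by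
    rw [hsum, mul_zero]) (hyp.mono hΔc L x _ hx0 (RV_zero.2 ⟨hV, hsum⟩) (by
      rw [map_one]; exact one_ne_zero))
  rw [hc]
  obtain ⟨r, hr⟩ := hDS a I (ρ (q δ).1 (q δ).2)
  unfold kr
  rw [hT, hr, hε]
  refine ⟨(if (a, I) = ((q δ).1, (q δ).2) then 1 else 0) + (if a = (q δ).1 then
    (if I = I0 a then -1 else 0) * ρ (q δ).1 (q δ).2 else 0) - r, ?_⟩
  rw [map_sub, map_add]
  congr 2
  · split_ifs
    · rw [map_one]
    · rw [map_zero]
  · split_ifs
    · rw [map_mul, map_neg, map_one]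
    · rw [zero_mul, zero_mul, map_zero]
    · rw [map_zero]

end Pool.Agent.KS6_26.D
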