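import Pool.Agent.KS6_26.D.Num
import Pool.Graph.R_seed8.TH145.GC.Limit
import Pool.Graph.R_seed8.TH145.GH.FinB2

/-!
Limit points are constant.
-/

set_option autoImplicit false

open MvPolynomial FF Pool.Agent.W603.LV Pool.Agent.W603.PV Pool.Agent.W602.RG
open Pool.Agent.TH145.GH

namespace Pool.Agent.KS6_26.D

/-- The relation between the derivations and the coefficients `t`. -/
structure RelD (k0 : Type) {K : Type} [Field k0] [Field K] [Algebra k0 K] {ι S A Δ : Type}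
    [DecidableEq S] (β : ι → S) (d : A → S → ℕ) (D : A → (ι →₀ ℕ) → Derivation ℤ K K)
    (t : A → (ι →₀ ℕ) → K) (q : Δ → A × (ι →₀ ℕ)) : Prop where
  Dk : ∀ a I (r : k0), D a I (algebraMap k0 K r) = 0
  irr : ∀ a I, mdeg β I ≠ d a → ∀ f, D a I f = 0
  qd : ∀ δ, mdeg β (q δ).2 = d (q δ).1
  Dt1 : ∀ a I, mdeg β I = d a → (∀ δ, q δ ≠ (a, I)) → D a I (t a I) = 1
  Dt0 : ∀ a I b J, mdeg β I = d a → mdeg β J = d b → (∀ δ, q δ ≠ (b, J)) → (a, I) ≠ (b, J) →
    D a I (t b J) = 0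

open scoped Classical in
/-- The defects. -/
noncomputable def cdef {K ι S A Δ : Type} [Field K] [DecidableEq S] (β : ι → S) (d : A → S → ℕ)
    (D : A → (ι →₀ ℕ) → Derivation ℤ K K) (t : A → (ι →₀ ℕ) → K) (q : Δ → A × (ι →₀ ℕ)) :
    A → (ι →₀ ℕ) → Δ → K := fun a I δ =>
  if mdeg β I = d a then (if (a, I) = q δ then 1 else 0) - D a I (t (q δ).1 (q δ).2) else 0

theorem RelD.rel {k0 K : Type} [Field k0] [Field K] [Algebra k0 K] {ι S A X Δ : Type}
    [DecidableEq S] {β : ι → S} {d : A → S → ℕ} {D : A → (ι →₀ ℕ) → Derivation ℤ K K}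
    {t : A → (ι →₀ ℕ) → K} {q : Δ → A × (ι →₀ ℕ)} (h : RelD k0 β d D t q)
    {E : X → Derivation ℤ K K} (Ek : ∀ ξ (r : k0), E ξ (algebraMap k0 K r) = 0)
    (Et : ∀ ξ b J, mdeg β J = d b → E ξ (t b J) = 0) :
    Rel k0 β d D (cdef β d D t q) E t 0 q where
  Dk := h.Dk
  Ek := Ek
  Et := Et
  qd := h.qd
  cq a I δ hI := by
    unfold cdef kr
    rw [if_pos hI, Pi.zero_apply, Pi.zero_apply, zero_mul, ite_self, add_zero]
  Dt a I b J hI hJ hq := by
    unfold kr
    rw [Pi.zero_apply, Pi.zero_apply, zero_mul, ite_self, add_zero]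
    split_ifs with hab
    · obtain ⟨rfl, rfl⟩ := Prod.mk_inj.1 hab
      exact h.Dt1 a I hI hq
    · exact h.Dt0 a I b J hI hJ hq hab

/-- The numerical condition for all points. -/
def HypL (k0 : Type) [Field k0] {ι S A : Type} [Fintype A] (β : ι → S) (d : A → S → ℕ)
    (δ w : ℕ) (l0 : S → ι) (R : Set (MvPolynomial (ι ⊕ A) k0)) (g : MvPolynomial (ι ⊕ A) k0) :
    Prop :=
  ∀ (L : Type) [Field L] [Algebra k0 L] (x : ι → L) (u : A → L), (∀ s, x (l0 s) = 1) →
    (∀ f ∈ R, aeval (Sum.elim x u) f = 0) → aeval (Sum.elim x u) g ≠ 0 → NumC k0 β d δ w x u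

theorem mn_hom {K L ι : Type} [Field K] [Field L] (φ : K →+* L) (x : ι → K) (J : ι →₀ ℕ) :
    φ (mn x J) = mn (fun l => φ (x l)) J := by
  unfold mn
  rw [map_finsuppProd]
  simp only [map_pow]

variable {k0 K : Type} [Field k0] [Field K] [Algebra k0 K] [IsAlgClosed k0] [IsAlgClosed K]
  [CharZero K] {ι S A Δ : Type} [DecidableEq S] [Fintype S] [Fintype A] [Fintype Δ] [Fintype ι]
  {β : ι → S} {d : A → S → ℕ} {q : Δ → A × (ι →₀ ℕ)} {n : S → ℕ} {en : ∀ s, Fin (n s + 1) → ι}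

/-- Limit points are constant. -/
theorem limit (E : Subfield K) (hE : ∀ r : k0, algebraMap k0 K r ∈ E)
    {tE : A → (ι →₀ ℕ) → E} (D : A → (ι →₀ ℕ) → Derivation ℤ K K)
    (hDE : ∀ a I, ∀ x ∈ E, D a I x ∈ E) (h : RelD k0 β d D (fun a I => (tE a I : K)) q)
    {Mn : A → Finset (ι →₀ ℕ)} (hMn : ∀ a I, I ∈ Mn a ↔ mdeg β I = d a) (hB : Blk β n en)
    {l0 : S → ι} (hl0 : ∀ s, β (l0 s) = s) {R : Set (MvPolynomial (ι ⊕ A) k0)}
    {g : MvPolynomial (ι ⊕ A) k0} (hyp : HypL k0 β d (Fintype.card Δ) 0 l0 R g)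
    (z : ι → Om K) (hz : ∀ l, z l ∈ OE k0 (E : Set K)) (hz0 : ∀ s, z (l0 s) = 1)
    (hzR : ∀ f ∈ R, eval₂ ((cst K).comp (algebraMap k0 K))
      (Sum.elim z fun a => ∑ J ∈ Mn a, cst K (tE a J) * mn z J) f = 0)
    (hzg : eval₂ ((cst K).comp (algebraMap k0 K))
      (Sum.elim z fun a => ∑ J ∈ Mn a, cst K (tE a J) * mn z J) g ≠ 0) (l : ι) :
    z l ∈ acl (cst K '' (E : Set K)) := by
  classical
  by_contra hl
  obtain ⟨κ, Λ, M, hac, hFF, hEκ, hzΛ, hzκ, -, hMC, hder, hplace⟩ :=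
    exists_rig E hE z hz (∅ : Finset (Om K)) (by simp) l hl
  have hczOm : CharZero (Om K) :=
    charZero_of_injective_algebraMap (algebraMap K (Om K)).injective
  have hcz : CharZero κ := charZero_of_injective_algebraMap (algebraMap ℚ κ).injective
  have hczΛ : CharZero Λ := charZero_of_injective_algebraMap (algebraMap κ Λ).injective
  let φ : E →+* Λ :=
    { toFun := fun x => ⟨cst K x, Λ.algebraMap_mem ⟨cst K x, hEκ x x.2⟩⟩
      map_one' := Subtype.ext (map_one (cst K))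
      map_mul' := fun a b => Subtype.ext (map_mul (cst K) (a : K) b)
      map_zero' := Subtype.ext (map_zero (cst K))
      map_add' := fun a b => Subtype.ext (map_add (cst K) (a : K) b) }
  have hd := fun a I => hder (hat (D a I)) (fun w hw => hat_CC (D a I) (h.Dk a I) hw)
    (fun x hx => ⟨D a I x, hDE a I x hx, by rw [hat_cst]⟩)
  let D' : A → (ι →₀ ℕ) → Derivation ℤ Λ Λ := fun a I =>
    resDer Λ (hat (D a I)) (hd a I).2
  have hD' : ∀ a I (x : Λ), ((D' a I x : Λ) : Om K) = hat (D a I) x := fun a I x => rfl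
  have hS : ∀ a I, Sem κ (D' a I) := fun a I c => ⟨⟨hat (D a I) c, (hd a I).1 c c.2⟩, rfl⟩
  have hM0 : ∀ a I, ∀ m ∈ M, D' a I m = 0 := by
    intro a I m hm
    apply Subtype.ext
    rw [hD']
    exact hat_CC (D a I) (h.Dk a I) (hMC m hm)
  let ψ : k0 →+* E := (algebraMap k0 K).codRestrict E hE
  let _ : Algebra k0 Λ := (φ.comp ψ).toAlgebra
  have hDφ : ∀ a I (x : E), ((D' a I (φ x) : Λ) : Om K) = cst K (D a I x) := fun a I x => rfl
  obtain ⟨t', ht'⟩ : ∃ t' : A → (ι →₀ ℕ) → Λ, t' = fun a I => φ (tE a I) := ⟨_, rfl⟩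
  have hrel : RelD k0 β d D' t' q := by
    refine ⟨fun a I r => ?_, fun a I hI f => ?_, h.qd, fun a I hI hq => ?_,
      fun a I b J hI hJ hq hab => ?_⟩
    · apply Subtype.ext
      refine (hDφ a I (ψ r)).trans ?_
      have h1 : D a I (ψ r : K) = 0 := h.Dk a I r
      rw [h1, map_zero]
      rfl
    · apply Subtype.ext
      rw [hD']
      obtain ⟨u, hu⟩ := Om.mk_surj (f : Om K)
      rw [← hu, hat_mk]
      simp only [h.irr a I hI]
      rfl
    · apply Subtype.ext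
      rw [ht', hDφ]
      have h1 : D a I (tE a I : K) = 1 := h.Dt1 a I hI hq
      rw [h1, map_one]
      rfl
    · apply Subtype.ext
      rw [ht', hDφ]
      have h1 : D a I (tE b J : K) = 0 := h.Dt0 a I b J hI hJ hq hab
      rw [h1, map_zero]
      rfl
  obtain ⟨x, hx⟩ : ∃ x : ι → Λ, ∀ j, x j = ⟨z j, hzΛ j⟩ := ⟨_, fun _ => rfl⟩
  have hxz : ∀ j, algebraMap Λ (Om K) (x j) = z j := fun j => by
    rw [hx]
    rfl
  have hx0 : ∀ s, x (l0 s) = 1 := fun s => by
    rw [hx]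
    exact Subtype.ext (hz0 s)
  have hloc : ∀ P : Place κ Λ, Loc P D' (cdef β d D' t' q)
      (fun ξ : Empty => (ξ.elim : Derivation ℤ Λ Λ)) 0 := by
    intro P
    refine ⟨le_rfl, fun f hf a I => ?_, fun a I δ => ?_, fun f _ ξ => ξ.elim⟩
    · rw [neg_zero]
      rcases hplace P with ⟨-, θ, hθM, c, hu⟩ | ⟨π, hπM, hπ⟩
      · refine reg_of_unif P hu (hS a I) le_rfl ?_ hf
        obtain ⟨c', hc'⟩ := hS a I c
        rw [map_sub, hM0 a I θ hθM, hc', zero_sub]
        exact (Ge.const c').neg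
      · refine reg_of_unif P hπ (hS a I) le_rfl ?_ hf
        rw [hM0 a I π hπM]
        exact Ge.zero
    · rw [neg_zero]
      unfold cdef
      have h1 : ∀ y : E, Ge P 0 (D' a I (φ y)) := fun y => by
        have h2 : D' a I (φ y) = algebraMap κ Λ ⟨cst K (D a I y), hEκ _ (hDE a I y y.2)⟩ :=
          Subtype.ext (hDφ a I y)
        rw [h2]
        exact Ge.const _
      split_ifs
      · rw [ht']
        exact Ge.one.sub (h1 _)
      · rw [ht', zero_sub]
        exact (h1 _).neg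
      · exact Ge.zero
  have hval : ∀ f : MvPolynomial (ι ⊕ A) k0, algebraMap Λ (Om K)
      (aeval (Sum.elim x fun a => ∑ J ∈ Mn a, t' a J * mn x J) f) =
      eval₂ ((cst K).comp (algebraMap k0 K))
        (Sum.elim z fun a => ∑ J ∈ Mn a, cst K (tE a J) * mn z J) f := by
    intro f
    have h1 := hom_eval₂ f (φ.comp ψ) (algebraMap Λ (Om K))
      (Sum.elim x fun a => ∑ J ∈ Mn a, t' a J * mn x J)
    refine h1.trans ?_
    have h2 : (algebraMap Λ (Om K)).comp (φ.comp ψ) = (cst K).comp (algebraMap k0 K) := by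
      ext r
      rfl
    rw [h2]
    congr 1
    funext i
    rcases i with j | a
    · exact hxz j
    · simp only [Sum.elim_inr]
      rw [map_sum]
      refine Finset.sum_congr rfl fun J _ => ?_
      rw [map_mul, mn_hom, ht']
      simp only [hxz]
      rfl
  have hnum : NumC k0 β d (Fintype.card Δ) 0 x fun a => ∑ J ∈ Mn a, t' a J * mn x J := by
    refine hyp Λ x _ hx0 (fun f hf => ?_) fun h0 => ?_
    · apply (algebraMap Λ (Om K)).injective
      rw [map_zero, hval, hzR f hf]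
    · apply hzg
      rw [← hval, h0, map_zero]
  have h1 := (hrel.rel (E := fun ξ : Empty => (ξ.elim : Derivation ℤ Λ Λ)) (fun ξ => ξ.elim)
    (fun ξ => ξ.elim)).height hMn hB hloc (by simp) hl0 hx0 hnum (β l)
  simp only [mul_zero, finsum_zero] at h1
  obtain ⟨j0, hj0⟩ := hB.surj (β l) (l0 (β l)) (hl0 _)
  obtain ⟨j, hj⟩ := hB.surj (β l) l rfl
  obtain ⟨c, hc⟩ := const_of_pht h1 (l0 := j0) (by rw [hj0]; exact hx0 _) j
  apply hzκ
  have h2 := congrArg (fun w : Λ => (w : Om K)) hc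
  rw [hj, hx] at h2
  change z l = (c : Om K) at h2
  rw [h2]
  exact c.2

end Pool.Agent.KS6_26.D
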