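import Pool.Graph.R_seed8.TH145.GC.Local

/-!
Linear algebra: determinants with changed rows, and the exchange of variables.
-/

set_option autoImplicit false

open Pool.Agent.TH145.GC (det_row_zero)

namespace Pool.Agent.KS6_26.D

section det

variable {K : Type} [Field K] {R : Type} [Fintype R] [DecidableEq R]

open scoped Classical in
theorem det_span_aux (N : Set R) (r r' : R → R → K) (c : R → K) (h1 : ∀ i ∈ N, r i = r' i)
    (h2 : ∀ i, i ∉ N → r i - c i • r' i ∈ Submodule.span K (r' '' N)) (T : Finset R) :
    (Matrix.of fun i => if i ∈ T then r i else r' i).det =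
      (∏ i ∈ T, if i ∈ N then 1 else c i) * (Matrix.of r').det := by
  induction T using Finset.induction_on with
  | empty => simp
  | insert a T ha ih =>
    rw [Finset.prod_insert ha, mul_assoc, ← ih]
    obtain ⟨ρ, hρ⟩ : ∃ ρ : R → R → K, ρ = fun i => if i ∈ T then r i else r' i := ⟨_, rfl⟩
    obtain ⟨ρ', hρ'⟩ : ∃ ρ' : R → R → K, ρ' = fun i => if i ∈ insert a T then r i else r' i :=
      ⟨_, rfl⟩
    rw [← hρ, ← hρ']
    have h3 : ∀ i, i ≠ a → ρ' i = ρ i := by
      intro i hi
      rw [hρ, hρ']
      simp only [Finset.mem_insert, hi, false_or]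
    have hρa : ρ a = r' a := by
      rw [hρ]
      simp only [if_neg ha]
    have hρ'a : ρ' a = r a := by
      rw [hρ']
      simp only [Finset.mem_insert_self, if_true]
    by_cases haN : a ∈ N
    · rw [if_pos haN, one_mul]
      congr 2
      funext i
      by_cases hi : i = a
      · rw [hi, hρa, hρ'a, h1 a haN]
      · exact h3 i hi
    · rw [if_neg haN]
      obtain ⟨w, hw⟩ : ∃ w, w = r a - c a • r' a := ⟨_, rfl⟩
      have hwN : w ∈ Submodule.span K (r' '' N) := hw ▸ h2 a haN
      have h4 : Matrix.of ρ' = (Matrix.of ρ).updateRow a (c a • ρ a + w) := by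
        ext i j
        rw [Matrix.updateRow_apply]
        split_ifs with hi
        · rw [hi, Matrix.of_apply, hρ'a, hρa, hw, add_sub_cancel]
        · rw [Matrix.of_apply, Matrix.of_apply, h3 i hi]
      rw [h4, Matrix.det_updateRow_add, Matrix.det_updateRow_smul]
      have h5 : (Matrix.of ρ).updateRow a (ρ a) = Matrix.of ρ := Matrix.updateRow_eq_self _ _
      have h6 : ((Matrix.of ρ).updateRow a w).det = 0 := by
        obtain ⟨r1, hr1⟩ : ∃ r1 : R → R → K, r1 = ((Matrix.of ρ).updateRow a w) := ⟨_, rfl⟩
        have h7 : r1 a = w := by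
          rw [hr1]
          exact Matrix.updateRow_self
        rw [← hr1]
        refine det_row_zero r1 a ?_
        rw [h7]
        refine Submodule.span_mono ?_ hwN
        rintro _ ⟨i, hi, rfl⟩
        have hia : i ≠ a := fun h => haN (h ▸ hi)
        refine ⟨i, hia, ?_⟩
        have h8 : r1 i = ρ i := by
          rw [hr1]
          exact Matrix.updateRow_ne hia
        rw [h8, hρ]
        by_cases hiT : i ∈ T
        · simp only [if_pos hiT]
          exact h1 i hi
        · simp only [if_neg hiT]
      rw [h5, h6, add_zero]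

open scoped Classical in
/-- The determinant, if the rows in `N` are not changed, and the other rows are multiplied by
factors and changed by combinations of the rows in `N`. -/
theorem det_span (N : Set R) (r r' : R → R → K) (c : R → K) (h1 : ∀ i ∈ N, r i = r' i)
    (h2 : ∀ i, i ∉ N → r i - c i • r' i ∈ Submodule.span K (r' '' N)) :
    (Matrix.of r).det = (∏ i, if i ∈ N then 1 else c i) * (Matrix.of r').det := by
  have h3 := det_span_aux N r r' c h1 h2 Finset.univ
  simpa using h3

end det

section grade

variable {ι S : Type} [DecidableEq S]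

/-- The multidegree of an exponent. -/
noncomputable def mdeg (β : ι → S) : (ι →₀ ℕ) →+ (S → ℕ) :=
  Finsupp.weight (fun l => Pi.single (β l) 1)

theorem mdeg_single (β : ι → S) (l : ι) (k : ℕ) :
    mdeg β (Finsupp.single l k) = Pi.single (β l) k := by
  unfold mdeg
  rw [Finsupp.weight_single]
  funext s
  rw [Pi.smul_apply]
  by_cases h : s = β l
  · subst h
    rw [Pi.single_eq_same, Pi.single_eq_same, smul_eq_mul, mul_one]
  · rw [Pi.single_eq_of_ne h, Pi.single_eq_of_ne h, smul_zero]

/-- The monomials. -/
noncomputable def mn {K : Type} [Field K] (x : ι → K) (I : ι →₀ ℕ) : K :=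
  I.prod fun l e => x l ^ e

section mn

variable {K : Type} [Field K]

theorem mn_zero (x : ι → K) : mn x 0 = 1 := Finsupp.prod_zero_index

theorem mn_add (x : ι → K) (I J : ι →₀ ℕ) : mn x (I + J) = mn x I * mn x J :=
  Finsupp.prod_add_index' (fun _ => pow_zero _) fun _ _ _ => pow_add _ _ _

theorem mn_single (x : ι → K) (l : ι) (k : ℕ) : mn x (Finsupp.single l k) = x l ^ k :=
  Finsupp.prod_single_index (pow_zero _)

theorem mn_sum {α : Type} (x : ι → K) (s : Finset α) (f : α → ι →₀ ℕ) :
    mn x (∑ i ∈ s, f i) = ∏ i ∈ s, mn x (f i) := by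
  classical
  induction s using Finset.induction_on with
  | empty => rw [Finset.sum_empty, Finset.prod_empty, mn_zero]
  | insert a s ha ih => rw [Finset.sum_insert ha, Finset.prod_insert ha, mn_add, ih]

end mn

variable [Fintype S]

/-- The exponent of the monomial of multidegree `d` in the variables `e s`. -/
noncomputable def std (e : S → ι) (d : S → ℕ) : ι →₀ ℕ := ∑ s, Finsupp.single (e s) (d s)

omit [DecidableEq S] in
theorem mn_std {K : Type} [Field K] (x : ι → K) (e : S → ι) (d : S → ℕ) :
    mn x (std e d) = ∏ s, x (e s) ^ d s := by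
  unfold std
  rw [mn_sum]
  exact Finset.prod_congr rfl fun s _ => mn_single _ _ _

theorem mdeg_std {β : ι → S} {e : S → ι} (he : ∀ s, β (e s) = s) (d : S → ℕ) :
    mdeg β (std e d) = d := by
  unfold std
  rw [map_sum]
  funext s
  rw [Finset.sum_apply, Finset.sum_eq_single s]
  · rw [mdeg_single, he, Pi.single_eq_same]
  · intro s' _ hs
    rw [mdeg_single, he, Pi.single_eq_of_ne hs.symm]
  · intro h; exact absurd (Finset.mem_univ s) h

open scoped Classical in
/-- The number of the factors which are different from the variables `e s`. -/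
noncomputable def nb (β : ι → S) (e : S → ι) : (ι →₀ ℕ) →+ ℕ :=
  Finsupp.weight (fun l => if e (β l) = l then 0 else 1)

omit [Fintype S] [DecidableEq S] in
open scoped Classical in
theorem nb_single (β : ι → S) (e : S → ι) (l : ι) :
    nb β e (Finsupp.single l 1) = if e (β l) = l then 0 else 1 := by
  unfold nb
  rw [Finsupp.weight_single, one_smul]

theorem eq_std_of_nb {β : ι → S} {e : S → ι} (he : ∀ s, β (e s) = s) {J : ι →₀ ℕ}
    (h : ∀ l, e (β l) ≠ l → J l = 0) : J = std e (mdeg β J) := by
  classical
  have h1 : J = ∑ s, Finsupp.single (e s) (J (e s)) := by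
    ext l
    rw [Finsupp.finsetSum_apply]
    by_cases hl : e (β l) = l
    · rw [Finset.sum_eq_single (β l)]
      · rw [hl, Finsupp.single_eq_same]
      · intro s _ hs
        rw [Finsupp.single_eq_of_ne]
        intro h2
        apply hs
        rw [h2, he]
      · intro h; exact absurd (Finset.mem_univ _) h
    · rw [h l hl]
      symm
      refine Finset.sum_eq_zero fun s _ => ?_
      rw [Finsupp.single_eq_of_ne]
      intro h2
      apply hl
      rw [h2, he]
  have h2 : mdeg β J = fun s => J (e s) := by
    conv_lhs => rw [h1]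
    exact mdeg_std he _
  rw [h2]
  exact h1

/-- The exchange of variables. -/
theorem exch {K W : Type} [Field K] [AddCommGroup W] [Module K W] (U : Submodule K W)
    (v : (ι →₀ ℕ) → W) (x : ι → K) (d : S → ℕ) {β : ι → S} {e : S → ι} (he : ∀ s, β (e s) = s)
    (hx : ∀ s, x (e s) ≠ 0)
    (hU : ∀ M l l', β l = β l' → mdeg β (M + Finsupp.single l 1) = d →
      x l' • v (M + Finsupp.single l 1) - x l • v (M + Finsupp.single l' 1) ∈ U) :
    ∀ (N : ℕ) (J : ι →₀ ℕ), mdeg β J = d → nb β e J = N →
      v J - (mn x J / mn x (std e d)) • v (std e d) ∈ U := by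
  classical
  have hm0 : mn x (std e d) ≠ 0 := by
    rw [mn_std]
    exact Finset.prod_ne_zero_iff.2 fun s _ => pow_ne_zero _ (hx s)
  intro N
  induction N with
  | zero =>
    intro J hJ hN
    have h1 : J = std e d := by
      rw [← hJ]
      refine eq_std_of_nb he fun l hl => ?_
      by_contra h0
      obtain ⟨M, hM⟩ : ∃ M : ι →₀ ℕ, J = M + Finsupp.single l 1 :=
        ⟨J - Finsupp.single l 1, by
          rw [tsub_add_cancel_of_le]
          rw [Finsupp.single_le_iff]
          omega⟩
      rw [hM, map_add, nb_single, if_neg hl] at hN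
      omega
    rw [h1, div_self hm0, one_smul, sub_self]
    exact zero_mem _
  | succ N ih =>
    intro J hJ hN
    obtain ⟨l, hl, hJl⟩ : ∃ l, e (β l) ≠ l ∧ J l ≠ 0 := by
      by_contra hcon
      push Not at hcon
      have h1 : J = std e (mdeg β J) := eq_std_of_nb he fun l hl => hcon l hl
      have h2 : nb β e J = 0 := by
        rw [h1]
        unfold std
        rw [map_sum]
        refine Finset.sum_eq_zero fun s _ => ?_
        unfold nb
        rw [Finsupp.weight_single, he, if_pos rfl, smul_zero]
      omega
    obtain ⟨M, hM⟩ : ∃ M : ι →₀ ℕ, J = M + Finsupp.single l 1 :=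
      ⟨J - Finsupp.single l 1, by
        rw [tsub_add_cancel_of_le]
        rw [Finsupp.single_le_iff]
        omega⟩
    obtain ⟨l', hl'⟩ : ∃ l', l' = e (β l) := ⟨_, rfl⟩
    have hβ : β l = β l' := by rw [hl', he]
    have hx' : x l' ≠ 0 := by rw [hl']; exact hx _
    have h2 := hU M l l' hβ (by rw [← hM]; exact hJ)
    have hJ' : mdeg β (M + Finsupp.single l' 1) = d := by
      rw [← hJ, hM, map_add, map_add, mdeg_single, mdeg_single, hβ]
    have h4 := ih (M + Finsupp.single l' 1) hJ' (by
      rw [hM, map_add, nb_single, if_neg hl] at hN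
      rw [map_add, nb_single, if_pos (by rw [← hβ, ← hl'])]
      omega)
    have h5 : v J - (mn x J / mn x (std e d)) • v (std e d) =
        (x l')⁻¹ • (x l' • v (M + Finsupp.single l 1) - x l • v (M + Finsupp.single l' 1)) +
        (x l / x l') • (v (M + Finsupp.single l' 1) -
          (mn x (M + Finsupp.single l' 1) / mn x (std e d)) • v (std e d)) := by
      rw [hM, mn_add, mn_add, mn_single, mn_single, pow_one, pow_one, smul_sub, smul_sub,
        smul_smul, smul_smul, smul_smul, inv_mul_cancel₀ hx', one_smul]
      have h6 : (x l')⁻¹ * x l = x l / x l' := by rw [div_eq_mul_inv, mul_comm]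
      have h7 : x l / x l' * (mn x M * x l' / mn x (std e d)) =
          mn x M * x l / mn x (std e d) := by
        field_simp
      rw [h6, h7]
      abel
    rw [h5]
    exact add_mem (Submodule.smul_mem _ _ h2) (Submodule.smul_mem _ _ h4)

end grade

end Pool.Agent.KS6_26.D
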