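import Pool.Agent.KS6_26.D.Rows
import Pool.Graph.R_seed8.TH145.GC.Ineq

/-!
The local estimate and the height inequality.
-/

set_option autoImplicit false

open FF Pool.Agent.W603.LV Pool.Agent.W603.PV Pool.Agent.TH145.GH
open Pool.Agent.TH145.GC (ord_prod)

namespace Pool.Agent.KS6_26.D

/-- Enumerations of the blocks of variables. -/
structure Blk {ι S : Type} (β : ι → S) (n : S → ℕ) (en : ∀ s, Fin (n s + 1) → ι) : Prop where
  blk : ∀ s j, β (en s j) = s
  surj : ∀ s l, β l = s → ∃ j, en s j = l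

/-- Regularity of the derivations and of the defects at a place, up to `e`. -/
structure Loc {k K : Type} [Field k] [Field K] [Algebra k K] {ι A X Δ : Type} (P : Place k K)
    (D : A → (ι →₀ ℕ) → Derivation ℤ K K) (c : A → (ι →₀ ℕ) → Δ → K)
    (E : X → Derivation ℤ K K) (e : ℤ) : Prop where
  e_nonneg : 0 ≤ e
  der : ∀ f, Ge P 0 f → ∀ a I, Ge P (-e) (D a I f)
  def_ : ∀ a I δ, Ge P (-e) (c a I δ)
  vert : ∀ f, Ge P 0 f → ∀ ξ, Ge P (-e) (E ξ f)

/-- The sum of the degrees of the forms whose derivatives are among the rows. -/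
def dsum {ι S A X : Type} (d : A → S → ℕ) (b : Finset (Gx ι S A X ⊕ A)) (s : S) : ℕ :=
  ∑ i ∈ b, Sum.elim (fun _ => 0) (fun a => d a s) i

variable {k K : Type} [Field k] [Field K] [Algebra k K] {ι S A X Δ : Type} [DecidableEq S]
  {β : ι → S} {d : A → S → ℕ} {D : A → (ι →₀ ℕ) → Derivation ℤ K K}
  {c : A → (ι →₀ ℕ) → Δ → K} {E : X → Derivation ℤ K K} {x : ι → K}
  {n : S → ℕ} {en : ∀ s, Fin (n s + 1) → ι}

theorem Loc.ge_Ev {P : Place k K} {e : ℤ} (h : Loc P D c E e) (hx : ∀ l, Ge P 0 (x l)) (a : A)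
    (I : ι →₀ ℕ) (j : ι ⊕ Δ) : Ge P (-e) (Ev D c x a I j) := by
  rcases j with l | δ
  · exact h.der _ (hx l) a I
  · exact h.def_ a I δ

theorem Loc.ge_vv {P : Place k K} {e : ℤ} (h : Loc P D c E e) (hx : ∀ l, Ge P 0 (x l))
    (I : A → ι →₀ ℕ) (i : Gx ι S A X ⊕ A) (j : ι ⊕ Δ) :
    Ge P (-e) (vv β d D c E x I i j) := by
  have he : -e ≤ 0 := by have := h.e_nonneg; omega
  rcases i with (s | ξ | t) | a
  · rcases j with l | δ
    · simp only [vv, gen, Sum.elim_inl]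
      split_ifs
      · exact (hx l).mono he
      · exact Ge.zero
    · exact Ge.zero
  · rcases j with l | δ
    · exact h.vert _ (hx l) ξ
    · exact Ge.zero
  · simp only [vv, gen]
    split_ifs
    · have h1 := (hx t.2.2.2).mul (h.ge_Ev hx t.1 (t.2.1 + Finsupp.single t.2.2.1 1) j)
      have h2 := (hx t.2.2.1).mul (h.ge_Ev hx t.1 (t.2.1 + Finsupp.single t.2.2.2 1) j)
      rw [zero_add] at h1 h2
      exact h1.sub h2
    · exact Ge.zero
  · exact h.ge_Ev hx a (I a) j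

variable [Fintype S]

omit [DecidableEq S] in
theorem prod_dsum (lam : S → K) (b : Finset (Gx ι S A X ⊕ A)) :
    (∏ i ∈ b, Sum.elim (fun _ => (1 : K)) (fun a => ∏ s, lam s ^ d a s) i) =
      ∏ s, lam s ^ dsum d b s := by
  unfold dsum
  simp only [← Finset.prod_pow_eq_pow_sum]
  rw [Finset.prod_comm]
  refine Finset.prod_congr rfl fun i _ => ?_
  rcases i with g | a
  · simp
  · rfl

open scoped Classical in
/-- The local inequality. -/
theorem local_est (hB : Blk β n en) (P : Place k K) {e : ℤ} (h : Loc P D c E e)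
    {e0 : S → ι} (he0 : ∀ s, β (e0 s) = s) (hx0 : ∀ s, x (e0 s) ≠ 0)
    {b : Finset (Gx ι S A X ⊕ A)} (hb : ∀ s, Sum.inl (Sum.inl s) ∈ b) (σ : b → ι ⊕ Δ)
    (hspan : Submodule.span K (Set.range (gen β d D c E x)) ≤
      Submodule.span K (gen β d D c E x '' {g | Sum.inl g ∈ b}))
    (hdet : (mx β d D c E x (fun a => std e0 (d a)) b σ).det ≠ 0) :
    (∑ s, ((wt β σ s : ℤ) - dsum d b s) * pord P (fun j => x (en s j))) - b.card * e ≤
      P.ord ((mx β d D c E x (fun a => std e0 (d a)) b σ).det /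
        ∏ i ∈ b, Sum.elim (fun _ => (1 : K)) (fun a => mn x (std e0 (d a))) i) := by
  have hne : ∀ s, ∃ j, (fun j => x (en s j)) j ≠ 0 := by
    intro s
    obtain ⟨j, hj⟩ := hB.surj s (e0 s) (he0 s)
    exact ⟨j, by dsimp only; rw [hj]; exact hx0 s⟩
  choose j1 hj1 hj1P using fun s => exists_pord P (hne s)
  obtain ⟨e1, he1⟩ : ∃ e1 : S → ι, ∀ s, e1 s = en s (j1 s) := ⟨_, fun _ => rfl⟩
  have hβ1 : ∀ s, β (e1 s) = s := fun s => by rw [he1, hB.blk]
  obtain ⟨lam, hlam⟩ : ∃ lam : S → K, ∀ s, lam s = x (e1 s) := ⟨_, fun _ => rfl⟩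
  have hlam0 : ∀ s, lam s ≠ 0 := fun s => by rw [hlam, he1]; exact hj1 s
  have hlamP : ∀ s, P.ord (lam s) = pord P (fun j => x (en s j)) := fun s => by
    rw [hlam, he1]; exact hj1P s
  obtain ⟨x', hx'⟩ : ∃ x' : ι → K, ∀ l, x' l = (lam (β l))⁻¹ * x l := ⟨_, fun _ => rfl⟩
  have hxx : ∀ l, x l = lam (β l) * x' l := fun l => by
    rw [hx', ← mul_assoc, mul_inv_cancel₀ (hlam0 _), one_mul]
  have hint : ∀ l, Ge P 0 (x' l) := by
    intro l
    by_cases hl : x l = 0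
    · rw [hx', hl, mul_zero]; exact Ge.zero
    · right
      rw [hx', P.ord_mul (inv_ne_zero (hlam0 _)) hl, P.ord_inv, hlamP]
      obtain ⟨j, hj⟩ := hB.surj _ l rfl
      have h1 := pord_le P (f := fun j => x (en (β l) j)) (j := j) (by
        rw [hj]; exact hl)
      rw [hj] at h1
      omega
  obtain ⟨d0, hd0⟩ : ∃ d0, d0 = (mx β d D c E x (fun a => std e0 (d a)) b σ).det := ⟨_, rfl⟩
  obtain ⟨d1, hd1⟩ : ∃ d1, d1 = (mx β d D c E x' (fun a => std e1 (d a)) b σ).det := ⟨_, rfl⟩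
  obtain ⟨Z0, hZ0⟩ : ∃ Z0, Z0 = ∏ i ∈ b, Sum.elim (fun _ => (1 : K))
    (fun a => mn x (std e0 (d a))) i := ⟨_, rfl⟩
  obtain ⟨Z1, hZ1⟩ : ∃ Z1, Z1 = ∏ i ∈ b, Sum.elim (fun _ => (1 : K))
    (fun a => mn x (std e1 (d a))) i := ⟨_, rfl⟩
  have h1 := det_change (D := D) (c := c) (E := E) he0 hx0 hβ1 σ hspan
  rw [det_lam (d := d) (D := D) (c := c) (E := E) hlam0 hxx hb σ (fun a => std e1 (d a)),
    ← hd1, ← hd0] at h1
  have hZ0' : Z0 ≠ 0 := by
    rw [hZ0]
    refine Finset.prod_ne_zero_iff.2 fun i _ => ?_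
    rcases i with g | a
    · exact one_ne_zero
    · rw [Sum.elim_inr, mn_std]
      exact Finset.prod_ne_zero_iff.2 fun s _ => pow_ne_zero _ (hx0 s)
  have h2 : (∏ i ∈ b, Sum.elim (fun _ => (1 : K))
        (fun a => mn x (std e1 (d a)) / mn x (std e0 (d a))) i) = Z1 / Z0 := by
    rw [hZ1, hZ0, ← Finset.prod_div_distrib]
    refine Finset.prod_congr rfl fun i _ => ?_
    rcases i with g | a
    · simp
    · rfl
  have h3 : Z1 = ∏ s, lam s ^ dsum d b s := by
    rw [← prod_dsum, hZ1]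
    refine Finset.prod_congr rfl fun i _ => ?_
    rcases i with g | a
    · rfl
    · simp only [Sum.elim_inr]
      rw [mn_std]
      exact Finset.prod_congr rfl fun s _ => by rw [hlam]
  rw [h2] at h1
  have hlp : ∀ w : S → ℕ, (∏ s, lam s ^ w s) ≠ 0 := fun w =>
    Finset.prod_ne_zero_iff.2 fun s _ => pow_ne_zero _ (hlam0 s)
  have hlo : ∀ w : S → ℕ, P.ord (∏ s, lam s ^ w s) =
      ∑ s, (w s : ℤ) * pord P (fun j => x (en s j)) := fun w => by
    rw [ord_prod P _ _ fun s _ => pow_ne_zero _ (hlam0 s)]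
    exact Finset.sum_congr rfl fun s _ => by rw [P.ord_pow, hlamP]
  have hZ10 : Z1 ≠ 0 := by rw [h3]; exact hlp _
  rw [← hd0] at hdet
  have hd10 : d1 ≠ 0 := by
    intro h0
    rw [h0, mul_zero] at h1
    exact mul_ne_zero (div_ne_zero hZ10 hZ0') hdet h1.symm
  have h4 : d0 / Z0 = (∏ s, lam s ^ wt β σ s) * d1 / Z1 := by
    rw [h1]
    field_simp
  rw [← hd0, ← hZ0, h4, P.ord_div (mul_ne_zero (hlp _) hd10) hZ10, P.ord_mul (hlp _) hd10, h3,
    hlo, hlo]
  have h5 : Ge P (-(b.card * e)) d1 := by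
    rw [hd1]
    have h6 := Pool.Agent.TH145.GC.ge_det P (mx β d D c E x' (fun a => std e1 (d a)) b σ) (c := e)
      (fun i j => h.ge_vv hint _ _ _)
    rwa [Fintype.card_coe] at h6
  have h6 : -((b.card : ℤ) * e) ≤ P.ord d1 := h5.resolve_left hd10
  simp only [sub_mul, Finset.sum_sub_distrib]
  linarith

section global

variable [IsAlgClosed k] [CharZero k] [IsFF k K]

open scoped Classical in
/-- The height inequality. -/
theorem ineq (hB : Blk β n en) {e : Place k K → ℤ} (h : ∀ P, Loc P D c E (e P))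
    (hfin : {P | e P ≠ 0}.Finite)
    {e0 : S → ι} (he0 : ∀ s, β (e0 s) = s) (hx0 : ∀ s, x (e0 s) ≠ 0)
    {b : Finset (Gx ι S A X ⊕ A)} (hb : ∀ s, Sum.inl (Sum.inl s) ∈ b) (σ : b → ι ⊕ Δ)
    (hspan : Submodule.span K (Set.range (gen β d D c E x)) ≤
      Submodule.span K (gen β d D c E x '' {g | Sum.inl g ∈ b}))
    (hdet : (mx β d D c E x (fun a => std e0 (d a)) b σ).det ≠ 0)
    (hnum : ∀ s, wt β σ s + 1 ≤ dsum d b s) {N : ℕ} (hN : b.card ≤ N) (s0 : S) :
    pht k (fun j => x (en s0 j)) ≤ ∑ᶠ P, N * e P := by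
  have hne : ∀ s, ∃ j, (fun j => x (en s j)) j ≠ 0 := by
    intro s
    obtain ⟨j, hj⟩ := hB.surj s (e0 s) (he0 s)
    exact ⟨j, by dsimp only; rw [hj]; exact hx0 s⟩
  obtain ⟨Θ, hΘ⟩ : ∃ Θ, Θ = (mx β d D c E x (fun a => std e0 (d a)) b σ).det /
        ∏ i ∈ b, Sum.elim (fun _ => (1 : K)) (fun a => mn x (std e0 (d a))) i := ⟨_, rfl⟩
  have hloc := fun P => local_est (d := d) hB P (h P) he0 hx0 hb σ hspan hdet
  simp only [← hΘ] at hloc
  have hp := fun s => pord_finite (k := k) (hne s)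
  obtain ⟨T, hT⟩ := exists_supp (k := k) (Finset.univ : Finset Unit) (fun _ => Θ)
  obtain ⟨U, hU⟩ : ∃ U : Finset (Place k K), U = T ∪ (Finset.univ.biUnion
    (fun s => (hp s).toFinset) ∪ hfin.toFinset) := ⟨_, rfl⟩
  have h1 : ∑ P ∈ U, P.ord Θ = 0 := sum_ord_finset _ _ fun P hP => by
    rw [hU]; exact Finset.mem_union_left _ (hT () (Finset.mem_univ _) P hP)
  have h2 : ∀ s, pht k (fun j => x (en s j)) = - ∑ P ∈ U, pord P (fun j => x (en s j)) := by
    intro s
    unfold pht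
    rw [finsum_eq_sum_of_support_subset (s := U)]
    intro P hP
    rw [hU]
    refine Finset.mem_union_right _ (Finset.mem_union_left _ (Finset.mem_biUnion.2
      ⟨s, Finset.mem_univ _, (hp s).mem_toFinset.2 hP⟩))
  have h3 : ∑ᶠ P, N * e P = ∑ P ∈ U, N * e P := by
    rw [finsum_eq_sum_of_support_subset (s := U)]
    intro P hP
    rw [hU]
    refine Finset.mem_union_right _ (Finset.mem_union_right _ (hfin.mem_toFinset.2 ?_))
    intro h0
    apply hP
    change N * e P = 0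
    rw [h0, mul_zero]
  have h4 := Finset.sum_le_sum (s := U) fun P _ => hloc P
  rw [Finset.sum_sub_distrib, h1, Finset.sum_comm] at h4
  have h5 : ∑ s, ∑ P ∈ U, ((wt β σ s : ℤ) - dsum d b s) * pord P (fun j => x (en s j)) =
      ∑ s, ((dsum d b s : ℤ) - wt β σ s) * pht k (fun j => x (en s j)) := by
    refine Finset.sum_congr rfl fun s _ => ?_
    rw [← Finset.mul_sum, h2]
    ring
  rw [h5] at h4
  have h6 : ∑ P ∈ U, (b.card : ℤ) * e P ≤ ∑ P ∈ U, N * e P := by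
    refine Finset.sum_le_sum fun P _ => mul_le_mul_of_nonneg_right ?_ (h P).e_nonneg
    exact_mod_cast hN
  have hpos : ∀ s, 0 ≤ pht k (fun j => x (en s j)) := fun s => by
    obtain ⟨j, hj⟩ := hne s
    exact (hgt_nonneg _).trans (Pool.Agent.W603.CX.hgt_le_pht (k := k) _ hj hj)
  have h7 : pht k (fun j => x (en s0 j)) ≤
      ∑ s, ((dsum d b s : ℤ) - wt β σ s) * pht k (fun j => x (en s j)) := by
    have h8 : ∀ s, (1 : ℤ) ≤ (dsum d b s : ℤ) - wt β σ s := fun s => by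
      have := hnum s
      omega
    refine le_trans ?_ (Finset.single_le_sum (f := fun s =>
      ((dsum d b s : ℤ) - wt β σ s) * pht k (fun j => x (en s j)))
      (fun s _ => mul_nonneg (by have := h8 s; omega) (hpos s)) (Finset.mem_univ s0))
    exact le_mul_of_one_le_left (hpos s0) (h8 s0)
  rw [h3]
  linarith

end global

end Pool.Agent.KS6_26.D
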