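import Pool.Agent.KS6_26.D.Gtype

/-!
Multihomogeneous forms, and points of products of projective spaces.
-/

set_option autoImplicit false

open MvPolynomial Pool.Agent.W602.GT LinearAlgebra.Projectivization

namespace Pool.Agent.KS6_26.D

section deg

variable {ι S : Type} [DecidableEq S]

theorem sum_mdeg [Fintype S] (β : ι → S) (I : ι →₀ ℕ) : ∑ s, mdeg β I s = I.degree := by
  induction I using Finsupp.induction_linear with
  | zero => simp
  | add I J hI hJ =>
    simp only [map_add, Pi.add_apply]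
    rw [Finset.sum_add_distrib, hI, hJ]
  | single l k =>
    rw [mdeg_single]
    simp [Finsupp.degree_single]

theorem mdeg_unit {β : ι → Unit} (I : ι →₀ ℕ) (s : Unit) : mdeg β I s = I.degree := by
  have h := sum_mdeg β I
  rw [Fintype.sum_unique] at h
  exact h

theorem exists_Mn {A : Type} [Fintype S] [Finite ι] (β : ι → S) (d : A → S → ℕ) :
    ∃ Mn : A → Finset (ι →₀ ℕ), ∀ a I, I ∈ Mn a ↔ mdeg β I = d a := by
  have h1 : ∀ a, {I : ι →₀ ℕ | mdeg β I = d a}.Finite := by
    intro a
    refine (Finsupp.finite_of_degree_le (∑ s, d a s)).subset fun I hI => ?_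
    have h2 : mdeg β I = d a := hI
    change I.degree ≤ _
    rw [← sum_mdeg β I, h2]
  exact ⟨fun a => (h1 a).toFinset, fun a I => by simp⟩

theorem mn_scale [Fintype S] {K : Type} [Field K] (β : ι → S) (lam : S → K) (x : ι → K)
    (J : ι →₀ ℕ) :
    mn (fun l => lam (β l) * x l) J = (∏ s, lam s ^ mdeg β J s) * mn x J := by
  induction J using Finsupp.induction_linear with
  | zero => simp [mn_zero]
  | add I J hI hJ =>
    rw [mn_add, mn_add, hI, hJ]
    simp only [map_add, Pi.add_apply, pow_add]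
    rw [Finset.prod_mul_distrib]
    ring
  | single l k =>
    rw [mn_single, mn_single, mdeg_single, mul_pow]
    congr 1
    rw [Finset.prod_eq_single (β l)]
    · rw [Pi.single_eq_same]
    · intro s _ hs
      rw [Pi.single_eq_of_ne hs, pow_zero]
    · intro h; exact absurd (Finset.mem_univ _) h

/-- The value of a polynomial. -/
theorem aeval_sum {K L : Type} [Field K] [Field L] [Algebra K L] {F : MvPolynomial ι K}
    {M : Finset (ι →₀ ℕ)} (h : ∀ J, F.coeff J ≠ 0 → J ∈ M) (x : ι → L) :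
    aeval x F = ∑ J ∈ M, algebraMap K L (F.coeff J) * mn x J := by
  rw [aeval_def, eval₂_eq]
  refine Finset.sum_subset (fun J hJ => h J (mem_support_iff.1 hJ)) fun J _ hJ => ?_
  rw [notMem_support_iff.1 hJ, map_zero, zero_mul]

theorem aeval_scale [Fintype S] {K L : Type} [Field K] [Field L] [Algebra K L] {β : ι → S}
    {F : MvPolynomial ι K} {e : S → ℕ} (h : ∀ J, F.coeff J ≠ 0 → mdeg β J = e) (lam : S → L)
    (x : ι → L) : aeval (fun l => lam (β l) * x l) F = (∏ s, lam s ^ e s) * aeval x F := by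
  rw [aeval_sum (M := F.support) (fun J hJ => mem_support_iff.2 hJ),
    aeval_sum (M := F.support) (fun J hJ => mem_support_iff.2 hJ), Finset.mul_sum]
  refine Finset.sum_congr rfl fun J hJ => ?_
  rw [mn_scale, h J (mem_support_iff.1 hJ)]
  ring

theorem mdeg_sigma {n : S → ℕ} (I : (Σ s, Fin (n s + 1)) →₀ ℕ) (s : S) :
    mdeg Sigma.fst I s = ∑ i, I ⟨s, i⟩ := by
  induction I using Finsupp.induction_linear with
  | zero => simp
  | add I J hI hJ =>
    simp only [map_add, Pi.add_apply, Finsupp.add_apply]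
    rw [Finset.sum_add_distrib, hI, hJ]
  | single l k =>
    rw [mdeg_single]
    obtain ⟨s', i'⟩ := l
    by_cases h : s = s'
    · subst h
      rw [Pi.single_eq_same, Finset.sum_eq_single i']
      · rw [Finsupp.single_eq_same]
      · intro i _ hi
        rw [Finsupp.single_eq_of_ne]
        intro h
        apply hi
        simpa using h
      · intro h; exact absurd (Finset.mem_univ _) h
    · rw [Pi.single_eq_of_ne h]
      symm
      refine Finset.sum_eq_zero fun i _ => ?_
      rw [Finsupp.single_eq_of_ne]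
      intro h'
      exact h (congrArg Sigma.fst h')

end deg

/-- The numerical condition, from the dimensions. -/
theorem hypL_of_dim {k0 ι S A : Type} [Field k0] [Fintype A] {β : ι → S} {d : A → S → ℕ}
    {δ w m : ℕ} {ms : S → ℕ} {l0 : S → ι} {V : Set (MvPolynomial ι k0)}
    (h : ∀ (L : Type) [Field L] [Algebra k0 L] (x : ι → L), (∀ s, x (l0 s) = 1) →
      (∀ f ∈ V, aeval x f = 0) → Module.finrank L (DI k0 x) ≤ m ∧
      ∀ s, Module.finrank L (DI k0 fun l : {l // β l = s} => x l) ≤ ms s)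
    (hd : ∀ s, m + ms s + 2 + δ ≤ ∑ a, (d a s + 1) + w) :
    HypL k0 β d δ w l0 (RV ι A V) 1 := by
  intro L _ _ x u hx hR _
  obtain ⟨h1, h2⟩ := RV_zero.1 hR
  obtain ⟨h3, h4⟩ := h L x hx h1
  refine ⟨m, 0, ms, h3, h4, ?_, fun B hB s => ?_⟩
  · have h5 : Vt k0 x u = ⊥ := by
      rw [eq_bot_iff]
      rintro y ⟨D, -, -, hy⟩
      rw [Submodule.mem_bot]
      funext a
      rw [hy, h2, map_zero]
      rfl
    rw [h5, finrank_bot]
  · have h5 : B = Finset.univ := by
      rw [← Finset.card_eq_iff_eq_univ]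
      exact le_antisymm (Finset.card_le_univ B) (by omega)
    rw [h5]
    exact hd s

section points

/-- Points of a product of projective spaces with coordinates in a subfield. -/
theorem prod_finite {K S : Type} [Field K] [Finite S] {n : S → ℕ} (k1 : Subfield K)
    (V : Set (∀ s, Fin (n s + 1) → K))
    (hV : ∀ x ∈ V, ∀ lam : S → K, (∀ s, lam s ≠ 0) → (fun s => lam s • x s) ∈ V)
    (h : ∀ l0 : ∀ s, Fin (n s + 1), {x : ∀ s, Fin (n s + 1) → K | (∀ s j, x s j ∈ k1) ∧
      (∀ s, x s (l0 s) = 1) ∧ x ∈ V}.Finite) :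
    {p : ∀ s, ℙ K (Fin (n s + 1) → K) | ∃ x ∈ V, (∀ s i, x s i ∈ k1) ∧
      ∃ hx : ∀ s, x s ≠ 0, ∀ s, p s = Projectivization.mk K (x s) (hx s)}.Finite := by
  classical
  have := Fintype.ofFinite S
  refine (Set.finite_iUnion fun l0 : ∀ s, Fin (n s + 1) =>
    (h l0).image fun x s => if hx : x s ≠ 0 then Projectivization.mk K (x s) hx else
      Projectivization.mk K (fun _ => 1) (fun h => one_ne_zero (congrFun h 0))).subset ?_
  rintro p ⟨x, hxV, hxk, hx, hp⟩
  choose l hl using fun s => Function.ne_iff.1 (hx s)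
  have hl' : ∀ s, x s (l s) ≠ 0 := hl
  refine Set.mem_iUnion.2 ⟨l, fun s => (x s (l s))⁻¹ • x s, ⟨fun s j => ?_, fun s => ?_,
    hV x hxV (fun s => (x s (l s))⁻¹) fun s => inv_ne_zero (hl' s)⟩, ?_⟩
  · exact mul_mem (inv_mem (hxk s (l s))) (hxk s j)
  · dsimp only
    rw [Pi.smul_apply, smul_eq_mul, inv_mul_cancel₀ (hl' s)]
  · funext s
    dsimp only
    rw [dif_pos (smul_ne_zero (inv_ne_zero (hl' s)) (hx s)), hp s,
      Projectivization.mk_eq_mk_iff']
    exact ⟨(x s (l s))⁻¹, rfl⟩

end points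

end Pool.Agent.KS6_26.D
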