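import Pool.Agent.KS6_26.D.Single

/-!
Intersections in products of projective spaces.
-/

set_option autoImplicit false

open MvPolynomial Pool.Agent.W602.GT LinearAlgebra.Projectivization

namespace Pool.Agent.KS6_26.D

/-- `F` is multihomogeneous of multidegree `e`, a form on a product of projective spaces. -/
def MHom {R S : Type} [CommSemiring R] {n : S → ℕ} (F : MvPolynomial (Σ s, Fin (n s + 1)) R)
    (e : S → ℕ) : Prop := ∀ J, F.coeff J ≠ 0 → ∀ s, ∑ i, J ⟨s, i⟩ = e s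

/-- The field generated over `k` by the ratios of the coordinates, in each factor, of a point of a
product of projective spaces. -/
noncomputable def CoordsP {S : Type} {n : S → ℕ} (k : Type) {Ω : Type} [Field k] [Field Ω]
    [Algebra k Ω] (x : ∀ s, Fin (n s + 1) → Ω) : IntermediateField k Ω :=
  IntermediateField.adjoin k {z | ∃ s i j, x s j ≠ 0 ∧ z = x s i / x s j}

/-- The subset of the product of projective spaces given by the forms in `V` has dimension at most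
`m`, and its projection to the factor with index `s` has dimension at most `ms s`: the
transcendence degrees of the fields generated by the ratios of the coordinates of a point, in all
factors or in one factor. -/
def MDimLE (k : Type) [Field k] {S : Type} {n : S → ℕ}
    (V : Set (MvPolynomial (Σ s, Fin (n s + 1)) k)) (m : ℕ) (ms : S → ℕ) : Prop :=
  ∀ (Ω : Type) [Field Ω] [Algebra k Ω] (x : ∀ s, Fin (n s + 1) → Ω), (∀ s, x s ≠ 0) →
    (∀ f ∈ V, aeval (fun i : Σ s, Fin (n s + 1) => x i.1 i.2) f = 0) →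
    Algebra.trdeg k (CoordsP k x) ≤ m ∧ ∀ s, Algebra.trdeg k (coords k (x s)) ≤ ms s

section multi

variable {S : Type} {n : S → ℕ}

/-- The blocks of the variables. -/
theorem blk_sigma : Blk (Sigma.fst : (Σ s, Fin (n s + 1)) → S) n (fun s j => ⟨s, j⟩) :=
  ⟨fun _ _ => rfl, fun s l h => by subst h; exact ⟨l.2, rfl⟩⟩

theorem dim_multi {k0 : Type} [Field k0] [CharZero k0]
    {V : Set (MvPolynomial (Σ s, Fin (n s + 1)) k0)} {m : ℕ} {ms : S → ℕ}
    (hV : MDimLE k0 V m ms) [Finite S] (l0 : ∀ s, Fin (n s + 1)) (L : Type) [Field L]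
    [Algebra k0 L] (x : (Σ s, Fin (n s + 1)) → L) (hx : ∀ s, x ⟨s, l0 s⟩ = 1)
    (hVx : ∀ f ∈ V, aeval x f = 0) :
    Module.finrank L (DI k0 x) ≤ m ∧ ∀ s, Module.finrank L
      (DI k0 fun l : {l : Σ s, Fin (n s + 1) // l.1 = s} => x l) ≤ ms s := by
  have hc : CharZero L := charZero_of_injective_algebraMap (algebraMap k0 L).injective
  have h1 := hV L (fun s i => x ⟨s, i⟩) (fun s h => by
    have h3 : x ⟨s, l0 s⟩ = 0 := congrFun h (l0 s)
    rw [hx s] at h3
    exact one_ne_zero h3) hVx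
  have h2 : ∀ j, x j ∈ CoordsP k0 fun s i => x ⟨s, i⟩ := fun j =>
    IntermediateField.subset_adjoin _ _ ⟨j.1, j.2, l0 j.1,
      (by rw [hx]; exact one_ne_zero : x ⟨j.1, l0 j.1⟩ ≠ 0),
      (by rw [hx, div_one] : x j = x ⟨j.1, j.2⟩ / x ⟨j.1, l0 j.1⟩)⟩
  refine ⟨finrank_DI_le x _ h2 h1.1, fun s => finrank_DI_le
    (fun l : {l : Σ s, Fin (n s + 1) // l.1 = s} => x l) _ (fun l => ?_) (h1.2 s)⟩
  obtain ⟨⟨s', i⟩, rfl⟩ := l
  exact IntermediateField.subset_adjoin _ _ ⟨i, l0 s',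
    (by rw [hx]; exact one_ne_zero : x ⟨s', l0 s'⟩ ≠ 0),
    (by rw [hx, div_one] : x ⟨s', i⟩ = x ⟨s', i⟩ / x ⟨s', l0 s'⟩)⟩

theorem MHom.mdeg [DecidableEq S] {R : Type} [CommSemiring R]
    {F : MvPolynomial (Σ s, Fin (n s + 1)) R} {e : S → ℕ} (h : MHom F e)
    (J : (Σ s, Fin (n s + 1)) →₀ ℕ) (hJ : F.coeff J ≠ 0) : mdeg Sigma.fst J = e := by
  funext s
  rw [mdeg_sigma]
  exact h J hJ s

variable {k0 K : Type} [Field k0] [Field K] [Algebra k0 K] [IsAlgClosed K] [CharZero K]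
  {A : Type} [Fintype A] {m δ : ℕ} {ms : S → ℕ} {d : A → S → ℕ} [Fintype S] [DecidableEq S]

/-- The points over finitely generated fields. -/
theorem fin_multi [IsAlgClosed k0] {V : Set (MvPolynomial (Σ s, Fin (n s + 1)) k0)}
    (hVh : ∀ f ∈ V, ∃ e, MHom f e) (hV : MDimLE k0 V m ms)
    {F : A → MvPolynomial (Σ s, Fin (n s + 1)) K} (hF : ∀ a, MHom (F a) (d a))
    {I0 : A → (Σ s, Fin (n s + 1)) →₀ ℕ} (h0 : ∀ a, (F a).coeff (I0 a) ≠ 0)
    {B : Finset (Rt Sigma.fst d I0)} (hBi : AlgebraicIndependent k0 fun b : B =>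
      (F b.1.1.1).coeff b.1.1.2 / (F b.1.1.1).coeff (I0 b.1.1.1))
    (hBc : Nat.card (Rt Sigma.fst d I0) ≤ B.card + δ)
    (hd : ∀ s, m + ms s + 2 + δ ≤ ∑ a, (d a s + 1)) (T : Finset K) :
    {p : ∀ s, ℙ K (Fin (n s + 1) → K) | ∃ x : ∀ s, Fin (n s + 1) → K,
      (∀ s i, x s i ∈ IntermediateField.adjoin k0 (T : Set K)) ∧
      (∀ f ∈ V, aeval (fun i : Σ s, Fin (n s + 1) => x i.1 i.2) f = 0) ∧
      (∀ a, eval (fun i : Σ s, Fin (n s + 1) => x i.1 i.2) (F a) = 0) ∧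
      ∃ hx : ∀ s, x s ≠ 0, ∀ s, p s = Projectivization.mk K (x s) (hx s)}.Finite := by
  have hc0 : CharZero k0 := by
    constructor
    intro a b hab
    have h1 := congrArg (algebraMap k0 K) hab
    rw [map_natCast, map_natCast] at h1
    exact Nat.cast_injective h1
  obtain ⟨Mn, hMn⟩ := exists_Mn (Sigma.fst : (Σ s, Fin (n s + 1)) → S) d
  have hval : ∀ a (x : (Σ s, Fin (n s + 1)) → K),
      eval x (F a) = ∑ J ∈ Mn a, (F a).coeff J * mn x J := by
    intro a x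
    have h1 := aeval_sum (F := F a) (M := Mn a) (fun J hJ =>
      (hMn a J).2 ((hF a).mdeg J hJ)) x
    rw [aeval_eq_eval] at h1
    exact h1
  refine (prod_finite (IntermediateField.adjoin k0 (T : Set K)).toSubfield
    {x | (∀ f ∈ V, aeval (fun i : Σ s, Fin (n s + 1) => x i.1 i.2) f = 0) ∧
      ∀ a, eval (fun i : Σ s, Fin (n s + 1) => x i.1 i.2) (F a) = 0}
      (fun x hx lam hlam => ⟨fun f hf => ?_, fun a => ?_⟩) fun l0 => ?_).subset ?_
  · obtain ⟨e, he⟩ := hVh f hf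
    have h1 := aeval_scale (L := K) (β := Sigma.fst) he.mdeg lam
      (fun i : Σ s, Fin (n s + 1) => x i.1 i.2)
    rw [hx.1 f hf, mul_zero] at h1
    exact h1
  · have h1 := aeval_scale (L := K) (β := Sigma.fst) (hF a).mdeg lam
      (fun i : Σ s, Fin (n s + 1) => x i.1 i.2)
    rw [aeval_eq_eval, aeval_eq_eval] at h1
    have h2 := hx.2 a
    rw [h2, mul_zero] at h1
    exact h1
  · have h1 := fin_points' (β := Sigma.fst) (d := d) hMn blk_sigma
      (l0 := fun s => ⟨s, l0 s⟩) (fun _ => rfl) (hypL_of_dim (w := 0)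
        (fun L _ _ x hx hVx => dim_multi hV l0 L x hx hVx) hd)
      (t := fun a J => (F a).coeff J) (fun a => (hF a).mdeg _ (h0 a)) h0 hBi hBc T
    refine (h1.preimage (f := fun (x : ∀ s, Fin (n s + 1) → K) (i : Σ s, Fin (n s + 1)) =>
      x i.1 i.2) ?_).subset ?_
    · intro x _ y _ hxy
      funext s i
      exact congrFun hxy ⟨s, i⟩
    · rintro x ⟨hx, hxl, hxV, hxF⟩
      exact ⟨fun l => hx l.1 l.2, hxl, hxV, fun a => by rw [← hval]; exact hxF a⟩
  · rintro p ⟨x, hx, hxV, hxF, hx0, hp⟩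
    exact ⟨x, ⟨hxV, hxF⟩, hx, hx0, hp⟩

/-- The subvarieties are of general type. -/
theorem general_multi {V : Set (MvPolynomial (Σ s, Fin (n s + 1)) k0)}
    (hVh : ∀ f ∈ V, ∃ e, MHom f e) (hV : MDimLE k0 V m ms)
    {F : A → MvPolynomial (Σ s, Fin (n s + 1)) K} (hF : ∀ a, MHom (F a) (d a))
    {I0 : A → (Σ s, Fin (n s + 1)) →₀ ℕ} (h0 : ∀ a, (F a).coeff (I0 a) ≠ 0)
    {B : Finset (Rt Sigma.fst d I0)} (hBi : AlgebraicIndependent k0 fun b : B =>
      (F b.1.1.1).coeff b.1.1.2 / (F b.1.1.1).coeff (I0 b.1.1.1))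
    (hBc : Nat.card (Rt Sigma.fst d I0) ≤ B.card + δ)
    {L : Type} [Field L] [Algebra K L] {w : ℕ} (hw : 0 < w)
    (hd : ∀ s, m + ms s + 2 + δ ≤ ∑ a, (d a s + 1) + w) (htr : Algebra.trdeg K L = w)
    {x : ∀ s, Fin (n s + 1) → L} (hx : ∀ s, x s ≠ 0)
    (hgen : Algebra.IsAlgebraic (CoordsP K x) L)
    (hxV : ∀ f ∈ V, aeval (fun i : Σ s, Fin (n s + 1) => x i.1 i.2)
      (map (algebraMap k0 K) f) = 0)
    (hxF : ∀ a, aeval (fun i : Σ s, Fin (n s + 1) => x i.1 i.2) (F a) = 0) :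
    GeneralType K L w := by
  have hc0 : CharZero k0 := by
    constructor
    intro a b hab
    have h1 := congrArg (algebraMap k0 K) hab
    rw [map_natCast, map_natCast] at h1
    exact Nat.cast_injective h1
  let _ : Algebra k0 L := ((algebraMap K L).comp (algebraMap k0 K)).toAlgebra
  have hst : IsScalarTower k0 K L := IsScalarTower.of_algebraMap_eq fun _ => rfl
  obtain ⟨Mn, hMn⟩ := exists_Mn (Sigma.fst : (Σ s, Fin (n s + 1)) → S) d
  choose c0 hc0' using fun s => Function.ne_iff.1 (hx s)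
  have hc0' : ∀ s, x s (c0 s) ≠ 0 := hc0'
  obtain ⟨lam, hlam⟩ : ∃ lam : S → L, ∀ s, lam s = (x s (c0 s))⁻¹ := ⟨_, fun _ => rfl⟩
  have hlam0 : ∀ s, lam s ≠ 0 := fun s => by rw [hlam]; exact inv_ne_zero (hc0' s)
  obtain ⟨x', hx'⟩ : ∃ x' : (Σ s, Fin (n s + 1)) → L, x' = fun i => lam i.1 * x i.1 i.2 :=
    ⟨_, rfl⟩
  have hx1 : ∀ s, x' ⟨s, c0 s⟩ = 1 := by
    intro s
    have h1 : x' ⟨s, c0 s⟩ = lam s * x s (c0 s) := by rw [hx']
    rw [h1, hlam]
    exact inv_mul_cancel₀ (hc0' s)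
  have hsub : CoordsP K x ≤ IntermediateField.adjoin K (Set.range x') := by
    unfold CoordsP
    rw [IntermediateField.adjoin_le_iff]
    rintro z ⟨s, i, j, hj, rfl⟩
    have h1 : x s i / x s j = x' ⟨s, i⟩ / x' ⟨s, j⟩ := by
      rw [hx']
      have := hlam0 s
      field_simp
    rw [SetLike.mem_coe, h1]
    exact div_mem (IntermediateField.subset_adjoin _ _ ⟨_, rfl⟩)
      (IntermediateField.subset_adjoin _ _ ⟨_, rfl⟩)
  have hgen' : Algebra.IsAlgebraic (IntermediateField.adjoin K (Set.range x')) L := by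
    refine ⟨fun f => ?_⟩
    have h3 := hgen.isAlgebraic f
    exact Pool.Agent.TH145.MF.alg_mono (F1 := (CoordsP K x).toSubfield)
      (F2 := (IntermediateField.adjoin K (Set.range x')).toSubfield) (fun z hz => hsub hz) h3
  have hval : ∀ a, ∑ J ∈ Mn a, algebraMap K L ((F a).coeff J) * mn x' J = aeval x' (F a) :=
    fun a => (aeval_sum (F := F a) (M := Mn a) (fun J hJ =>
      (hMn a J).2 ((hF a).mdeg J hJ)) x').symm
  refine general_ratio (k0 := k0) (β := Sigma.fst) (d := d)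
    blk_sigma hMn (t := fun a J => (F a).coeff J) h0 (V := V) hBi hBc
    (l0 := fun s => ⟨s, c0 s⟩)
    (fun _ => rfl) (hypL_of_dim (fun L _ _ x hx hVx => dim_multi hV c0 L x hx hVx) hd) hw htr
    (x := x') hx1 hgen' (fun f hf => ?_) fun a => ?_
  · obtain ⟨e, he⟩ := hVh f hf
    have h4 := hxV f hf
    rw [aeval_map_algebraMap] at h4
    rw [hx']
    have h1 := aeval_scale (L := L) (β := Sigma.fst) he.mdeg lam
      (fun i : Σ s, Fin (n s + 1) => x i.1 i.2)
    rw [h4, mul_zero] at h1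
    exact h1
  · rw [hval, hx']
    have h1 := aeval_scale (L := L) (β := Sigma.fst) (hF a).mdeg lam
      (fun i : Σ s, Fin (n s + 1) => x i.1 i.2)
    rw [hxF, mul_zero] at h1
    exact h1

end multi

end Pool.Agent.KS6_26.D
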