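import Pool.Agent.KS6_26.D.Rank

/-!
The numerical condition at a point, and the choice of a determinant.
-/

set_option autoImplicit false

open FF Pool.Agent.W603.LV Pool.Agent.W603.PV
open Pool.Agent.TH145.GC (exists_minor)

namespace Pool.Agent.KS6_26.D

/-- The numerical condition at a point. -/
def NumC (k0 : Type) {K : Type} [Field k0] [Field K] [Algebra k0 K] {ι S A : Type} [Fintype A]
    (β : ι → S) (d : A → S → ℕ) (δ w : ℕ) (x : ι → K) (u : A → K) : Prop :=
  ∃ (r f : ℕ) (m : S → ℕ), Module.finrank K (DI k0 x) ≤ r ∧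
    (∀ s, Module.finrank K (DI k0 fun l : {l // β l = s} => x l) ≤ m s) ∧
    Module.finrank K (Vt k0 x u) ≤ f ∧
    ∀ B : Finset A, Fintype.card A ≤ B.card + f →
      ∀ s, r + m s + 2 + δ ≤ ∑ a ∈ B, (d a s + 1) + w

/-- The indices of the position vectors and of the vertical fields. -/
def Vert (ι S A X : Type) : Set (Gx ι S A X) := {g | (∃ s, g = Sum.inl s) ∨
  ∃ ξ, g = Sum.inr (Sum.inl ξ)}

section count

variable {ι S A X : Type} [Fintype S] [Fintype X] [Fintype A]

open scoped Classical in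
theorem count_rows (β : ι → S) {b : Finset (Gx ι S A X ⊕ A)}
    (hb : ∀ v ∈ Vert ι S A X, Sum.inl v ∈ b) (s : S) :
    (b.filter fun i => ∃ t, i = Sum.inl (Sum.inr (Sum.inr t)) ∧ β t.2.2.1 = s).card +
      Fintype.card S + Fintype.card X + (Finset.univ.filter fun a : A => Sum.inr a ∈ b).card ≤
      b.card := by
  have h1 : Fintype.card S ≤ (b.filter fun i => ∃ s, i = Sum.inl (Sum.inl s)).card := by
    rw [← Finset.card_univ, ← Finset.card_image_of_injective (f := fun s : S =>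
      (Sum.inl (Sum.inl s) : Gx ι S A X ⊕ A)) Finset.univ (fun a b h => by simpa using h)]
    refine Finset.card_le_card fun i hi => ?_
    obtain ⟨s, -, rfl⟩ := Finset.mem_image.1 hi
    exact Finset.mem_filter.2 ⟨hb _ (Or.inl ⟨s, rfl⟩), s, rfl⟩
  have h2 : Fintype.card X ≤ (b.filter fun i => ∃ ξ, i = Sum.inl (Sum.inr (Sum.inl ξ))).card := by
    rw [← Finset.card_univ, ← Finset.card_image_of_injective (f := fun ξ : X =>
      (Sum.inl (Sum.inr (Sum.inl ξ)) : Gx ι S A X ⊕ A)) Finset.univ (fun a b h => by simpa using h)]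
    refine Finset.card_le_card fun i hi => ?_
    obtain ⟨s, -, rfl⟩ := Finset.mem_image.1 hi
    exact Finset.mem_filter.2 ⟨hb _ (Or.inr ⟨s, rfl⟩), s, rfl⟩
  have h4 : (Finset.univ.filter fun a : A => Sum.inr a ∈ b).card ≤
      (b.filter fun i => ∃ a, i = Sum.inr a).card := by
    rw [← Finset.card_image_of_injective (f := fun a : A =>
      (Sum.inr a : Gx ι S A X ⊕ A)) _ (fun a b h => by simpa using h)]
    refine Finset.card_le_card fun i hi => ?_
    obtain ⟨a, ha, rfl⟩ := Finset.mem_image.1 hi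
    exact Finset.mem_filter.2 ⟨(Finset.mem_filter.1 ha).2, a, rfl⟩
  have h5 : (b.filter fun i => ∃ t, i = Sum.inl (Sum.inr (Sum.inr t)) ∧ β t.2.2.1 = s).card +
      (b.filter fun i => ∃ s, i = Sum.inl (Sum.inl s)).card +
      (b.filter fun i => ∃ ξ, i = Sum.inl (Sum.inr (Sum.inl ξ))).card +
      (b.filter fun i => ∃ a, i = Sum.inr a).card ≤ b.card := by
    simp only [Finset.card_filter]
    rw [Finset.card_eq_sum_ones b, ← Finset.sum_add_distrib, ← Finset.sum_add_distrib,
      ← Finset.sum_add_distrib]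
    refine Finset.sum_le_sum fun i _ => ?_
    rcases i with (s | ξ | t) | a
    · simp
    · simp
    · simp only [Sum.inl.injEq, Sum.inr.injEq, reduceCtorEq, exists_false, if_false, add_zero]
      split_ifs <;> simp
    · simp
  omega

end count

section good

variable {k0 K : Type} [Field k0] [Field K] [Algebra k0 K] {ι S A X Δ : Type} [DecidableEq S]
  [Fintype S] {β : ι → S} {d : A → S → ℕ}
  {D : A → (ι →₀ ℕ) → Derivation ℤ K K} {c : A → (ι →₀ ℕ) → Δ → K} {E : X → Derivation ℤ K K}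
  {x : ι → K} [Fintype X] [Fintype A] [Fintype Δ] [Fintype ι]
  {t ε : A → (ι →₀ ℕ) → K} {q : Δ → A × (ι →₀ ℕ)}

open scoped Classical in
/-- The choice of the rows and the columns. -/
theorem Rel.exists_good (h : Rel k0 β d D c E t ε q) {Mn : A → Finset (ι →₀ ℕ)}
    (hMn : ∀ a I, I ∈ Mn a ↔ mdeg β I = d a)
    (hε : ∀ a I, ε a I * ∑ J ∈ Mn a, t a J * mn x J = 0) {l0 : S → ι}
    (hl0 : ∀ s, β (l0 s) = s) (hx0 : ∀ s, x (l0 s) = 1) {e : S → ι} (he : ∀ s, β (e s) = s)
    (hx : ∀ s, x (e s) ≠ 0) (hV : LinearIndepOn K (gen β d D c E x) (Vert ι S A X))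
    (hnum : NumC k0 β d (Fintype.card Δ) (Fintype.card X) x fun a => ∑ J ∈ Mn a, t a J * mn x J) :
    ∃ (b : Finset (Gx ι S A X ⊕ A)) (σ : b → ι ⊕ Δ), (∀ v ∈ Vert ι S A X, Sum.inl v ∈ b) ∧
      (Submodule.span K (Set.range (gen β d D c E x)) ≤
        Submodule.span K (gen β d D c E x '' {g | Sum.inl g ∈ b})) ∧
      (mx β d D c E x (fun a => std e (d a)) b σ).det ≠ 0 ∧
      (∀ s, wt β σ s + 1 ≤ dsum d b s) ∧ b.card ≤ Fintype.card ι + Fintype.card Δ := by
  obtain ⟨b, hb, hbi, hspan, hfull⟩ := exists_rows (D := D) (c := c) (E := E) he hx hV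
  obtain ⟨σ, hσ⟩ := exists_minor _ hbi
  have hdet : (mx β d D c E x (fun a => std e (d a)) b σ).det ≠ 0 := by
    unfold mx
    convert hσ
  obtain ⟨r, f, m, hr, hm, hf, hB⟩ := hnum
  have hcard : Module.finrank K (Full β d D c E x) = b.card := by
    rw [← hfull, finrank_span_eq_card hbi, Fintype.card_coe]
  have h1 := h.card_le hMn hε hl0 hx0 he hx hfull hf
  have h2 := finrank_full_le (β := β) (d := d) (D := D) (c := c) (E := E) (x := x) h.Dk h.Ek
  refine ⟨b, σ, hb, hspan, hdet, fun s => ?_, ?_⟩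
  · have h3 := hB _ h1 s
    have h4 := card_cols_le (k0 := k0) h.Dk h.Ek (fun a => mdeg_std he (d a)) hdet s
    have h5 := count_rows β hb s
    have h6 := hm s
    have h7 : dsum d b s = ∑ a ∈ Finset.univ.filter (fun a : A => Sum.inr a ∈ b), d a s := by
      unfold dsum
      have h8 : ∑ i ∈ b, Sum.elim (fun _ => 0) (fun a => d a s) i =
          ∑ i ∈ (Finset.univ.filter fun a : A => Sum.inr a ∈ b).image
            (Sum.inr : A → Gx ι S A X ⊕ A), Sum.elim (fun _ => 0) (fun a => d a s) i := by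
        symm
        refine Finset.sum_subset (fun i hi => ?_) (fun i hi hni => ?_)
        · obtain ⟨a, ha, rfl⟩ := Finset.mem_image.1 hi
          exact (Finset.mem_filter.1 ha).2
        · rcases i with g | a
          · rfl
          · exact absurd (Finset.mem_image.2 ⟨a, Finset.mem_filter.2 ⟨Finset.mem_univ _, hi⟩, rfl⟩)
              hni
      rw [h8, Finset.sum_image (fun a _ b _ h => Sum.inr_injective h)]
      rfl
    rw [Finset.sum_add_distrib, Finset.sum_const, smul_eq_mul, mul_one, ← h7] at h3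
    unfold wt
    omega
  · rw [← hcard]
    refine (Submodule.finrank_le _).trans ?_
    rw [Module.finrank_pi, Fintype.card_sum]

omit [Fintype S] [Fintype X] [Fintype A] [Fintype Δ] [Fintype ι] in
/-- The position vectors are independent. -/
theorem indep_pos [Finite S] {l0 : S → ι} (hl0 : ∀ s, β (l0 s) = s) (hx0 : ∀ s, x (l0 s) = 1)
    [IsEmpty X] : LinearIndepOn K (gen β d D c E x) (Vert ι S A X) := by
  have := Fintype.ofFinite S
  have h1 : Vert ι S A X = Sum.inl '' Set.univ := by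
    ext g
    constructor
    · rintro (⟨s, rfl⟩ | ⟨ξ, rfl⟩)
      · exact ⟨s, trivial, rfl⟩
      · exact isEmptyElim ξ
    · rintro ⟨s, -, rfl⟩
      exact Or.inl ⟨s, rfl⟩
  rw [h1]
  refine LinearIndepOn.image_of_comp _ _ ?_
  rw [linearIndepOn_univ_iff, Fintype.linearIndependent_iff]
  intro r hr s
  have h2 := congrFun hr (Sum.inl (l0 s))
  rw [Finset.sum_apply, Finset.sum_eq_single s] at h2
  · simpa [gen, hl0, hx0] using h2
  · intro s' _ hs
    simp [gen, hl0, hs.symm]
  · intro h; exact absurd (Finset.mem_univ s) h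

end good

section height

variable {k k0 K : Type} [Field k] [Field k0] [Field K] [Algebra k0 K] [Algebra k K]
  [IsAlgClosed k] [CharZero k] [IsFF k K] {ι S A Δ : Type} [DecidableEq S]
  [Fintype S] {β : ι → S} {d : A → S → ℕ}
  {D : A → (ι →₀ ℕ) → Derivation ℤ K K} {c : A → (ι →₀ ℕ) → Δ → K}
  {x : ι → K} [Fintype A] [Fintype Δ] [Fintype ι]
  {t : A → (ι →₀ ℕ) → K} {q : Δ → A × (ι →₀ ℕ)} {n : S → ℕ} {en : ∀ s, Fin (n s + 1) → ι}

/-- The height inequality. -/
theorem Rel.height (h : Rel k0 β d D c (fun ξ : Empty => ξ.elim) t 0 q)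
    {Mn : A → Finset (ι →₀ ℕ)}
    (hMn : ∀ a I, I ∈ Mn a ↔ mdeg β I = d a) (hB : Blk β n en) {e : Place k K → ℤ}
    (hloc : ∀ P, Loc P D c (fun ξ : Empty => ξ.elim) (e P)) (hfin : {P | e P ≠ 0}.Finite)
    {l0 : S → ι} (hl0 : ∀ s, β (l0 s) = s) (hx0 : ∀ s, x (l0 s) = 1)
    (hnum : NumC k0 β d (Fintype.card Δ) 0 x fun a => ∑ J ∈ Mn a, t a J * mn x J) (s : S) :
    pht k (fun j => x (en s j)) ≤ ∑ᶠ P, (Fintype.card ι + Fintype.card Δ) * e P := by
  have hx : ∀ s, x (l0 s) ≠ 0 := fun s => by rw [hx0]; exact one_ne_zero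
  obtain ⟨b, σ, hb, hspan, hdet, hwt, hcard⟩ := h.exists_good hMn
    (fun a I => by rw [Pi.zero_apply, Pi.zero_apply, zero_mul]) hl0 hx0 hl0 hx
    (indep_pos hl0 hx0) hnum
  exact_mod_cast ineq hB hloc hfin hl0 hx (fun s => hb _ (Or.inl ⟨s, rfl⟩)) σ hspan hdet hwt
    hcard s

end height

end Pool.Agent.KS6_26.D
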