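import Pool.Agent.KS6_26.D.Local
import Pool.Graph.R_seed8.TH145.GC.Rank

/-!
The dimensions of the spaces of derivatives.
-/

set_option autoImplicit false

open FF AlgebraicIndependent Pool.Agent.TH145.MG
open Pool.Agent.TH145.GC (der_zero_of_alg)

namespace Pool.Agent.KS6_26.D

section DI

variable {k0 K : Type} [Field k0] [Field K] [Algebra k0 K] {J : Type}

/-- The derivatives of the family `z` by the derivations over `k0`. -/
def DI (k0 : Type) {K : Type} [Field k0] [Field K] [Algebra k0 K] {J : Type} (z : J → K) :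
    Submodule K (J → K) where
  carrier := {y | ∃ D : Derivation ℤ K K, (∀ r : k0, D (algebraMap k0 K r) = 0) ∧
    ∀ j, y j = D (z j)}
  add_mem' := by
    rintro y z ⟨D, h1, h3⟩ ⟨D', h1', h3'⟩
    exact ⟨D + D', fun r => by rw [Derivation.add_apply, h1, h1', add_zero],
      fun a => by rw [Pi.add_apply, h3, h3', Derivation.add_apply]⟩
  zero_mem' := ⟨0, fun _ => rfl, fun _ => rfl⟩
  smul_mem' := by
    rintro s y ⟨D, h1, h3⟩
    exact ⟨s • D, fun r => by rw [Derivation.smul_apply, h1, smul_zero],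
      fun a => by rw [Pi.smul_apply, h3, Derivation.smul_apply]⟩

theorem exists_basisF [Finite J] (z : J → K) (F : IntermediateField k0 K) (hz : ∀ j, z j ∈ F)
    {m : ℕ} (h : Algebra.trdeg k0 F ≤ m) :
    ∃ I : Finset J, I.card ≤ m ∧ ∀ i, z i ∈ cl k0 (z '' I) := by
  classical
  obtain ⟨B, hB⟩ := (matroid k0 K).exists_isBasis (Set.range z)
  have hBi : AlgebraicIndependent k0 ((↑) : B → K) := hB.indep
  have hBx : B ⊆ Set.range z := hB.subset
  have hBfin : B.Finite := (Set.finite_range z).subset hBx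
  have hcl : ∀ i, z i ∈ (matroid k0 K).closure B := fun i => hB.subset_closure ⟨i, rfl⟩
  have := hBfin.fintype
  choose f hf using fun b : B => hBx b.2
  have hBc : Fintype.card B ≤ m := by
    let y : B → F := fun b => ⟨b.1, by rw [← hf b]; exact hz _⟩
    have hy : AlgebraicIndependent k0 y := by
      apply AlgebraicIndependent.of_comp F.val
      exact hBi
    have h1 := hy.cardinalMk_le_trdeg.trans h
    rw [Cardinal.mk_fintype] at h1
    exact_mod_cast h1
  refine ⟨Finset.univ.image f, ?_, ?_⟩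
  · exact (Finset.card_image_le).trans (by rw [Finset.card_univ]; exact hBc)
  · intro i
    have h1 : z '' (Finset.univ.image f : Finset J) = B := by
      ext w
      constructor
      · rintro ⟨i, hi, rfl⟩
        obtain ⟨b, -, rfl⟩ := Finset.mem_image.1 (Finset.mem_coe.1 hi)
        rw [hf b]
        exact b.2
      · intro hw
        exact ⟨f ⟨w, hw⟩, Finset.mem_coe.2 (Finset.mem_image_of_mem _ (Finset.mem_univ _)),
          hf ⟨w, hw⟩⟩
    rw [h1, mem_cl_iff]
    exact hcl i

theorem der_zero_of_cl [CharZero K] (D : Derivation ℤ K K)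
    (hD : ∀ r : k0, D (algebraMap k0 K r) = 0) {S : Set K} (hS : ∀ s ∈ S, D s = 0) {x : K}
    (hx : x ∈ cl k0 S) : D x = 0 := by
  have hZ : ∀ w ∈ Subfield.closure (Set.range (algebraMap k0 K) ∪ S), D w = 0 := by
    intro w hw
    induction hw using Subfield.closure_induction with
    | mem w hw =>
      rcases hw with ⟨r, rfl⟩ | hi
      · exact hD r
      · exact hS _ hi
    | one => exact D.map_one_eq_zero
    | add a b _ _ ha hb => rw [map_add, ha, hb, add_zero]
    | neg a _ ha => rw [map_neg, ha, neg_zero]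
    | inv a _ ha => rw [Derivation.leibniz_inv, ha, smul_zero]
    | mul a b _ _ ha hb => rw [D.leibniz, ha, hb, smul_zero, smul_zero, add_zero]
  refine der_zero_of_alg D _ hZ ?_
  have h2 := mem_cl.1 hx
  have h3 : (IntermediateField.adjoin k0 S).toSubfield =
    Subfield.closure (Set.range (algebraMap k0 K) ∪ S) :=
    IntermediateField.adjoin_toSubfield _ _
  rw [← h3]
  exact h2

theorem finrank_DI_le [CharZero K] [Finite J] (z : J → K) (F : IntermediateField k0 K)
    (hz : ∀ j, z j ∈ F) {m : ℕ} (h : Algebra.trdeg k0 F ≤ m) :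
    Module.finrank K (DI k0 z) ≤ m := by
  classical
  have := Fintype.ofFinite J
  obtain ⟨I, hI, hIz⟩ := exists_basisF z F hz h
  obtain ⟨ρ, hρ⟩ : ∃ ρ : DI k0 z →ₗ[K] ({i // i ∈ I} → K), ∀ z i, ρ z i = z.1 i.1 :=
    ⟨{ toFun := fun z i => z.1 i.1
       map_add' := fun _ _ => rfl
       map_smul' := fun _ _ => rfl }, fun _ _ => rfl⟩
  have hinj : Function.Injective ρ := by
    rw [← LinearMap.ker_eq_bot, LinearMap.ker_eq_bot']
    rintro ⟨y, D, hD, hy⟩ h0
    have h1 : ∀ i ∈ I, D (z i) = 0 := fun i hi => by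
      have := congrFun h0 ⟨i, hi⟩
      rw [hρ] at this
      rw [← hy]
      exact this
    apply Subtype.ext
    funext l
    change y l = 0
    rw [hy]
    refine der_zero_of_cl D hD ?_ (hIz l)
    rintro _ ⟨i, hi, rfl⟩
    exact h1 i hi
  have h1 := LinearMap.finrank_le_finrank_of_injective hinj
  rw [Module.finrank_pi, Fintype.card_coe] at h1
  omega

/-- Sums of a derivative of `z`, and of `z` multiplied by factors. -/
def TD (k0 : Type) {K : Type} [Field k0] [Field K] [Algebra k0 K] {J S : Type} (γ : J → S)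
    (z : J → K) : Submodule K (J → K) :=
  DI k0 z ⊔ LinearMap.range
    ({ toFun := fun r j => r (γ j) * z j
       map_add' := fun _ _ => funext fun _ => add_mul _ _ _
       map_smul' := fun _ _ => funext fun _ => mul_assoc _ _ _ } : (S → K) →ₗ[K] (J → K))

theorem mem_TD {S : Type} {γ : J → S} {z : J → K} {y : J → K} (D : Derivation ℤ K K) (r : S → K)
    (hD : ∀ r : k0, D (algebraMap k0 K r) = 0) (h : ∀ j, y j = D (z j) + r (γ j) * z j) :
    y ∈ TD k0 γ z := by
  have h1 : y = (fun j => D (z j)) + fun j => r (γ j) * z j := funext h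
  rw [h1]
  exact Submodule.add_mem_sup ⟨D, hD, fun _ => rfl⟩ ⟨r, rfl⟩

theorem of_mem_TD {S : Type} {γ : J → S} {z : J → K} {y : J → K} (h : y ∈ TD k0 γ z) :
    ∃ (D : Derivation ℤ K K) (r : S → K), (∀ r : k0, D (algebraMap k0 K r) = 0) ∧
      ∀ j, y j = D (z j) + r (γ j) * z j := by
  obtain ⟨y1, ⟨D, hD, hy1⟩, y2, ⟨r, rfl⟩, rfl⟩ := Submodule.mem_sup.1 h
  exact ⟨D, r, hD, fun j => by rw [Pi.add_apply, hy1]; rfl⟩

theorem finrank_TD_le {S : Type} [Fintype S] [Finite J] (γ : J → S) (z : J → K) :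
    Module.finrank K (TD k0 γ z) ≤ Module.finrank K (DI k0 z) + Fintype.card S := by
  have := Fintype.ofFinite J
  refine (Submodule.finrank_add_le_finrank_add_finrank _ _).trans (Nat.add_le_add_left ?_ _)
  refine (LinearMap.finrank_range_le _).trans ?_
  rw [Module.finrank_pi]

end DI

section full

variable {k0 K : Type} [Field k0] [Field K] [Algebra k0 K] {ι S A X Δ : Type} [DecidableEq S]
  [Fintype S] {β : ι → S} {d : A → S → ℕ}
  {D : A → (ι →₀ ℕ) → Derivation ℤ K K} {c : A → (ι →₀ ℕ) → Δ → K} {E : X → Derivation ℤ K K}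
  {x : ι → K}

omit [Fintype S] in
theorem full_le (hD : ∀ a I (r : k0), D a I (algebraMap k0 K r) = 0)
    (hE : ∀ ξ (r : k0), E ξ (algebraMap k0 K r) = 0) {w : ι ⊕ Δ → K}
    (hw : w ∈ Full β d D c E x) : (fun l => w (Sum.inl l)) ∈ TD k0 β x := by
  have h1 : Full β d D c E x ≤ (TD k0 β x).comap (LinearMap.funLeft K K Sum.inl) := by
    have hEv : ∀ a I, Ev D c x a I ∈ (TD k0 β x).comap (LinearMap.funLeft K K Sum.inl) :=
      fun a I => mem_TD (D a I) 0 (hD a I) fun l => by
        simp [Ev, LinearMap.funLeft_apply]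
    rw [Full, Submodule.span_le]
    rintro _ (⟨g, rfl⟩ | ⟨a, I, -, rfl⟩)
    · rcases g with s | ξ | t
      · refine mem_TD 0 (Pi.single s 1) (fun _ => rfl) fun l => ?_
        by_cases hs : β l = s
        · subst hs
          simp [gen, LinearMap.funLeft_apply]
        · simp [gen, LinearMap.funLeft_apply, hs]
      · exact mem_TD (E ξ) 0 (hE ξ) fun l => by simp [gen, LinearMap.funLeft_apply]
      · simp only [gen]
        split_ifs
        · exact sub_mem (Submodule.smul_mem _ _ (hEv _ _)) (Submodule.smul_mem _ _ (hEv _ _))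
        · exact zero_mem _
    · exact hEv a I
  exact h1 hw

/-- The dimension of the space of all vectors. -/
theorem finrank_full_le [Finite ι] [Fintype Δ]
    (hD : ∀ a I (r : k0), D a I (algebraMap k0 K r) = 0)
    (hE : ∀ ξ (r : k0), E ξ (algebraMap k0 K r) = 0) :
    Module.finrank K (Full β d D c E x) ≤
      Module.finrank K (DI k0 x) + Fintype.card S + Fintype.card Δ := by
  have := Fintype.ofFinite ι
  obtain ⟨ρ, hρ⟩ : ∃ ρ : Full β d D c E x →ₗ[K] TD k0 β x × (Δ → K), ∀ w,
      ((ρ w).1 : ι → K) = (fun l => w.1 (Sum.inl l)) ∧ (ρ w).2 = fun δ => w.1 (Sum.inr δ) :=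
    ⟨{ toFun := fun w => (⟨fun l => w.1 (Sum.inl l), full_le hD hE w.2⟩,
         fun δ => w.1 (Sum.inr δ))
       map_add' := fun _ _ => rfl
       map_smul' := fun _ _ => rfl }, fun _ => ⟨rfl, rfl⟩⟩
  have hinj : Function.Injective ρ := by
    intro v w h
    apply Subtype.ext
    funext i
    rcases i with l | δ
    · have h1 := congrArg (fun p => (p.1 : ι → K)) h
      simp only [(hρ v).1, (hρ w).1] at h1
      exact congrFun h1 l
    · have h1 := congrArg (fun p => p.2) h
      simp only [(hρ v).2, (hρ w).2] at h1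
      exact congrFun h1 δ
  have h1 := LinearMap.finrank_le_finrank_of_injective hinj
  rw [Module.finrank_prod, Module.finrank_pi] at h1
  have h2 := finrank_TD_le (k0 := k0) β x
  omega

omit [Fintype S] in
open scoped Classical in
/-- The number of the columns in a block. -/
theorem card_cols_le [Finite ι] {b : Finset (Gx ι S A X ⊕ A)} {σ : b → ι ⊕ Δ}
    (hD : ∀ a I (r : k0), D a I (algebraMap k0 K r) = 0)
    (hE : ∀ ξ (r : k0), E ξ (algebraMap k0 K r) = 0) {I : A → ι →₀ ℕ}
    (hI : ∀ a, mdeg β (I a) = d a)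
    (hdet : (mx β d D c E x I b σ).det ≠ 0) (s : S) :
    (Finset.univ.filter fun j : b => ∃ l, σ j = Sum.inl l ∧ β l = s).card ≤
      Module.finrank K (DI k0 fun l : {l // β l = s} => x l) + 1 := by
  obtain ⟨J, hJ⟩ : ∃ J : Finset b, J = Finset.univ.filter
    fun j : b => ∃ l, σ j = Sum.inl l ∧ β l = s := ⟨_, rfl⟩
  rw [← hJ]
  have hJm : ∀ j ∈ J, ∃ l, σ j = Sum.inl l ∧ β l = s := fun j hj => by
    rw [hJ] at hj
    exact (Finset.mem_filter.1 hj).2
  clear hJ
  have := Fintype.ofFinite ι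
  obtain ⟨M, hM⟩ : ∃ M, M = mx β d D c E x I b σ := ⟨_, rfl⟩
  rw [← hM] at hdet
  have hMu : IsUnit M.det := isUnit_iff_ne_zero.2 hdet
  have hJl : ∀ j : J, ∃ l : {l // β l = s}, σ j.1 = Sum.inl l.1 := by
    rintro ⟨j, h1⟩
    obtain ⟨l, h2, h3⟩ := hJm j h1
    exact ⟨⟨l, h3⟩, h2⟩
  choose l hl using hJl
  obtain ⟨ρ, hρ⟩ : ∃ ρ : TD k0 (fun _ : {l // β l = s} => ()) (fun l : {l // β l = s} => x l)
      →ₗ[K] (J → K), ∀ y j, ρ y j = y.1 (l j) :=
    ⟨{ toFun := fun y j => y.1 (l j)
       map_add' := fun _ _ => rfl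
       map_smul' := fun _ _ => rfl }, fun _ _ => rfl⟩
  have hsurj : Function.Surjective ρ := by
    intro y
    obtain ⟨y', hy'⟩ : ∃ y' : b → K, ∀ j, y' j = if h : j ∈ J then y ⟨j, h⟩ else 0 :=
      ⟨_, fun _ => rfl⟩
    obtain ⟨w, hw⟩ : ∃ w : ι ⊕ Δ → K, w = ∑ i, (Matrix.vecMul y' M⁻¹) i •
      vv β d D c E x I i.1 := ⟨_, rfl⟩
    have hwF : w ∈ Full β d D c E x := by
      rw [hw]
      refine sum_mem fun i _ => Submodule.smul_mem _ _ ?_
      rcases h : i.1 with g | a
      · exact gen_mem_full g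
      · exact Ev_mem_full (hI a)
    have hwy : ∀ j, w (σ j) = y' j := by
      intro j
      have h1 : Matrix.vecMul (Matrix.vecMul y' M⁻¹) M = y' := by
        rw [Matrix.vecMul_vecMul, Matrix.nonsing_inv_mul _ hMu, Matrix.vecMul_one]
      have h2 := congrFun h1 j
      rw [← h2, hw, Finset.sum_apply]
      conv_rhs => rw [Matrix.vecMul, dotProduct]
      refine Finset.sum_congr rfl fun i _ => ?_
      rw [hM]
      rfl
    obtain ⟨D', r, h1, h2⟩ := of_mem_TD (full_le hD hE hwF)
    refine ⟨⟨fun l => w (Sum.inl l.1), mem_TD D' (fun _ => r s) h1 fun l => ?_⟩, ?_⟩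
    · rw [h2, l.2]
    · funext j
      rw [hρ]
      change w (Sum.inl (l j).1) = y j
      rw [← hl, hwy, hy', dif_pos j.2]
  have h1 := LinearMap.finrank_le_finrank_of_surjective hsurj
  rw [Module.finrank_pi, Fintype.card_coe] at h1
  refine h1.trans ((finrank_TD_le (k0 := k0) _ _).trans ?_)
  rw [Fintype.card_unit]

end full

end Pool.Agent.KS6_26.D
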