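import Pool.Agent.KS6_26.D.Vec

/-!
The choice of the rows.
-/

set_option autoImplicit false

namespace Pool.Agent.KS6_26.D

variable {K : Type} [Field K] {ι S A X Δ : Type} [DecidableEq S] [Fintype S]

/-- The span of all the vector fields. -/
noncomputable def Full (β : ι → S) (d : A → S → ℕ) (D : A → (ι →₀ ℕ) → Derivation ℤ K K)
    (c : A → (ι →₀ ℕ) → Δ → K) (E : X → Derivation ℤ K K) (x : ι → K) :
    Submodule K (ι ⊕ Δ → K) :=
  Submodule.span K (Set.range (gen β d D c E x) ∪ {v | ∃ a I, mdeg β I = d a ∧ v = Ev D c x a I})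

section

variable {β : ι → S} {d : A → S → ℕ} {D : A → (ι →₀ ℕ) → Derivation ℤ K K}
  {c : A → (ι →₀ ℕ) → Δ → K} {E : X → Derivation ℤ K K} {x : ι → K}

omit [Fintype S] in
theorem gen_mem_full (g : Gx ι S A X) : gen β d D c E x g ∈ Full β d D c E x :=
  Submodule.subset_span (Or.inl ⟨g, rfl⟩)

omit [Fintype S] in
theorem Ev_mem_full {a : A} {I : ι →₀ ℕ} (hI : mdeg β I = d a) :
    Ev D c x a I ∈ Full β d D c E x := Submodule.subset_span (Or.inr ⟨a, I, hI, rfl⟩)

omit [Fintype S] in
theorem span_gen_le : Submodule.span K (Set.range (gen β d D c E x)) ≤ Full β d D c E x :=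
  Submodule.span_mono Set.subset_union_left

/-- The choice of the rows. -/
theorem exists_rows {e : S → ι} (he : ∀ s, β (e s) = s) (hx : ∀ s, x (e s) ≠ 0)
    {Vert : Set (Gx ι S A X)} (hV : LinearIndepOn K (gen β d D c E x) Vert) [Finite ι] [Finite Δ] :
    ∃ b : Finset (Gx ι S A X ⊕ A), (∀ v ∈ Vert, Sum.inl v ∈ b) ∧
      LinearIndependent K (fun i : b => vv β d D c E x (fun a => std e (d a)) i) ∧
      (Submodule.span K (Set.range (gen β d D c E x)) ≤
        Submodule.span K (gen β d D c E x '' {g | Sum.inl g ∈ b})) ∧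
      Submodule.span K (Set.range fun i : b => vv β d D c E x (fun a => std e (d a)) i) =
        Full β d D c E x := by
  classical
  have := Fintype.ofFinite ι
  have := Fintype.ofFinite Δ
  obtain ⟨v, hv⟩ : ∃ v, v = vv β d D c E x (fun a => std e (d a)) := ⟨_, rfl⟩
  have hs0 : LinearIndepOn K v (Sum.inl '' Vert) := by
    refine LinearIndepOn.image_of_comp _ _ ?_
    rw [hv]
    exact hV
  obtain ⟨b0, hb0, hs0b, hspan0, hb0i⟩ := exists_linearIndepOn_extension hs0
    (t := Set.range Sum.inl) (by rintro _ ⟨g, -, rfl⟩; exact ⟨g, rfl⟩)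
  obtain ⟨b1, -, hb1, hspan1, hb1i⟩ := exists_linearIndepOn_extension hb0i
    (Set.subset_univ _)
  have hb1i' : LinearIndependent K (fun i : b1 => v i) := hb1i
  have hfin : b1.Finite := by
    have := hb1i'.finite
    exact Set.toFinite b1
  obtain ⟨b, hb⟩ : ∃ b : Finset (Gx ι S A X ⊕ A), (b : Set _) = b1 :=
    ⟨hfin.toFinset, hfin.coe_toFinset⟩
  have hbm : ∀ i, i ∈ b ↔ i ∈ b1 := fun i => by rw [← hb, Finset.mem_coe]
  have hbi : LinearIndependent K (fun i : b => v i) := by
    have h1 : LinearIndepOn K v (b : Set _) := by rw [hb]; exact hb1i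
    exact h1
  refine ⟨b, fun g hg => ?_, ?_, ?_, ?_⟩
  · rw [hbm]; exact hb1 (hs0b ⟨g, hg, rfl⟩)
  · rw [← hv]; exact hbi
  · rw [Submodule.span_le]
    rintro _ ⟨o, rfl⟩
    have h1 := hspan0 ⟨Sum.inl o, ⟨o, rfl⟩, rfl⟩
    have h2 : v (Sum.inl o) = gen β d D c E x o := by rw [hv]; rfl
    rw [h2] at h1
    refine Submodule.span_mono ?_ h1
    rintro _ ⟨i, hi, rfl⟩
    obtain ⟨o', rfl⟩ := hb0 hi
    refine ⟨o', ?_, by rw [hv]; rfl⟩
    rw [Set.mem_ofPred_eq, hbm]
    exact hb1 hi
  · rw [← hv]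
    have h2 : ∀ i, v i ∈ Submodule.span K (Set.range fun i : b => v i) := by
      intro i
      have h3 := hspan1 ⟨i, Set.mem_univ _, rfl⟩
      rw [← hb, Set.image_eq_range] at h3
      exact h3
    have h3 : ∀ o, gen β d D c E x o ∈ Submodule.span K (Set.range fun i : b => v i) := by
      intro o
      have := h2 (Sum.inl o)
      rwa [hv] at this ⊢
    apply le_antisymm
    · rw [Submodule.span_le]
      rintro _ ⟨i, rfl⟩
      rw [hv]
      rcases h : i.1 with g | a
      · simp only [h]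
        exact gen_mem_full g
      · simp only [h]
        exact Ev_mem_full (mdeg_std he _)
    · rw [Full, Submodule.span_le]
      rintro _ (⟨o, rfl⟩ | ⟨a, I, hI, rfl⟩)
      · exact h3 o
      · have h4 := Ev_mod (D := D) (c := c) (E := E) he hx a hI
        have h5 : Submodule.span K (Set.range (gen β d D c E x)) ≤
            Submodule.span K (Set.range fun i : b => v i) := by
          rw [Submodule.span_le]
          rintro _ ⟨o, rfl⟩
          exact h3 o
        have h6 : Ev D c x a (std e (d a)) ∈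
            Submodule.span K (Set.range fun i : b => v i) := by
          have := h2 (Sum.inr a)
          rwa [hv] at this ⊢
        have h7 := add_mem (h5 h4) (Submodule.smul_mem _ (mn x I / mn x (std e (d a))) h6)
        rwa [sub_add_cancel] at h7

end

section count

open scoped Classical in
/-- The derivatives of the coefficients. -/
noncomputable def kr {K ι A : Type} [Field K] (t ε : A → (ι →₀ ℕ) → K) (a : A) (I : ι →₀ ℕ)
    (b : A) (J : ι →₀ ℕ) : K :=
  (if (a, I) = (b, J) then 1 else 0) + if a = b then ε a I * t b J else 0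

/-- The relation between the derivations, the coefficients `t` and the defects `c`. -/
structure Rel (k0 : Type) {K : Type} [Field k0] [Field K] [Algebra k0 K] {ι S A X Δ : Type}
    [DecidableEq S] (β : ι → S) (d : A → S → ℕ) (D : A → (ι →₀ ℕ) → Derivation ℤ K K)
    (c : A → (ι →₀ ℕ) → Δ → K) (E : X → Derivation ℤ K K) (t ε : A → (ι →₀ ℕ) → K)
    (q : Δ → A × (ι →₀ ℕ)) : Prop where
  Dk : ∀ a I (r : k0), D a I (algebraMap k0 K r) = 0
  Ek : ∀ ξ (r : k0), E ξ (algebraMap k0 K r) = 0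
  Et : ∀ ξ b J, mdeg β J = d b → E ξ (t b J) = 0
  qd : ∀ δ, mdeg β (q δ).2 = d (q δ).1
  cq : ∀ a I δ, mdeg β I = d a →
    c a I δ = kr t ε a I (q δ).1 (q δ).2 - D a I (t (q δ).1 (q δ).2)
  Dt : ∀ a I b J, mdeg β I = d a → mdeg β J = d b → (∀ δ, q δ ≠ (b, J)) →
    D a I (t b J) = kr t ε a I b J

/-- The derivatives of `u` by the derivations which vanish on `k0` and on `x`. -/
def Vt (k0 : Type) {K : Type} [Field k0] [Field K] [Algebra k0 K] {ι A : Type} (x : ι → K)
    (u : A → K) : Submodule K (A → K) where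
  carrier := {y | ∃ D : Derivation ℤ K K, (∀ r : k0, D (algebraMap k0 K r) = 0) ∧
    (∀ l, D (x l) = 0) ∧ ∀ a, y a = D (u a)}
  add_mem' := by
    rintro y z ⟨D, h1, h2, h3⟩ ⟨D', h1', h2', h3'⟩
    exact ⟨D + D', fun r => by rw [Derivation.add_apply, h1, h1', add_zero],
      fun l => by rw [Derivation.add_apply, h2, h2', add_zero],
      fun a => by rw [Pi.add_apply, h3, h3', Derivation.add_apply]⟩
  zero_mem' := ⟨0, fun _ => rfl, fun _ => rfl, fun _ => rfl⟩
  smul_mem' := by
    rintro s y ⟨D, h1, h2, h3⟩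
    exact ⟨s • D, fun r => by rw [Derivation.smul_apply, h1, smul_zero],
      fun l => by rw [Derivation.smul_apply, h2, smul_zero],
      fun a => by rw [Pi.smul_apply, h3, Derivation.smul_apply]⟩

variable {k0 : Type} [Field k0] [Algebra k0 K] {β : ι → S} {d : A → S → ℕ}
  {D : A → (ι →₀ ℕ) → Derivation ℤ K K} {c : A → (ι →₀ ℕ) → Δ → K} {E : X → Derivation ℤ K K}
  {t ε : A → (ι →₀ ℕ) → K} {q : Δ → A × (ι →₀ ℕ)}

/-- The pairs of a vector and the values of the forms. -/
def UU (k0 : Type) {K : Type} [Field k0] [Field K] [Algebra k0 K] {ι S A Δ : Type}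
    [DecidableEq S] (β : ι → S) (d : A → S → ℕ) (t : A → (ι →₀ ℕ) → K)
    (q : Δ → A × (ι →₀ ℕ)) (Mn : A → Finset (ι →₀ ℕ)) (x : ι → K) :
    Submodule K ((ι ⊕ Δ → K) × (A → K)) where
  carrier := {p | ∃ (D : Derivation ℤ K K) (r : S → K) (g : A → (ι →₀ ℕ) → K) (e : A → K),
    (∀ r : k0, D (algebraMap k0 K r) = 0) ∧
    (∀ l, p.1 (Sum.inl l) = D (x l) + r (β l) * x l) ∧
    (∀ δ, p.1 (Sum.inr δ) = g (q δ).1 (q δ).2 + e (q δ).1 * t (q δ).1 (q δ).2 -
      D (t (q δ).1 (q δ).2)) ∧
    (∀ b J, mdeg β J = d b → (∀ δ, q δ ≠ (b, J)) → D (t b J) = g b J + e b * t b J) ∧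
    (∀ b, p.2 b = ∑ J ∈ Mn b, g b J * mn x J) ∧
    ∀ b, e b * ∑ J ∈ Mn b, t b J * mn x J = 0}
  add_mem' := by
    rintro p p' ⟨D, r, g, e, h1, h2, h3, h4, h5, h6⟩ ⟨D', r', g', e', h1', h2', h3', h4', h5', h6'⟩
    refine ⟨D + D', r + r', fun b J => g b J + g' b J, e + e', fun z => ?_, fun l => ?_,
      fun δ => ?_, fun b J hJ hq => ?_, fun b => ?_, fun b => ?_⟩
    · rw [Derivation.add_apply, h1, h1', add_zero]
    · rw [Derivation.add_apply, Prod.fst_add, Pi.add_apply, h2, h2', Pi.add_apply]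
      ring
    · rw [Derivation.add_apply, Prod.fst_add, Pi.add_apply, h3, h3', Pi.add_apply]
      ring
    · rw [Derivation.add_apply, h4 b J hJ hq, h4' b J hJ hq, Pi.add_apply]
      ring
    · rw [Prod.snd_add, Pi.add_apply, h5, h5', ← Finset.sum_add_distrib]
      exact Finset.sum_congr rfl fun J _ => by ring
    · rw [Pi.add_apply, add_mul, h6, h6', add_zero]
  zero_mem' := ⟨0, 0, fun _ _ => 0, 0, fun _ => rfl, fun l => by simp, fun δ => by simp,
    fun _ _ _ _ => by simp, fun b => by simp, fun b => by simp⟩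
  smul_mem' := by
    rintro s p ⟨D, r, g, e, h1, h2, h3, h4, h5, h6⟩
    refine ⟨s • D, s • r, fun b J => s * g b J, s • e, fun z => ?_, fun l => ?_, fun δ => ?_,
      fun b J hJ hq => ?_, fun b => ?_, fun b => ?_⟩
    · rw [Derivation.smul_apply, h1, smul_zero]
    · rw [Derivation.smul_apply, Prod.smul_fst, Pi.smul_apply, h2, Pi.smul_apply, smul_eq_mul,
        smul_eq_mul, smul_eq_mul]
      ring
    · rw [Derivation.smul_apply, Prod.smul_fst, Pi.smul_apply, h3, smul_eq_mul, smul_eq_mul,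
        Pi.smul_apply, smul_eq_mul]
      ring
    · rw [Derivation.smul_apply, h4 b J hJ hq, smul_eq_mul, Pi.smul_apply, smul_eq_mul]
      ring
    · rw [Prod.smul_snd, Pi.smul_apply, h5, smul_eq_mul, Finset.mul_sum]
      exact Finset.sum_congr rfl fun J _ => by ring
    · rw [Pi.smul_apply, smul_eq_mul, mul_assoc, h6, mul_zero]

omit [Fintype S] in
open scoped Classical in
theorem Rel.Ev_mem (h : Rel k0 β d D c E t ε q) {Mn : A → Finset (ι →₀ ℕ)}
    (hMn : ∀ a I, I ∈ Mn a ↔ mdeg β I = d a) {x : ι → K}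
    (hε : ∀ a I, ε a I * ∑ J ∈ Mn a, t a J * mn x J = 0) {a : A} {I : ι →₀ ℕ}
    (hI : mdeg β I = d a) :
    ((Ev D c x a I, Pi.single a (mn x I)) : (ι ⊕ Δ → K) × (A → K)) ∈ UU k0 β d t q Mn x := by
  have hkr : ∀ b J, kr t ε a I b J = (if (a, I) = (b, J) then 1 else 0) +
      (Pi.single a (ε a I) : A → K) b * t b J := by
    intro b J
    unfold kr
    congr 1
    by_cases hab : a = b
    · subst hab
      rw [if_pos rfl, Pi.single_eq_same]
    · rw [if_neg hab, Pi.single_eq_of_ne (Ne.symm hab), zero_mul]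
  refine ⟨D a I, 0, fun b J => if (a, I) = (b, J) then 1 else 0, Pi.single a (ε a I), h.Dk a I,
    fun l => ?_, fun δ => ?_, fun b J hJ hq => ?_, fun b => ?_, fun b => ?_⟩
  · simp [Ev]
  · simp only [Ev, Sum.elim_inr]
    rw [h.cq a I δ hI, hkr]
  · rw [h.Dt a I b J hI hJ hq, hkr]
  · by_cases hab : b = a
    · subst hab
      simp only [Pi.single_eq_same]
      rw [Finset.sum_eq_single I]
      · rw [if_pos rfl, one_mul]
      · intro J _ hJ
        rw [if_neg fun h => hJ (Prod.mk_inj.1 h).2.symm, zero_mul]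
      · intro h2; exact absurd ((hMn _ _).2 hI) h2
    · simp only [Pi.single_eq_of_ne hab]
      symm
      refine Finset.sum_eq_zero fun J _ => ?_
      rw [if_neg fun h => hab (Prod.mk_inj.1 h).1.symm, zero_mul]
  · by_cases hab : b = a
    · subst hab
      rw [Pi.single_eq_same]
      exact hε _ _
    · rw [Pi.single_eq_of_ne hab, zero_mul]

omit [Fintype S] in
theorem Rel.gen_mem (h : Rel k0 β d D c E t ε q) {Mn : A → Finset (ι →₀ ℕ)}
    (hMn : ∀ a I, I ∈ Mn a ↔ mdeg β I = d a) {x : ι → K}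
    (hε : ∀ a I, ε a I * ∑ J ∈ Mn a, t a J * mn x J = 0) (g : Gx ι S A X) :
    ((gen β d D c E x g, 0) : (ι ⊕ Δ → K) × (A → K)) ∈ UU k0 β d t q Mn x := by
  classical
  rcases g with s | ξ | t'
  · refine ⟨0, Pi.single s 1, fun _ _ => 0, 0, fun _ => rfl, fun l => ?_, fun δ => ?_,
      fun b J hJ hq => ?_, fun b => ?_, fun b => ?_⟩
    · by_cases hs : β l = s
      · subst hs
        simp [gen]
      · simp [gen, hs]
    · simp [gen]
    · simp
    · simp
    · simp
  · refine ⟨E ξ, 0, fun _ _ => 0, 0, h.Ek ξ, fun l => ?_, fun δ => ?_,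
      fun b J hJ hq => ?_, fun b => ?_, fun b => ?_⟩
    · simp [gen]
    · simp only [gen, Sum.elim_inr, Pi.zero_apply]
      rw [h.Et ξ _ _ (h.qd δ), zero_mul, add_zero, sub_zero]
    · rw [h.Et ξ b J hJ]
      simp
    · simp
    · simp
  · by_cases ht : β t'.2.2.1 = β t'.2.2.2 ∧ mdeg β (t'.2.1 + Finsupp.single t'.2.2.1 1) = d t'.1
    · have h1 := h.Ev_mem hMn hε ht.2
      have h2 := h.Ev_mem hMn hε (a := t'.1) (I := t'.2.1 + Finsupp.single t'.2.2.2 1) (by
        rw [← ht.2, map_add, map_add, mdeg_single, mdeg_single, ht.1])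
      have h3 := sub_mem (Submodule.smul_mem _ (x t'.2.2.2) h1)
        (Submodule.smul_mem _ (x t'.2.2.1) h2)
      have h4 : ((gen β d D c E x (Sum.inr (Sum.inr t')), 0) : (ι ⊕ Δ → K) × (A → K)) =
          x t'.2.2.2 • (Ev D c x t'.1 (t'.2.1 + Finsupp.single t'.2.2.1 1),
            Pi.single t'.1 (mn x (t'.2.1 + Finsupp.single t'.2.2.1 1))) -
          x t'.2.2.1 • (Ev D c x t'.1 (t'.2.1 + Finsupp.single t'.2.2.2 1),
            Pi.single t'.1 (mn x (t'.2.1 + Finsupp.single t'.2.2.2 1))) := by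
        refine Prod.ext ?_ ?_
        · simp only [gen, if_pos ht]
          rfl
        · funext b
          simp only [Prod.snd_sub, Prod.smul_snd, Pi.sub_apply, Pi.smul_apply, smul_eq_mul,
            mn_add, mn_single, pow_one, Pi.zero_apply]
          by_cases hb : b = t'.1
          · subst hb
            rw [Pi.single_eq_same, Pi.single_eq_same]
            ring
          · rw [Pi.single_eq_of_ne hb, Pi.single_eq_of_ne hb]
            ring
      rw [h4]
      exact h3
    · simp only [gen, if_neg ht]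
      exact zero_mem _

theorem der_mn (D' : Derivation ℤ K K) {x : ι → K} (hx : ∀ l, D' (x l) = 0) (I : ι →₀ ℕ) :
    D' (mn x I) = 0 := by
  induction I using Finsupp.induction_linear with
  | zero => rw [mn_zero]; exact D'.map_one_eq_zero
  | add I J hI hJ => rw [mn_add, D'.leibniz, hI, hJ, smul_zero, smul_zero, add_zero]
  | single l k => rw [mn_single, D'.leibniz_pow, hx]; simp

variable [Fintype A]

open scoped Classical in
/-- The number of the derivatives among the rows. -/
theorem Rel.card_le (h : Rel k0 β d D c E t ε q) {Mn : A → Finset (ι →₀ ℕ)}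
    (hMn : ∀ a I, I ∈ Mn a ↔ mdeg β I = d a) [Finite ι] [Finite Δ] {x : ι → K}
    (hε : ∀ a I, ε a I * ∑ J ∈ Mn a, t a J * mn x J = 0) {l0 : S → ι}
    (hl0 : ∀ s, β (l0 s) = s) (hx0 : ∀ s, x (l0 s) = 1) {e : S → ι} (he : ∀ s, β (e s) = s)
    (hx : ∀ s, x (e s) ≠ 0)
    {b : Finset (Gx ι S A X ⊕ A)}
    (hfull : Submodule.span K (Set.range fun i : b => vv β d D c E x (fun a => std e (d a)) i) =
        Full β d D c E x) {f : ℕ}
    (hf : Module.finrank K (Vt k0 x fun a => ∑ J ∈ Mn a, t a J * mn x J) ≤ f) :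
    Fintype.card A ≤ (Finset.univ.filter fun a : A => Sum.inr a ∈ b).card + f := by
  have := Fintype.ofFinite ι
  have := Fintype.ofFinite Δ
  obtain ⟨G, hG⟩ : ∃ G, G = Submodule.span K (Set.range (gen β d D c E x)) := ⟨_, rfl⟩
  obtain ⟨Θ, hΘ⟩ : ∃ Θ : (A → K) →ₗ[K] (ι ⊕ Δ → K), ∀ y, Θ y =
      ∑ a, y a • Ev D c x a (std e (d a)) :=
    ⟨{ toFun := fun y => ∑ a, y a • Ev D c x a (std e (d a))
       map_add' := fun y z => by
        rw [← Finset.sum_add_distrib]
        exact Finset.sum_congr rfl fun a _ => add_smul _ _ _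
       map_smul' := fun r y => by
        rw [RingHom.id_apply, Finset.smul_sum]
        exact Finset.sum_congr rfl fun a _ => by rw [Pi.smul_apply, smul_eq_mul, mul_smul] },
      fun _ => rfl⟩
  obtain ⟨m, hm⟩ : ∃ m : A → K, ∀ a, m a = mn x (std e (d a)) := ⟨_, fun _ => rfl⟩
  have hm0 : ∀ a, m a ≠ 0 := fun a => by
    rw [hm, mn_std]
    exact Finset.prod_ne_zero_iff.2 fun s _ => pow_ne_zero _ (hx s)
  -- the kernel
  have hker : ∀ y, Θ y ∈ G → (fun a => y a * m a) ∈ Vt k0 x fun a =>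
      ∑ J ∈ Mn a, t a J * mn x J := by
    intro y hy
    have h1 : ((Θ y, fun a => y a * m a) : (ι ⊕ Δ → K) × (A → K)) ∈ UU k0 β d t q Mn x := by
      have h2 : ((Θ y, fun a => y a * m a) : (ι ⊕ Δ → K) × (A → K)) =
          ∑ a, y a • (Ev D c x a (std e (d a)), Pi.single a (mn x (std e (d a)))) := by
        refine Prod.ext ?_ ?_
        · rw [Prod.fst_sum, hΘ]
          rfl
        · rw [Prod.snd_sum]
          funext b'
          rw [Finset.sum_apply, Finset.sum_eq_single b']
          · simp [hm]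
          · intro a _ ha
            simp [ha.symm]
          · intro h; exact absurd (Finset.mem_univ _) h
      rw [h2]
      exact sum_mem fun a _ => Submodule.smul_mem _ _ (h.Ev_mem hMn hε (mdeg_std he _))
    have h2 : ((Θ y, 0) : (ι ⊕ Δ → K) × (A → K)) ∈ UU k0 β d t q Mn x := by
      have h3 : G ≤ (UU k0 β d t q Mn x).comap (LinearMap.inl K (ι ⊕ Δ → K) (A → K)) := by
        rw [hG, Submodule.span_le]
        rintro _ ⟨g, rfl⟩
        exact h.gen_mem hMn hε g
      exact h3 hy
    obtain ⟨D', r, g, e', k1, k2, k3, k4, k5, k6⟩ := sub_mem h1 h2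
    have hr : ∀ s, r s = 0 := by
      intro s
      have h3 := k2 (l0 s)
      rw [hx0, D'.map_one_eq_zero, hl0] at h3
      simpa using h3.symm
    have hx' : ∀ l, D' (x l) = 0 := by
      intro l
      have h3 := k2 l
      rw [hr, zero_mul, add_zero] at h3
      simpa using h3.symm
    refine ⟨D', k1, hx', fun a => ?_⟩
    have h3 := k5 a
    have h4 : ((Θ y, fun a => y a * m a) - (Θ y, 0) : (ι ⊕ Δ → K) × (A → K)).2 a = y a * m a := by
      simp
    rw [h4] at h3
    change y a * m a = D' (∑ J ∈ Mn a, t a J * mn x J)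
    have h7 : ∑ J ∈ Mn a, g a J * mn x J = ∑ J ∈ Mn a, (g a J + e' a * t a J) * mn x J := by
      have h8 := k6 a
      rw [Finset.mul_sum] at h8
      rw [← add_zero (∑ J ∈ Mn a, g a J * mn x J), ← h8, ← Finset.sum_add_distrib]
      exact Finset.sum_congr rfl fun J _ => by ring
    rw [h3, h7, map_sum]
    refine Finset.sum_congr rfl fun J hJ => ?_
    rw [D'.leibniz, der_mn D' hx', smul_zero, zero_add, smul_eq_mul, mul_comm]
    congr 1
    by_cases hq : ∀ δ, q δ ≠ (a, J)
    · exact (k4 a J ((hMn _ _).1 hJ) hq).symm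
    · push Not at hq
      obtain ⟨δ, hδ⟩ := hq
      have h5 := k3 δ
      rw [hδ] at h5
      have h6 : g a J + e' a * t a J - D' (t a J) = 0 := by simpa using h5.symm
      exact sub_eq_zero.1 h6
  -- rank and nullity
  obtain ⟨Ψ, hΨ⟩ : ∃ Ψ : (A → K) →ₗ[K] ((ι ⊕ Δ → K) ⧸ G), Ψ = G.mkQ.comp Θ := ⟨_, rfl⟩
  have hΨ' : ∀ y, Ψ y = G.mkQ (Θ y) := fun y => by rw [hΨ]; rfl
  have h1 := LinearMap.finrank_range_add_finrank_ker Ψ
  rw [Module.finrank_pi] at h1
  have h2 : Module.finrank K (LinearMap.ker Ψ) ≤ f := by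
    refine le_trans ?_ hf
    obtain ⟨ρ, hρ⟩ : ∃ ρ : LinearMap.ker Ψ →ₗ[K] (Vt k0 x fun a =>
        ∑ J ∈ Mn a, t a J * mn x J), ∀ y, ((ρ y : _) : A → K) = fun a => y.1 a * m a :=
      ⟨{ toFun := fun y => ⟨fun a => y.1 a * m a, hker y.1 (by
            have h3 := LinearMap.mem_ker.1 y.2
            rw [hΨ', Submodule.mkQ_apply, Submodule.Quotient.mk_eq_zero] at h3
            exact h3)⟩
         map_add' := fun y z => by
          apply Subtype.ext
          funext a
          simp [add_mul]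
         map_smul' := fun s y => by
          apply Subtype.ext
          funext a
          simp [mul_assoc] }, fun _ => rfl⟩
    refine LinearMap.finrank_le_finrank_of_injective (f := ρ) ?_
    rw [← LinearMap.ker_eq_bot, LinearMap.ker_eq_bot']
    intro y hy
    apply Subtype.ext
    funext a
    have h3 := congrFun (hρ y) a
    rw [hy] at h3
    have h4 : y.1 a * m a = 0 := h3.symm
    exact (mul_eq_zero.1 h4).resolve_right (hm0 a)
  have h3 : Module.finrank K (LinearMap.range Ψ) ≤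
      (Finset.univ.filter fun a : A => Sum.inr a ∈ b).card := by
    obtain ⟨T, hT⟩ : ∃ T : Finset ((ι ⊕ Δ → K) ⧸ G), T =
      (Finset.univ.filter fun a : A => Sum.inr a ∈ b).image
        (fun a => G.mkQ (Ev D c x a (std e (d a)))) := ⟨_, rfl⟩
    have h4 : LinearMap.range Ψ ≤ Submodule.span K (T : Set ((ι ⊕ Δ → K) ⧸ G)) := by
      have h5 : (Full β d D c E x).map G.mkQ ≤ Submodule.span K (T : Set ((ι ⊕ Δ → K) ⧸ G)) := by
        rw [← hfull, Submodule.map_span, Submodule.span_le]
        rintro _ ⟨_, ⟨i, rfl⟩, rfl⟩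
        rcases hi : i.1 with g | a
        · have h6 : G.mkQ (gen β d D c E x g) = 0 := by
            rw [Submodule.mkQ_apply, Submodule.Quotient.mk_eq_zero, hG]
            exact Submodule.subset_span ⟨g, rfl⟩
          simp only [hi, vv]
          rw [h6]
          exact zero_mem _
        · simp only [hi, vv]
          refine Submodule.subset_span ?_
          rw [hT, Finset.mem_coe, Finset.mem_image]
          refine ⟨a, ?_, rfl⟩
          rw [Finset.mem_filter]
          exact ⟨Finset.mem_univ _, by rw [← hi]; exact i.2⟩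
      rintro _ ⟨y, rfl⟩
      apply h5
      refine ⟨Θ y, ?_, by rw [hΨ]; rfl⟩
      rw [hΘ]
      exact sum_mem fun a _ => Submodule.smul_mem _ _ (Ev_mem_full (mdeg_std he _))
    refine (Submodule.finrank_mono h4).trans ?_
    refine (finrank_span_finset_le_card T).trans ?_
    rw [hT]
    exact Finset.card_image_le
  omega

end count

end Pool.Agent.KS6_26.D
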