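import Pool.Agent.KS6_26.D.Fin
import Pool.Graph.R_seed8.TH145.GC.Setup

/-!
The finitely generated fields, and derivations dual to the free coefficients.
-/

set_option autoImplicit false

open MvPolynomial Pool.Agent.TH145.GH

namespace Pool.Agent.KS6_26.D

/-- The indices of the free coefficients. -/
abbrev Fr {ι S A Δ : Type} [DecidableEq S] (β : ι → S) (d : A → S → ℕ)
    (q : Δ → A × (ι →₀ ℕ)) : Type := {p : A × (ι →₀ ℕ) // mdeg β p.2 = d p.1 ∧ ∀ δ, q δ ≠ p}

variable {ι S A Δ : Type} [DecidableEq S] {β : ι → S} {d : A → S → ℕ} {q : Δ → A × (ι →₀ ℕ)}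

theorem finite_Fr [Finite A] {Mn : A → Finset (ι →₀ ℕ)}
    (hMn : ∀ a I, I ∈ Mn a ↔ mdeg β I = d a) : Finite (Fr β d q) := by
  have := Fintype.ofFinite A
  refine Finite.of_injective (β := Σ a, {I // I ∈ Mn a})
    (fun p => ⟨p.1.1, p.1.2, (hMn _ _).2 p.2.1⟩) ?_
  rintro ⟨⟨a, I⟩, h1⟩ ⟨⟨b, J⟩, h2⟩ h
  have h3 : a = b := congrArg Sigma.fst h
  subst h3
  have h4 := eq_of_heq (Sigma.mk.inj_iff.1 h).2
  have h5 : I = J := congrArg Subtype.val h4
  subst h5
  rfl

/-- The finite Galois extension, and the dual derivations. -/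
theorem exists_setup {k0 K υ : Type} [Field k0] [Field K] [Algebra k0 K] [IsAlgClosed K]
    [CharZero K] {y : υ → K} (hy : IsTranscendenceBasis k0 y) [Finite Δ]
    (hq : ∀ δ, mdeg β (q δ).2 = d (q δ).1)
    {t : A → (ι →₀ ℕ) → K} (s : Fr β d q → υ) (hs : Function.Injective s)
    (hts : ∀ p : Fr β d q, t p.1.1 p.1.2 = y (s p)) (T : Finset K) :
    ∃ (E : IntermediateField (IntermediateField.adjoin k0 (Set.range y)) K)
      (tE : A → (ι →₀ ℕ) → E.toSubfield) (D : A → (ι →₀ ℕ) → Derivation ℤ K K),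
      FiniteDimensional (IntermediateField.adjoin k0 (Set.range y)) E ∧
      IsGalois (IntermediateField.adjoin k0 (Set.range y)) E ∧
      (∀ a I, ∀ x ∈ E, D a I x ∈ E) ∧
      (∀ a I j, ∃ r : k0, D a I (y j) = algebraMap k0 K r) ∧
      RelD k0 β d D (fun a I => (tE a I : K)) q ∧
      (∀ a I, mdeg β I = d a → (tE a I : K) = t a I) ∧ ∀ t ∈ T, t ∈ E := by
  classical
  have := Fintype.ofFinite Δ
  have hck : CharZero k0 := by
    constructor
    intro a b hab
    have h1 := congrArg (algebraMap k0 K) hab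
    rw [map_natCast, map_natCast] at h1
    exact Nat.cast_injective h1
  set R := IntermediateField.adjoin k0 (Set.range y) with hR
  have hcR : CharZero R := charZero_of_injective_algebraMap (algebraMap k0 R).injective
  have halg : Algebra.IsAlgebraic R K := hy.isAlgebraic_field
  obtain ⟨T', hT'⟩ : ∃ T' : Finset K, T' = T ∪ Finset.univ.image
    fun δ => t (q δ).1 (q δ).2 := ⟨_, rfl⟩
  have hfin0 : FiniteDimensional R (IntermediateField.adjoin R (T' : Set K)) := by
    have : Finite (T' : Set K) := T'.finite_toSet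
    exact IntermediateField.finiteDimensional_adjoin fun x _ =>
      (halg.isAlgebraic x).isIntegral
  obtain ⟨E, hE⟩ : ∃ E : IntermediateField R K,
    E = IntermediateField.normalClosure R (IntermediateField.adjoin R (T' : Set K)) K := ⟨_, rfl⟩
  have hclo : IsAlgClosure R K := ⟨inferInstance, halg⟩
  have hnK : Normal R K := IsAlgClosure.normal R K
  have hfin : FiniteDimensional R E := by
    rw [hE]; infer_instance
  have hnE : Normal R E := by
    rw [hE]; infer_instance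
  have hgal : IsGalois R E := { }
  have hTE : ∀ t ∈ T', t ∈ E := by
    intro t ht
    rw [hE]
    exact (IntermediateField.le_normalClosure _) (IntermediateField.subset_adjoin _ _ ht)
  -- the derivations
  have hD : ∀ (a : A) (I : ι →₀ ℕ), ∃ D : Derivation k0 K K, (∀ j, D (y j) =
      if ∃ h : mdeg β I = d a ∧ ∀ δ, q δ ≠ (a, I), s ⟨(a, I), h⟩ = j then 1 else 0) ∧
      (mdeg β I ≠ d a → D = 0) := by
    intro a I
    by_cases hI : mdeg β I = d a
    · obtain ⟨D, hD⟩ := Pool.Agent.W602.GT.exists_der y hy fun j =>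
        if ∃ h : mdeg β I = d a ∧ ∀ δ, q δ ≠ (a, I), s ⟨(a, I), h⟩ = j then 1 else 0
      exact ⟨D, hD, fun h => absurd hI h⟩
    · refine ⟨0, fun j => ?_, fun _ => rfl⟩
      rw [if_neg]
      · rfl
      · rintro ⟨h, -⟩
        exact hI h.1
  choose D hD hDirr using hD
  have hD' : ∀ a I (r : k0), D a I (algebraMap k0 K r) = 0 := fun a I r =>
    (D a I).map_algebraMap r
  have hDy : ∀ a I j, ∃ r : k0, D a I (y j) = algebraMap k0 K r := by
    intro a I j
    rw [hD]
    split_ifs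
    · exact ⟨1, (map_one _).symm⟩
    · exact ⟨0, (map_zero _).symm⟩
  have hDR : ∀ a I x, x ∈ R.toSubfield → (D a I).restrictScalars ℤ x ∈ R.toSubfield := by
    intro a I x hx
    rw [hR, IntermediateField.adjoin_toSubfield] at hx
    refine der_closure ((D a I).restrictScalars ℤ) ?_ hx
    rintro z (⟨r, rfl⟩ | ⟨j, rfl⟩)
    · refine ⟨R.algebraMap_mem r, ?_⟩
      change D a I _ ∈ _
      rw [hD']
      exact zero_mem _
    · refine ⟨IntermediateField.subset_adjoin _ _ ⟨j, rfl⟩, ?_⟩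
      change D a I _ ∈ _
      obtain ⟨r, hr⟩ := hDy a I j
      rw [hr]
      exact R.algebraMap_mem r
  have hDE : ∀ a I x, x ∈ E.toSubfield → (D a I).restrictScalars ℤ x ∈ E.toSubfield := by
    intro a I x hx
    refine (isDer_top ((D a I).restrictScalars ℤ)).mem_of_alg E.toSubfield trivial hx ?_
    have h1 : IsAlgebraic R.toSubfield x := halg.isAlgebraic x
    refine Pool.Agent.TH145.MF.alg_mono ?_ h1
    intro z hz
    exact ⟨trivial, E.algebraMap_mem ⟨z, hz⟩, E.algebraMap_mem ⟨_, hDR a I z hz⟩⟩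
  have htm : ∀ a I, mdeg β I = d a → t a I ∈ E.toSubfield := by
    intro a I hI
    by_cases hqI : ∀ δ, q δ ≠ (a, I)
    · rw [hts ⟨(a, I), hI, hqI⟩]
      exact E.algebraMap_mem ⟨_, IntermediateField.subset_adjoin _ _ ⟨_, rfl⟩⟩
    · push Not at hqI
      obtain ⟨δ, hδ⟩ := hqI
      refine hTE _ ?_
      rw [hT']
      refine Finset.mem_union_right _ (Finset.mem_image.2 ⟨δ, Finset.mem_univ _, ?_⟩)
      rw [hδ]
  obtain ⟨tE, htE⟩ : ∃ tE : A → (ι →₀ ℕ) → E.toSubfield,
      ∀ a I, mdeg β I = d a → (tE a I : K) = t a I :=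
    ⟨fun a I => if h : mdeg β I = d a then ⟨t a I, htm a I h⟩ else 0, fun a I h => by
      simp only [dif_pos h]⟩
  refine ⟨E, tE, fun a I => (D a I).restrictScalars ℤ, hfin, hgal, fun a I x hx => hDE a I x hx,
    hDy, ⟨hD', fun a I hI f => ?_, hq, fun a I hI hqI => ?_, fun a I b J hI hJ hqJ hab => ?_⟩,
    htE, fun t ht => hTE t (by rw [hT']; exact Finset.mem_union_left _ ht)⟩
  · rw [hDirr a I hI]
    rfl
  · change D a I _ = 1
    rw [htE a I hI, hts ⟨(a, I), hI, hqI⟩, hD, if_pos ⟨⟨hI, hqI⟩, rfl⟩]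
  · change D a I _ = 0
    rw [htE b J hJ, hts ⟨(b, J), hJ, hqJ⟩, hD, if_neg]
    rintro ⟨h2, h3⟩
    exact hab (congrArg Subtype.val (hs h3))

/-- Everything that is needed over a field generated by a finite set over `k0`. -/
theorem exists_all {k0 K : Type} [Field k0] [Field K] [Algebra k0 K] [IsAlgClosed K] [CharZero K]
    [Finite Δ] (hq : ∀ δ, mdeg β (q δ).2 = d (q δ).1) [Finite (Fr β d q)]
    {t : A → (ι →₀ ℕ) → K}
    (hind : AlgebraicIndependent k0 fun p : Fr β d q => t p.1.1 p.1.2)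
    (T : Finset K) :
    ∃ (B : Set K) (_ : B.Finite) (K1 : IntermediateField (IntermediateField.adjoin k0 B) K)
      (y : B → K1) (E : IntermediateField (IntermediateField.adjoin k0 (Set.range y)) K1)
      (tE : A → (ι →₀ ℕ) → E.toSubfield) (D : A → (ι →₀ ℕ) → Derivation ℤ K1 K1),
      IsAlgClosed K1 ∧ CharZero K1 ∧ IsTranscendenceBasis k0 y ∧
      FiniteDimensional (IntermediateField.adjoin k0 (Set.range y)) E ∧
      IsGalois (IntermediateField.adjoin k0 (Set.range y)) E ∧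
      (∀ a I, ∀ x ∈ E, D a I x ∈ E) ∧
      (∀ a I j, ∃ r : k0, D a I (y j) = algebraMap k0 K1 r) ∧
      RelD k0 β d D (fun a I => (tE a I : K1)) q ∧
      (∀ a I, mdeg β I = d a → ((tE a I : K1) : K) = t a I) ∧
      ∀ t ∈ IntermediateField.adjoin k0 (T : Set K), ∃ e : K1, e ∈ E ∧ (e : K) = t := by
  classical
  have := Fintype.ofFinite Δ
  obtain ⟨T', hT'⟩ : ∃ T' : Finset K, T' = T ∪ Finset.univ.image
    fun δ => t (q δ).1 (q δ).2 := ⟨_, rfl⟩
  obtain ⟨B, hB, K1, y, s, hK1, hy, hys, hs, hTK⟩ := exists_closed hind T'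
  have hc : CharZero K1 := by
    constructor
    intro a b hab
    have h1 := congrArg (algebraMap K1 K) hab
    rw [map_natCast, map_natCast] at h1
    exact Nat.cast_injective h1
  have hinj : Function.Injective (algebraMap K1 K) := (algebraMap K1 K).injective
  have htK : ∀ a I, mdeg β I = d a → t a I ∈ K1 := by
    intro a I hI
    by_cases hqI : ∀ δ, q δ ≠ (a, I)
    · have h1 := hys ⟨(a, I), hI, hqI⟩
      dsimp only at h1
      rw [← h1]
      exact (y (s ⟨(a, I), hI, hqI⟩)).2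
    · push Not at hqI
      obtain ⟨δ, hδ⟩ := hqI
      refine hTK _ ?_
      rw [hT']
      refine Finset.mem_union_right _ (Finset.mem_image.2 ⟨δ, Finset.mem_univ _, ?_⟩)
      rw [hδ]
  obtain ⟨t1, ht1⟩ : ∃ t1 : A → (ι →₀ ℕ) → K1, ∀ a I, mdeg β I = d a → (t1 a I : K) = t a I :=
    ⟨fun a I => if h : mdeg β I = d a then ⟨t a I, htK a I h⟩ else 0, fun a I h => by
      simp only [dif_pos h]⟩
  obtain ⟨T1, hT1⟩ : ∃ T1 : Finset K1, ∀ t ∈ T, ∃ t1 ∈ T1, (t1 : K) = t := by
    refine ⟨T.preimage (algebraMap K1 K) hinj.injOn, fun t ht => ?_⟩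
    exact ⟨⟨t, hTK t (by rw [hT']; exact Finset.mem_union_left _ ht)⟩,
      Finset.mem_preimage.2 ht, rfl⟩
  obtain ⟨E, tE, D, h1, h2, h3, h4, h5, h6, h7⟩ := exists_setup hy hq (t := t1) s hs
    (fun p => by
      apply hinj
      refine (ht1 _ _ p.2.1).trans ?_
      exact (hys p).symm) T1
  refine ⟨B, hB, K1, y, E, tE, D, hK1, hc, hy, h1, h2, h3, h4, h5, fun a I hI => ?_, ?_⟩
  · rw [h6 a I hI, ht1 a I hI]
  · intro t ht
    have h9 : t ∈ Subfield.closure (Set.range (algebraMap k0 K) ∪ (T : Set K)) := by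
      rw [← IntermediateField.adjoin_toSubfield]
      exact ht
    have h10 : Subfield.closure (Set.range (algebraMap k0 K) ∪ (T : Set K)) ≤
        E.toSubfield.map (algebraMap K1 K) := by
      rw [Subfield.closure_le]
      rintro z (⟨r, rfl⟩ | hz)
      · exact ⟨algebraMap k0 K1 r, E.algebraMap_mem (algebraMap k0 _ r), rfl⟩
      · obtain ⟨t1, ht1, htz⟩ := hT1 z hz
        exact ⟨t1, h7 t1 ht1, htz⟩
    obtain ⟨e, he, het⟩ := h10 h9
    exact ⟨e, he, het⟩

/-- Finiteness of the points over a field generated by a finite set over `k0`. -/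
theorem fin_points {k0 K : Type} [Field k0] [Field K] [Algebra k0 K] [IsAlgClosed K]
    [CharZero K] [IsAlgClosed k0] [Fintype S] [Fintype A] [Fintype Δ] [Fintype ι]
    {n : S → ℕ} {en : ∀ s, Fin (n s + 1) → ι}
    {Mn : A → Finset (ι →₀ ℕ)} (hMn : ∀ a I, I ∈ Mn a ↔ mdeg β I = d a) (hB : Blk β n en)
    {l0 : S → ι} (hl0 : ∀ s, β (l0 s) = s) {R : Set (MvPolynomial (ι ⊕ A) k0)}
    {g : MvPolynomial (ι ⊕ A) k0}
    (hyp : HypL k0 β d (Fintype.card Δ) 0 l0 R g) (hq : ∀ δ, mdeg β (q δ).2 = d (q δ).1)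
    {t : A → (ι →₀ ℕ) → K}
    (hind : AlgebraicIndependent k0 fun p : Fr β d q => t p.1.1 p.1.2) (T : Finset K) :
    {x : ι → K | (∀ l, x l ∈ IntermediateField.adjoin k0 (T : Set K)) ∧ (∀ s, x (l0 s) = 1) ∧
      (∀ f ∈ R, aeval (Sum.elim x fun a => ∑ J ∈ Mn a, t a J * mn x J) f = 0) ∧
      aeval (Sum.elim x fun a => ∑ J ∈ Mn a, t a J * mn x J) g ≠ 0}.Finite := by
  classical
  have := finite_Fr (q := q) hMn
  obtain ⟨B, hB', K1, y, E, tE, D, hK1, hc, hy, h1, h2, h3, h4, h5, h6, h7⟩ :=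
    exists_all hq hind T
  have : Finite B := hB'
  have h9 := fin_all E hy D h3 h4 h5 hMn hB hl0 hyp
  refine (h9.image fun x l => (x l : K)).subset ?_
  rintro x ⟨hx, hxl, hxR, hxg⟩
  choose e he hex using fun l => h7 (x l) (hx l)
  have hval : ∀ f : MvPolynomial (ι ⊕ A) k0, algebraMap K1 K
      (aeval (Sum.elim e fun a => ∑ J ∈ Mn a, (tE a J : K1) * mn e J) f) =
      aeval (Sum.elim x fun a => ∑ J ∈ Mn a, t a J * mn x J) f := by
    intro f
    have h10 := hom_eval₂ f (algebraMap k0 K1) (algebraMap K1 K)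
      (Sum.elim e fun a => ∑ J ∈ Mn a, (tE a J : K1) * mn e J)
    refine h10.trans ?_
    rw [aeval_def]
    congr 1
    funext j
    rcases j with j | a
    · exact hex j
    · simp only [Sum.elim_inr]
      rw [map_sum]
      refine Finset.sum_congr rfl fun J hJ => ?_
      rw [map_mul, mn_hom]
      have h11 : (fun l => algebraMap K1 K (e l)) = x := funext hex
      rw [h11]
      congr 1
      exact h6 a J ((hMn _ _).1 hJ)
  refine ⟨e, ⟨he, fun s => ?_, fun f hf => ?_, fun h0 => ?_⟩, funext hex⟩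
  · apply Subtype.ext
    rw [hex, hxl]
    rfl
  · apply (algebraMap K1 K).injective
    rw [map_zero, hval, hxR f hf]
  · apply hxg
    rw [← hval, h0, map_zero]

end Pool.Agent.KS6_26.D
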