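import Pool.Agent.KS6_26.D.Main
import Pool.Graph.R_seed8.TH145.GC.Main

/-!
Intersections in projective space.
-/

set_option autoImplicit false

open MvPolynomial Pool.Agent.W602.GT LinearAlgebra.Projectivization
open Pool.Agent.TH145.MG (DimLE)

namespace Pool.Agent.KS6_26.D

/-- Independent ratios. -/
theorem free_of {k K ι S A : Type} [Field k] [Field K] [Algebra k K] [DecidableEq S] {β : ι → S}
    {d : A → S → ℕ} {I0 : A → ι →₀ ℕ} [Finite (Rt β d I0)] (P : A × (ι →₀ ℕ) → Prop)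
    (hP : ∀ p, P p ↔ mdeg β p.2 = d p.1 ∧ p.2 ≠ I0 p.1) (z : A × (ι →₀ ℕ) → K) {δ : ℕ}
    (htr : (Nat.card {p // P p} : Cardinal) ≤ Algebra.trdeg k
      (IntermediateField.adjoin k (Set.range fun p : {p // P p} => z p)) + δ) :
    ∃ B : Finset (Rt β d I0), AlgebraicIndependent (algebraicClosure k K)
      (fun b : B => z b.1.1) ∧ Nat.card (Rt β d I0) ≤ B.card + δ := by
  have h : P = fun p => mdeg β p.2 = d p.1 ∧ p.2 ≠ I0 p.1 := funext fun p => propext (hP p)
  subst h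
  obtain ⟨B, h1, h2⟩ := exists_free _ htr
  exact ⟨B, h1.algebraicClosure, h2⟩

/-- Independent ratios. -/
theorem all_of {k K ι S A : Type} [Field k] [Field K] [Algebra k K] [DecidableEq S] {β : ι → S}
    {d : A → S → ℕ} {I0 : A → ι →₀ ℕ} [Finite (Rt β d I0)] (P : A × (ι →₀ ℕ) → Prop)
    (hP : ∀ p, P p ↔ mdeg β p.2 = d p.1 ∧ p.2 ≠ I0 p.1) (z : A × (ι →₀ ℕ) → K)
    (hgen : AlgebraicIndependent k fun p : {p // P p} => z p) :
    ∃ B : Finset (Rt β d I0), AlgebraicIndependent (algebraicClosure k K)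
      (fun b : B => z b.1.1) ∧ Nat.card (Rt β d I0) ≤ B.card + 0 := by
  have h : P = fun p => mdeg β p.2 = d p.1 ∧ p.2 ≠ I0 p.1 := funext fun p => propext (hP p)
  subst h
  have : Fintype (Rt β d I0) := Fintype.ofFinite _
  refine ⟨Finset.univ, hgen.algebraicClosure.comp
    (fun b : (Finset.univ : Finset (Rt β d I0)) => b.1) Subtype.val_injective, ?_⟩
  rw [Nat.card_eq_fintype_card, Finset.card_univ]
  exact le_of_eq (add_zero _).symm

section single

variable {n : ℕ}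

/-- The block of all variables. -/
theorem blk_unit : Blk (fun _ : Fin (n + 1) => ()) (fun _ => n) (fun _ => id) :=
  ⟨fun _ _ => rfl, fun _ l _ => ⟨l, rfl⟩⟩

theorem dim_unit {k0 : Type} [Field k0] [CharZero k0] {V : Set (MvPolynomial (Fin (n + 1)) k0)}
    {m : ℕ} (hV : DimLE k0 V m) (l0 : Unit → Fin (n + 1)) (L : Type) [Field L] [Algebra k0 L]
    (x : Fin (n + 1) → L) (hx : ∀ s, x (l0 s) = 1) (hVx : ∀ f ∈ V, aeval x f = 0) :
    Module.finrank L (DI k0 x) ≤ m ∧ ∀ s : Unit, Module.finrank L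
      (DI k0 fun l : {l : Fin (n + 1) // (fun _ => ()) l = s} => x l) ≤ m := by
  have hc : CharZero L := charZero_of_injective_algebraMap (algebraMap k0 L).injective
  have hx0 : x ≠ 0 := by
    intro h
    have h1 := hx ()
    rw [h] at h1
    exact zero_ne_one h1
  have h1 := hV L x hx0 hVx
  have h2 : ∀ j, x j ∈ coords k0 x := fun j =>
    IntermediateField.subset_adjoin _ _ ⟨j, l0 (), by rw [hx]; exact one_ne_zero, by
      rw [hx, div_one]⟩
  exact ⟨finrank_DI_le x _ h2 h1, fun s => finrank_DI_le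
    (fun l : {l : Fin (n + 1) // (fun _ => ()) l = s} => x l) _ (fun l => h2 l) h1⟩

variable {k0 K : Type} [Field k0] [Field K] [Algebra k0 K] [IsAlgClosed K] [CharZero K]
  {A : Type} [Fintype A] {m δ : ℕ} {d : A → ℕ}

theorem hyp_unit [CharZero k0] {V : Set (MvPolynomial (Fin (n + 1)) k0)} (hV : DimLE k0 V m)
    {w : ℕ} (hd : 2 * m + 2 + δ ≤ ∑ a, (d a + 1) + w) (l0 : Unit → Fin (n + 1)) :
    HypL k0 (fun _ : Fin (n + 1) => ()) (fun a _ => d a) δ w l0 (RV (Fin (n + 1)) A V) 1 :=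
  hypL_of_dim (m := m) (ms := fun _ => m) (fun L _ _ x hx hVx => dim_unit hV l0 L x hx hVx)
    fun _ => by omega

omit [Fintype A] in
theorem coeff_unit {L : Type} [Field L] {F : A → MvPolynomial (Fin (n + 1)) L}
    (hF : ∀ a, (F a).IsHomogeneous (d a)) (a : A) (J : Fin (n + 1) →₀ ℕ)
    (hJ : (F a).coeff J ≠ 0) : mdeg (fun _ : Fin (n + 1) => ()) J = fun _ => d a := by
  funext s
  rw [mdeg_unit]
  exact Pool.Agent.TH145.GH.deg_of_mem (hF a) (mem_support_iff.2 hJ)

/-- The points over finitely generated fields. -/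
theorem fin_single [IsAlgClosed k0] {V : Set (MvPolynomial (Fin (n + 1)) k0)}
    (hVh : ∀ f ∈ V, ∃ e, f.IsHomogeneous e) (hV : DimLE k0 V m)
    {F : A → MvPolynomial (Fin (n + 1)) K} (hF : ∀ a, (F a).IsHomogeneous (d a))
    {I0 : A → Fin (n + 1) →₀ ℕ} (h0 : ∀ a, (F a).coeff (I0 a) ≠ 0)
    {B : Finset (Rt (fun _ : Fin (n + 1) => ()) (fun a _ => d a) I0)}
    (hBi : AlgebraicIndependent k0 fun b : B =>
      (F b.1.1.1).coeff b.1.1.2 / (F b.1.1.1).coeff (I0 b.1.1.1))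
    (hBc : Nat.card (Rt (fun _ : Fin (n + 1) => ()) (fun a _ => d a) I0) ≤ B.card + δ)
    (hd : 2 * m + 2 + δ ≤ ∑ a, (d a + 1)) (T : Finset K) :
    {p : ℙ K (Fin (n + 1) → K) | ∃ x : Fin (n + 1) → K,
      (∀ i, x i ∈ IntermediateField.adjoin k0 (T : Set K)) ∧
      (∀ f ∈ V, aeval x f = 0) ∧ (∀ a, eval x (F a) = 0) ∧
      ∃ hx : x ≠ 0, p = Projectivization.mk K x hx}.Finite := by
  have hc0 : CharZero k0 := by
    constructor
    intro a b hab
    have h1 := congrArg (algebraMap k0 K) hab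
    rw [map_natCast, map_natCast] at h1
    exact Nat.cast_injective h1
  obtain ⟨Mn, hMn⟩ := exists_Mn (fun _ : Fin (n + 1) => ()) (fun (a : A) (_ : Unit) => d a)
  have hval : ∀ a (x : Fin (n + 1) → K), eval x (F a) = ∑ J ∈ Mn a, (F a).coeff J * mn x J := by
    intro a x
    have h1 := aeval_sum (F := F a) (M := Mn a) (fun J hJ =>
      (hMn a J).2 (coeff_unit hF a J hJ)) x
    rw [aeval_eq_eval] at h1
    exact h1
  refine (Pool.Agent.TH145.GH.proj_finite (IntermediateField.adjoin k0 (T : Set K)).toSubfield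
    {x | (∀ f ∈ V, aeval x f = 0) ∧ ∀ a, eval x (F a) = 0} (fun x hx b hb => ⟨fun f hf => ?_,
      fun a => ?_⟩) fun l0 => ?_).subset ?_
  · obtain ⟨e, he⟩ := hVh f hf
    rw [Pool.Agent.TH145.MG.aeval_smul he, hx.1 f hf, mul_zero]
  · rw [Pool.Agent.TH145.GH.eval_smul_hom (hF a) x b, hx.2 a, mul_zero]
  · refine (fin_points' (β := fun _ : Fin (n + 1) => ()) (d := fun a _ => d a) hMn blk_unit
      (l0 := fun _ => l0) (fun _ => rfl) (hyp_unit (w := 0) hV (by omega) _)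
      (t := fun a J => (F a).coeff J) (fun a => coeff_unit hF a _ (h0 a)) h0 hBi hBc T).subset ?_
    rintro x ⟨hx, hxl, hxV, hxF⟩
    exact ⟨hx, fun _ => hxl, hxV, fun a => by rw [← hval]; exact hxF a⟩
  · rintro p ⟨x, hx, hxV, hxF, hx0, hp⟩
    exact ⟨x, ⟨hxV, hxF⟩, hx, hx0, hp⟩

/-- The subvarieties are of general type. -/
theorem general_single {V : Set (MvPolynomial (Fin (n + 1)) k0)}
    (hVh : ∀ f ∈ V, ∃ e, f.IsHomogeneous e) (hV : DimLE k0 V m)
    {F : A → MvPolynomial (Fin (n + 1)) K} (hF : ∀ a, (F a).IsHomogeneous (d a))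
    {I0 : A → Fin (n + 1) →₀ ℕ} (h0 : ∀ a, (F a).coeff (I0 a) ≠ 0)
    {B : Finset (Rt (fun _ : Fin (n + 1) => ()) (fun a _ => d a) I0)}
    (hBi : AlgebraicIndependent k0 fun b : B =>
      (F b.1.1.1).coeff b.1.1.2 / (F b.1.1.1).coeff (I0 b.1.1.1))
    (hBc : Nat.card (Rt (fun _ : Fin (n + 1) => ()) (fun a _ => d a) I0) ≤ B.card + δ)
    {L : Type} [Field L] [Algebra K L] {w : ℕ} (hw : 0 < w)
    (hd : 2 * m + 2 + δ ≤ ∑ a, (d a + 1) + w) (htr : Algebra.trdeg K L = w)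
    {x : Fin (n + 1) → L} (hx : x ≠ 0) (hgen : Algebra.IsAlgebraic (coords K x) L)
    (hxV : ∀ f ∈ V, aeval x (map (algebraMap k0 K) f) = 0) (hxF : ∀ a, aeval x (F a) = 0) :
    GeneralType K L w := by
  have hc0 : CharZero k0 := by
    constructor
    intro a b hab
    have h1 := congrArg (algebraMap k0 K) hab
    rw [map_natCast, map_natCast] at h1
    exact Nat.cast_injective h1
  let _ : Algebra k0 L := ((algebraMap K L).comp (algebraMap k0 K)).toAlgebra
  have hst : IsScalarTower k0 K L := IsScalarTower.of_algebraMap_eq fun _ => rfl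
  obtain ⟨Mn, hMn⟩ := exists_Mn (fun _ : Fin (n + 1) => ()) (fun (a : A) (_ : Unit) => d a)
  obtain ⟨c0, hc0'⟩ := Function.ne_iff.1 hx
  have hc0' : x c0 ≠ 0 := hc0'
  obtain ⟨x', hx'⟩ : ∃ x' : Fin (n + 1) → L, x' = fun j => (x c0)⁻¹ * x j := ⟨_, rfl⟩
  have hcx : (x c0)⁻¹ ≠ 0 := inv_ne_zero hc0'
  have hx1 : x' c0 = 1 := by
    rw [hx']
    exact inv_mul_cancel₀ hc0'
  have hxx : x' = (x c0)⁻¹ • x := by rw [hx']; rfl
  have hsub : coords K x ≤ IntermediateField.adjoin K (Set.range x') := by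
    unfold coords
    rw [IntermediateField.adjoin_le_iff]
    rintro z ⟨i, j, hj, rfl⟩
    have h1 : x i / x j = x' i / x' j := by
      rw [hx']
      field_simp
    rw [SetLike.mem_coe, h1]
    exact div_mem (IntermediateField.subset_adjoin _ _ ⟨i, rfl⟩)
      (IntermediateField.subset_adjoin _ _ ⟨j, rfl⟩)
  have hgen' : Algebra.IsAlgebraic (IntermediateField.adjoin K (Set.range x')) L := by
    refine ⟨fun f => ?_⟩
    have h3 := hgen.isAlgebraic f
    exact Pool.Agent.TH145.MF.alg_mono (F1 := (coords K x).toSubfield)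
      (F2 := (IntermediateField.adjoin K (Set.range x')).toSubfield) (fun z hz => hsub hz) h3
  have hval : ∀ a, ∑ J ∈ Mn a, algebraMap K L ((F a).coeff J) * mn x' J = aeval x' (F a) :=
    fun a => (aeval_sum (F := F a) (M := Mn a) (fun J hJ =>
      (hMn a J).2 (coeff_unit hF a J hJ)) x').symm
  refine general_ratio (k0 := k0) (β := fun _ : Fin (n + 1) => ()) (d := fun a _ => d a)
    blk_unit hMn (t := fun a J => (F a).coeff J) h0 (V := V) hBi hBc (l0 := fun _ => c0)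
    (fun _ => rfl) (hyp_unit hV hd _) hw htr (x := x') (fun _ => hx1) hgen' (fun f hf => ?_)
    fun a => ?_
  · obtain ⟨e, he⟩ := hVh f hf
    have h4 := hxV f hf
    rw [aeval_map_algebraMap] at h4
    rw [hxx, Pool.Agent.TH145.MG.aeval_smul he, h4, mul_zero]
  · rw [hval, hxx, Pool.Agent.TH145.MG.aeval_smul (hF a), hxF, mul_zero]

end single

end Pool.Agent.KS6_26.D
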