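import Pool.Agent.KS6_26.D.Num

/-!
Changes of the vertical derivations.
-/

set_option autoImplicit false

namespace Pool.Agent.KS6_26.D

variable {K : Type} [Field K] {ι S A X Δ : Type} [DecidableEq S] {β : ι → S} {d : A → S → ℕ}
  {D D' : A → (ι →₀ ℕ) → Derivation ℤ K K} {c : A → (ι →₀ ℕ) → Δ → K}
  {E E' : X → Derivation ℤ K K}

open scoped Classical in
/-- A linear substitution of the vertical derivations multiplies the determinant. -/
theorem det_lin [Fintype X] {M : Matrix X X K} (hE : ∀ ξ f, E' ξ f = ∑ η, M ξ η * E η f)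
    (x : ι → K) {b : Finset (Gx ι S A X ⊕ A)} (hb : ∀ v ∈ Vert ι S A X, Sum.inl v ∈ b)
    (σ : b → ι ⊕ Δ) (I : A → ι →₀ ℕ) :
    (mx β d D c E' x I b σ).det = M.det * (mx β d D c E x I b σ).det := by
  have hm : ∀ ξ : X, (Sum.inl (Sum.inr (Sum.inl ξ)) : Gx ι S A X ⊕ A) ∈ b :=
    fun ξ => hb _ (Or.inr ⟨ξ, rfl⟩)
  obtain ⟨v, hv⟩ : ∃ v : X → b, ∀ ξ, v ξ = ⟨Sum.inl (Sum.inr (Sum.inl ξ)), hm ξ⟩ :=
    ⟨_, fun _ => rfl⟩
  have hvi : Function.Injective v := by
    intro ξ η h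
    rw [hv, hv] at h
    have h1 := congrArg Subtype.val h
    simpa using h1
  obtain ⟨p, hp⟩ : ∃ p : b → Prop, ∀ i, p i ↔ ∃ ξ, i = v ξ := ⟨_, fun _ => Iff.rfl⟩
  obtain ⟨B, hB1, hB2⟩ : ∃ B : Matrix b b K, (∀ ξ j, B (v ξ) j = ∑ η, if j = v η then M ξ η else 0) ∧
      ∀ i j, ¬ p i → B i j = if i = j then 1 else 0 := by
    refine ⟨Matrix.of fun i j => if h : ∃ ξ, i = v ξ then
      ∑ η, (if j = v η then M h.choose η else 0) else if i = j then 1 else 0, fun ξ j => ?_,
      fun i j hi => ?_⟩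
    · have h : ∃ η, v ξ = v η := ⟨ξ, rfl⟩
      rw [Matrix.of_apply, dif_pos h]
      have h1 : h.choose = ξ := (hvi h.choose_spec).symm
      rw [h1]
    · rw [Matrix.of_apply, dif_neg ((hp i).not.1 hi)]
  have h1 : mx β d D c E' x I b σ = B * mx β d D c E x I b σ := by
    ext i j
    rw [Matrix.mul_apply]
    by_cases hi : p i
    · obtain ⟨ξ, rfl⟩ := (hp i).1 hi
      simp only [hB1, Finset.sum_mul]
      rw [Finset.sum_comm]
      have h2 : ∀ (E1 : X → Derivation ℤ K K) η, mx β d D c E1 x I b σ (v η) j =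
          (Sum.elim (fun l => E1 η (x l)) 0 : ι ⊕ Δ → K) (σ j) := by
        intro E1 η
        rw [hv]; rfl
      have h3 : (Sum.elim (fun l => E' ξ (x l)) 0 : ι ⊕ Δ → K) (σ j) =
          ∑ η, M ξ η * (Sum.elim (fun l => E η (x l)) 0 : ι ⊕ Δ → K) (σ j) := by
        rcases σ j with l | q
        · exact hE ξ (x l)
        · simp
      rw [h2, h3]
      refine Finset.sum_congr rfl fun η _ => ?_
      rw [Finset.sum_eq_single (v η)]
      · rw [if_pos rfl, h2]
      · intro k _ hk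
        rw [if_neg hk, zero_mul]
      · intro h; exact absurd (Finset.mem_univ _) h
    · rw [Finset.sum_eq_single i]
      · rw [hB2 i i hi, if_pos rfl, one_mul]
        have hi' : ∀ ξ : X, i.1 ≠ Sum.inl (Sum.inr (Sum.inl ξ)) := fun ξ h => hi ((hp i).2 ⟨ξ, by
          rw [hv]; exact Subtype.ext h⟩)
        obtain ⟨i, hib⟩ := i
        rcases i with (_ | ξ | t) | a
        · rfl
        · exact absurd rfl (hi' ξ)
        · rfl
        · rfl
      · intro k _ hk
        rw [hB2 i k hi, if_neg (Ne.symm hk), zero_mul]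
      · intro h; exact absurd (Finset.mem_univ _) h
  rw [h1, Matrix.det_mul]
  congr 1
  rw [Matrix.twoBlockTriangular_det B p (fun i hi j hj => by
    rw [hB2 i j hi, if_neg]
    rintro rfl
    exact hi hj)]
  have h2 : (B.toSquareBlockProp fun i => ¬ p i) = 1 := by
    ext i j
    rw [Matrix.toSquareBlockProp, Matrix.toBlock_apply, hB2 _ _ i.2, Matrix.one_apply]
    by_cases h : i = j
    · rw [if_pos h, if_pos (by rw [h])]
    · rw [if_neg h, if_neg fun h' => h (Subtype.ext h')]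
  rw [h2, Matrix.det_one, mul_one]
  obtain ⟨e, he⟩ : ∃ e : X ≃ {i // p i}, ∀ ξ, (e ξ : b) = v ξ :=
    ⟨Equiv.ofBijective (fun ξ => ⟨v ξ, (hp _).2 ⟨ξ, rfl⟩⟩) ⟨fun ξ η h =>
      hvi (congrArg Subtype.val h), fun ⟨i, hi⟩ => by
        obtain ⟨ξ, rfl⟩ := (hp i).1 hi
        exact ⟨ξ, rfl⟩⟩, fun _ => rfl⟩
  rw [← Matrix.det_submatrix_equiv_self e]
  congr 1
  ext ξ η
  rw [Matrix.submatrix_apply, Matrix.toSquareBlockProp, Matrix.toBlock_apply, he, he, hB1,
    Finset.sum_eq_single η]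
  · rw [if_pos rfl]
  · intro k _ hk
    rw [if_neg fun h => hk (hvi h).symm]
  · intro h; exact absurd (Finset.mem_univ _) h

/-- The span of the vertical vectors. -/
noncomputable def Vs {Δ : Type} (E : X → Derivation ℤ K K) (x : ι → K) :
    Submodule K (ι ⊕ Δ → K) :=
  Submodule.span K (Set.range fun ξ => Sum.elim (fun l => E ξ (x l)) 0)

theorem Ev_add [Fintype X] {κ : A → (ι →₀ ℕ) → X → K}
    (hD : ∀ a I f, D' a I f = D a I f + ∑ j, κ a I j * E j f) (x : ι → K) (a : A)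
    (I : ι →₀ ℕ) : Ev D' c x a I - Ev D c x a I ∈ Vs E x := by
  have h1 : Ev D' c x a I - Ev D c x a I =
      ∑ j, κ a I j • (Sum.elim (fun l => E j (x l)) 0 : ι ⊕ Δ → K) := by
    funext i
    rw [Finset.sum_apply, Pi.sub_apply]
    rcases i with l | q
    · simp only [Ev, Sum.elim_inl, Pi.smul_apply, smul_eq_mul]
      rw [hD, add_sub_cancel_left]
    · simp [Ev]
  rw [h1]
  exact sum_mem fun j _ => Submodule.smul_mem _ _ (Submodule.subset_span ⟨j, rfl⟩)

theorem gen_add [Fintype X] {κ : A → (ι →₀ ℕ) → X → K}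
    (hD : ∀ a I f, D' a I f = D a I f + ∑ j, κ a I j * E j f) (x : ι → K) (g : Gx ι S A X) :
    gen β d D' c E x g - gen β d D c E x g ∈ Vs E x := by
  rcases g with s | ξ | t
  · simp only [gen, sub_self]
    exact zero_mem _
  · simp only [gen, sub_self]
    exact zero_mem _
  · simp only [gen]
    split_ifs with ht
    · have h1 := Ev_add (c := c) hD x t.1 (t.2.1 + Finsupp.single t.2.2.1 1)
      have h2 := Ev_add (c := c) hD x t.1 (t.2.1 + Finsupp.single t.2.2.2 1)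
      have h3 := sub_mem (Submodule.smul_mem _ (x t.2.2.2) h1)
        (Submodule.smul_mem _ (x t.2.2.1) h2)
      rw [smul_sub, smul_sub, sub_sub_sub_comm] at h3
      exact h3
    · rw [sub_self]
      exact zero_mem _

open scoped Classical in
/-- Adding combinations of the vertical derivations to the derivations does not change the
determinant. -/
theorem det_add_vert [Fintype X] {κ : A → (ι →₀ ℕ) → X → K}
    (hD : ∀ a I f, D' a I f = D a I f + ∑ j, κ a I j * E j f)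
    (x : ι → K) {b : Finset (Gx ι S A X ⊕ A)} (hb : ∀ v ∈ Vert ι S A X, Sum.inl v ∈ b)
    (σ : b → ι ⊕ Δ) (I : A → ι →₀ ℕ) :
    (mx β d D' c E x I b σ).det = (mx β d D c E x I b σ).det := by
  obtain ⟨N, hN⟩ : ∃ N : Set b, ∀ i, i ∈ N ↔ ∃ ξ, i.1 = Sum.inl (Sum.inr (Sum.inl ξ)) :=
    ⟨{i | ∃ ξ, i.1 = Sum.inl (Sum.inr (Sum.inl ξ))}, fun _ => Iff.rfl⟩
  have h1 := det_span N (fun i j => vv β d D' c E x I i (σ j))
    (fun i j => vv β d D c E x I i (σ j)) (fun _ => 1) (fun i hi => ?_) fun i hi => ?_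
  · have h2 : (∏ i : b, if i ∈ N then (1 : K) else 1) = 1 :=
      Finset.prod_eq_one fun i _ => ite_self _
    rw [h2, one_mul] at h1
    exact h1
  · obtain ⟨ξ, hξ⟩ := (hN i).1 hi
    rw [hξ]
    rfl
  · have h3 : (Vs E x : Submodule K (ι ⊕ Δ → K)).map (LinearMap.funLeft K K σ) ≤
        Submodule.span K ((fun (i : b) j => vv β d D c E x I i (σ j)) '' N) := by
      rw [Vs, Submodule.map_span, Submodule.span_le]
      rintro _ ⟨_, ⟨ξ, rfl⟩, rfl⟩
      refine Submodule.subset_span ⟨⟨Sum.inl (Sum.inr (Sum.inl ξ)), hb _ (Or.inr ⟨ξ, rfl⟩)⟩,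
        (hN _).2 ⟨ξ, rfl⟩, ?_⟩
      rfl
    apply h3
    refine ⟨vv β d D' c E x I i - vv β d D c E x I i, ?_, ?_⟩
    · rcases hi' : i.1 with g | a
      · exact gen_add hD x g
      · exact Ev_add hD x a (I a)
    · rw [one_smul]
      rfl

/-- The change of the span of the vectors. -/
theorem span_change [Fintype X] {κ : A → (ι →₀ ℕ) → X → K}
    (hD : ∀ a I f, D' a I f = D a I f + ∑ j, κ a I j * E j f)
    {M : Matrix X X K} (hE : ∀ ξ f, E' ξ f = ∑ η, M ξ η * E η f) (x : ι → K)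
    {B : Set (Gx ι S A X)} (hB : ∀ ξ, Sum.inr (Sum.inl ξ) ∈ B) :
    Submodule.span K (gen β d D' c E' x '' B) ≤ Submodule.span K (gen β d D c E x '' B) := by
  have hV : (Vs E x : Submodule K (ι ⊕ Δ → K)) ≤ Submodule.span K (gen β d D c E x '' B) := by
    rw [Vs, Submodule.span_le]
    rintro _ ⟨ξ, rfl⟩
    exact Submodule.subset_span ⟨_, hB ξ, rfl⟩
  rw [Submodule.span_le]
  rintro _ ⟨g, hg, rfl⟩
  have h1 : gen β d D c E x g ∈ Submodule.span K (gen β d D c E x '' B) :=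
    Submodule.subset_span ⟨g, hg, rfl⟩
  rcases g with s | ξ | t
  · exact h1
  · apply hV
    have h2 : gen β d D' c E' x (Sum.inr (Sum.inl ξ)) =
        ∑ η, M ξ η • (Sum.elim (fun l => E η (x l)) 0 : ι ⊕ Δ → K) := by
      funext i
      rw [Finset.sum_apply]
      rcases i with l | q
      · simp only [gen, Sum.elim_inl, Pi.smul_apply, smul_eq_mul]
        exact hE ξ (x l)
      · simp [gen]
    rw [h2]
    exact sum_mem fun j _ => Submodule.smul_mem _ _ (Submodule.subset_span ⟨j, rfl⟩)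
  · have h2 := hV (gen_add (β := β) (d := d) (c := c) hD x (Sum.inr (Sum.inr t)))
    have h3 := add_mem h2 h1
    rw [sub_add_cancel] at h3
    exact h3

omit [DecidableEq S] in
theorem Rel.vert {k0 : Type} [DecidableEq S] [Field k0] [Algebra k0 K] {t ε : A → (ι →₀ ℕ) → K}
    {q : Δ → A × (ι →₀ ℕ)} {Y : Type} {E1 : Y → Derivation ℤ K K}
    (h : Rel k0 β d D c E1 t ε q) (Ek : ∀ ξ (r : k0), E ξ (algebraMap k0 K r) = 0)
    (Et : ∀ ξ b J, mdeg β J = d b → E ξ (t b J) = 0) : Rel k0 β d D c E t ε q where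
  Dk := h.Dk
  Ek := Ek
  Et := Et
  qd := h.qd
  cq := h.cq
  Dt := h.Dt

end Pool.Agent.KS6_26.D
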