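import Pool.Agent.KS6_26.D.Lin

/-!
The derivatives of a point, together with the defects of the derivations, and determinants.
-/

set_option autoImplicit false

namespace Pool.Agent.KS6_26.D

variable {K : Type} [Field K] {ι S A X Δ : Type} [DecidableEq S]

/-- The derivatives of a point, and the defects. -/
def Ev (D : A → (ι →₀ ℕ) → Derivation ℤ K K) (c : A → (ι →₀ ℕ) → Δ → K) (x : ι → K) (a : A)
    (I : ι →₀ ℕ) : ι ⊕ Δ → K := Sum.elim (fun l => D a I (x l)) (c a I)

/-- The indices of the tangent vector fields: the position vectors, the vertical fields, and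
the differences of the derivatives. -/
abbrev Gx (ι S A X : Type) := S ⊕ X ⊕ (A × (ι →₀ ℕ) × ι × ι)

/-- The tangent vector fields. -/
noncomputable def gen (β : ι → S) (d : A → S → ℕ) (D : A → (ι →₀ ℕ) → Derivation ℤ K K)
    (c : A → (ι →₀ ℕ) → Δ → K) (E : X → Derivation ℤ K K) (x : ι → K) :
    Gx ι S A X → ι ⊕ Δ → K
  | Sum.inl s => Sum.elim (fun l => if β l = s then x l else 0) 0
  | Sum.inr (Sum.inl ξ) => Sum.elim (fun l => E ξ (x l)) 0
  | Sum.inr (Sum.inr t) =>
    open scoped Classical in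
    if β t.2.2.1 = β t.2.2.2 ∧ mdeg β (t.2.1 + Finsupp.single t.2.2.1 1) = d t.1 then
      x t.2.2.2 • Ev D c x t.1 (t.2.1 + Finsupp.single t.2.2.1 1) -
        x t.2.2.1 • Ev D c x t.1 (t.2.1 + Finsupp.single t.2.2.2 1) else 0

/-- The rows. -/
noncomputable def vv (β : ι → S) (d : A → S → ℕ) (D : A → (ι →₀ ℕ) → Derivation ℤ K K)
    (c : A → (ι →₀ ℕ) → Δ → K) (E : X → Derivation ℤ K K) (x : ι → K) (I : A → ι →₀ ℕ) :
    Gx ι S A X ⊕ A → ι ⊕ Δ → K
  | Sum.inl g => gen β d D c E x g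
  | Sum.inr a => Ev D c x a (I a)

/-- The change of the coordinates by a scaling. -/
def Sl (β : ι → S) (lam : S → K) : (ι ⊕ Δ → K) →ₗ[K] (ι ⊕ Δ → K) where
  toFun w := Sum.elim (fun l => lam (β l) * w (Sum.inl l)) (fun q => w (Sum.inr q))
  map_add' v w := by
    funext i
    rcases i with l | q
    · simp only [Sum.elim_inl, Pi.add_apply]; ring
    · rfl
  map_smul' r w := by
    funext i
    rcases i with l | q
    · simp only [Sum.elim_inl, Pi.smul_apply, smul_eq_mul, RingHom.id_apply]; ring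
    · rfl

/-- The factors of the rows. -/
def cf (β : ι → S) (lam : S → K) : Gx ι S A X ⊕ A → K
  | Sum.inl (Sum.inr (Sum.inr t)) => lam (β t.2.2.1)
  | _ => 1

/-- The factors of the columns. -/
def mu (β : ι → S) (lam : S → K) : ι ⊕ Δ → K
  | Sum.inl l => lam (β l)
  | Sum.inr _ => 1

omit [DecidableEq S] in
theorem Sl_apply (β : ι → S) (lam : S → K) (w : ι ⊕ Δ → K) (i : ι ⊕ Δ) :
    Sl β lam w i = mu β lam i * w i := by
  rcases i with l | q
  · rfl
  · exact (one_mul _).symm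

section scale

variable [Fintype S] {β : ι → S} {d : A → S → ℕ} {D : A → (ι →₀ ℕ) → Derivation ℤ K K}
  {c : A → (ι →₀ ℕ) → Δ → K} {E : X → Derivation ℤ K K} {x x' : ι → K} {lam : S → K}

theorem sum_gen (β : ι → S) (d : A → S → ℕ) (D : A → (ι →₀ ℕ) → Derivation ℤ K K)
    (c : A → (ι →₀ ℕ) → Δ → K) (E : X → Derivation ℤ K K) (x : ι → K) (κ : S → K) :
    ∑ s, κ s • gen β d D c E x (Sum.inl s) = Sum.elim (fun l => κ (β l) * x l) 0 := by
  funext i
  rw [Finset.sum_apply]
  rcases i with l | q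
  · rw [Sum.elim_inl, Finset.sum_eq_single (β l)]
    · simp [gen]
    · intro s _ hs
      simp [gen, hs.symm]
    · intro h; exact absurd (Finset.mem_univ _) h
  · rw [Sum.elim_inr]
    refine Finset.sum_eq_zero fun s _ => ?_
    simp [gen]

theorem Ev_scale (hlam : ∀ s, lam s ≠ 0) (hx : ∀ l, x l = lam (β l) * x' l) (a : A)
    (I : ι →₀ ℕ) : Ev D c x a I = Sl β lam (Ev D c x' a I +
      ∑ s, (D a I (lam s) / lam s) • gen β d D c E x' (Sum.inl s)) := by
  rw [sum_gen]
  funext i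
  rcases i with l | q
  · have h1 := hlam (β l)
    simp only [Ev, Sl, LinearMap.coe_mk, AddHom.coe_mk, Sum.elim_inl, Pi.add_apply]
    rw [hx, (D a I).leibniz]
    simp only [smul_eq_mul]
    field_simp
  · simp [Ev, Sl]

omit [Fintype S] in
theorem gen_scale (hx : ∀ l, x l = lam (β l) * x' l) (s : S) :
    gen β d D c E x (Sum.inl s) = Sl β lam (gen β d D c E x' (Sum.inl s)) := by
  funext i
  rcases i with l | q
  · simp only [gen, Sl, LinearMap.coe_mk, AddHom.coe_mk, Sum.elim_inl]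
    rw [hx]
    split_ifs <;> simp
  · simp [gen, Sl]

/-- The scaling of the rows. -/
theorem vv_scale (hlam : ∀ s, lam s ≠ 0) (hx : ∀ l, x l = lam (β l) * x' l) (I : A → ι →₀ ℕ)
    (i : Gx ι S A X ⊕ A) : ∃ κ : S → K, vv β d D c E x I i =
      Sl β lam (cf β lam i • vv β d D c E x' I i +
        ∑ s, κ s • gen β d D c E x' (Sum.inl s)) := by
  rcases i with (s | ξ | t) | a
  · refine ⟨fun _ => 0, ?_⟩
    simp only [zero_smul, Finset.sum_const_zero, add_zero, cf, one_smul, vv]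
    exact gen_scale hx s
  · refine ⟨fun s => E ξ (lam s) / lam s, ?_⟩
    rw [sum_gen]
    funext i
    rcases i with l | q
    · have h1 := hlam (β l)
      simp only [vv, gen, cf, Sl, LinearMap.coe_mk, AddHom.coe_mk, Sum.elim_inl, Pi.add_apply,
        one_smul]
      rw [hx, (E ξ).leibniz]
      simp only [smul_eq_mul]
      field_simp
    · simp [vv, gen, Sl, cf]
  · by_cases ht : β t.2.2.1 = β t.2.2.2 ∧ mdeg β (t.2.1 + Finsupp.single t.2.2.1 1) = d t.1
    · obtain ⟨κ1, hκ1⟩ : ∃ κ1 : S → K, κ1 = fun s =>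
        D t.1 (t.2.1 + Finsupp.single t.2.2.1 1) (lam s) / lam s := ⟨_, rfl⟩
      obtain ⟨κ2, hκ2⟩ : ∃ κ2 : S → K, κ2 = fun s =>
        D t.1 (t.2.1 + Finsupp.single t.2.2.2 1) (lam s) / lam s := ⟨_, rfl⟩
      have e1 := Ev_scale (d := d) (D := D) (c := c) (E := E) hlam hx t.1
        (t.2.1 + Finsupp.single t.2.2.1 1)
      have e2 := Ev_scale (d := d) (D := D) (c := c) (E := E) hlam hx t.1
        (t.2.1 + Finsupp.single t.2.2.2 1)
      obtain ⟨G, hG⟩ : ∃ G : S → ι ⊕ Δ → K, ∀ s, gen β d D c E x' (Sum.inl s) = G s :=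
        ⟨_, fun _ => rfl⟩
      simp only [hG] at e1 e2 ⊢
      refine ⟨fun s => lam (β t.2.2.1) * x' t.2.2.2 * κ1 s - lam (β t.2.2.1) * x' t.2.2.1 * κ2 s,
        ?_⟩
      simp only [vv, gen, cf]
      rw [if_pos ht, if_pos ht, e1, e2, hx t.2.2.1, hx t.2.2.2, ← ht.1, ← map_smul, ← map_smul,
        ← map_sub]
      congr 1
      rw [hκ1, hκ2]
      simp only [smul_add, smul_sub, sub_smul, Finset.sum_sub_distrib, ← smul_smul,
        ← Finset.smul_sum]
      abel
    · refine ⟨fun _ => 0, ?_⟩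
      simp only [vv, gen, if_neg ht, smul_zero, zero_smul, Finset.sum_const_zero, add_zero,
        map_zero]
  · refine ⟨fun s => D a (I a) (lam s) / lam s, ?_⟩
    simp only [vv, cf, one_smul]
    exact Ev_scale hlam hx a (I a)

/-- The matrix of the rows. -/
noncomputable def mx (β : ι → S) (d : A → S → ℕ) (D : A → (ι →₀ ℕ) → Derivation ℤ K K)
    (c : A → (ι →₀ ℕ) → Δ → K) (E : X → Derivation ℤ K K) (x : ι → K) (I : A → ι →₀ ℕ)
    (b : Finset (Gx ι S A X ⊕ A)) (σ : b → ι ⊕ Δ) : Matrix b b K :=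
  Matrix.of fun i j => vv β d D c E x I i (σ j)

open scoped Classical in
/-- The weights. -/
noncomputable def wt (β : ι → S) {b : Finset (Gx ι S A X ⊕ A)} (σ : b → ι ⊕ Δ) (s : S) : ℕ :=
  (Finset.univ.filter fun j : b => ∃ l, σ j = Sum.inl l ∧ β l = s).card +
    (b.filter fun i => ∃ t, i = Sum.inl (Sum.inr (Sum.inr t)) ∧ β t.2.2.1 = s).card

open scoped Classical in
omit [DecidableEq S] in
theorem prod_wt (β : ι → S) (lam : S → K) {b : Finset (Gx ι S A X ⊕ A)} (σ : b → ι ⊕ Δ) :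
    (∏ j, mu β lam (σ j)) * ∏ i : b, cf β lam i.1 = ∏ s, lam s ^ wt β σ s := by
  have h1 : ∀ j : b, mu β lam (σ j) =
      ∏ s, if ∃ l, σ j = Sum.inl l ∧ β l = s then lam s else 1 := by
    intro j
    rcases h : σ j with l | q
    · rw [Finset.prod_eq_single (β l)]
      · rw [if_pos ⟨l, rfl, rfl⟩]
        rfl
      · intro s _ hs
        rw [if_neg]
        rintro ⟨l', hl', hβ⟩
        exact hs (by rw [← hβ, Sum.inl_injective hl'])
      · intro h; exact absurd (Finset.mem_univ _) h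
    · rw [Finset.prod_eq_one]
      · rfl
      · intro s _
        rw [if_neg]
        rintro ⟨l', hl', -⟩
        exact absurd hl' (by simp)
  have h2 : ∀ i : Gx ι S A X ⊕ A, cf β lam i =
      ∏ s, if ∃ t, i = Sum.inl (Sum.inr (Sum.inr t)) ∧ β t.2.2.1 = s then lam s else 1 := by
    intro i
    have h3 : (∀ t, i ≠ Sum.inl (Sum.inr (Sum.inr t))) → cf β lam i = 1 → cf β lam i =
      ∏ s, if ∃ t, i = Sum.inl (Sum.inr (Sum.inr t)) ∧ β t.2.2.1 = s then lam s else 1 := by
      intro h4 h5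
      rw [h5, Finset.prod_eq_one]
      intro s _
      rw [if_neg]
      rintro ⟨t, ht, -⟩
      exact h4 t ht
    rcases i with (s | ξ | t) | a
    · exact h3 (fun t => by simp) rfl
    · exact h3 (fun t => by simp) rfl
    · rw [Finset.prod_eq_single (β t.2.2.1)]
      · rw [if_pos ⟨t, rfl, rfl⟩]
        rfl
      · intro s _ hs
        rw [if_neg]
        rintro ⟨t', ht', hβ⟩
        have h4 : t = t' := by simpa using ht'
        exact hs (by rw [← hβ, h4])
      · intro h; exact absurd (Finset.mem_univ _) h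
    · exact h3 (fun t => by simp) rfl
  simp only [h1, h2]
  rw [Finset.prod_comm, Finset.prod_comm (s := (Finset.univ : Finset b)), ← Finset.prod_mul_distrib]
  refine Finset.prod_congr rfl fun s _ => ?_
  rw [Finset.prod_coe_sort b (fun i => if ∃ t, i = Sum.inl (Sum.inr (Sum.inr t)) ∧ β t.2.2.1 = s
    then lam s else 1)]
  simp only [Finset.prod_ite, Finset.prod_const, one_pow, mul_one, ← pow_add]
  rfl

open scoped Classical in
/-- The determinant at a scaled point. -/
theorem det_lam (hlam : ∀ s, lam s ≠ 0) (hx : ∀ l, x l = lam (β l) * x' l)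
    {b : Finset (Gx ι S A X ⊕ A)} (hb : ∀ s, Sum.inl (Sum.inl s) ∈ b) (σ : b → ι ⊕ Δ)
    (I : A → ι →₀ ℕ) : (mx β d D c E x I b σ).det =
      (∏ s, lam s ^ wt β σ s) * (mx β d D c E x' I b σ).det := by
  choose κ hκ using vv_scale (d := d) (D := D) (c := c) (E := E) hlam hx I
  obtain ⟨r', hr'⟩ : ∃ r' : b → b → K, r' = fun i j => vv β d D c E x' I i.1 (σ j) := ⟨_, rfl⟩
  obtain ⟨N, hN⟩ : ∃ N : Set b, N = {i | ∃ s, i.1 = Sum.inl (Sum.inl s)} := ⟨_, rfl⟩
  obtain ⟨κ', hκ'⟩ : ∃ κ' : b → S → K, κ' = fun i s => if i ∈ N then 0 else κ i.1 s := ⟨_, rfl⟩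
  obtain ⟨r, hr⟩ : ∃ r : b → b → K, r = fun i => cf β lam i.1 • r' i +
    ∑ s, κ' i s • r' ⟨Sum.inl (Sum.inl s), hb s⟩ := ⟨_, rfl⟩
  have h1 : mx β d D c E x I b σ = Matrix.of fun i j => mu β lam (σ j) * Matrix.of r i j := by
    ext i j
    simp only [mx, Matrix.of_apply, hr, Pi.add_apply, Finset.sum_apply, Pi.smul_apply]
    by_cases hi : i ∈ N
    · have hi' := hi
      rw [hN] at hi'
      obtain ⟨s, hs⟩ := hi'
      have h2 : ∀ s, κ' i s = 0 := fun s => by rw [hκ']; simp only [if_pos hi]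
      simp only [h2, zero_smul, Finset.sum_const_zero, add_zero]
      rw [hr', hs]
      simp only [vv, cf, one_smul]
      rw [hs]
      rw [gen_scale hx s, Sl_apply]
    · have h2 : ∀ s, κ' i s = κ i.1 s := fun s => by rw [hκ']; simp only [if_neg hi]
      simp only [h2]
      rw [hκ, Sl_apply, hr', Pi.add_apply, Finset.sum_apply]
      rfl
  have h3 := det_span N r r' (fun i => cf β lam i.1) (fun i hi => by
    have h2 : ∀ s, κ' i s = 0 := fun s => by rw [hκ']; simp only [if_pos hi]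
    rw [hN] at hi
    obtain ⟨s, hs⟩ := hi
    rw [hr]
    simp only [h2, zero_smul, Finset.sum_const_zero, add_zero]
    rw [hs]
    simp only [cf, one_smul]) (fun i hi => by
    rw [hr]
    simp only [add_sub_cancel_left]
    refine sum_mem fun s _ => Submodule.smul_mem _ _ (Submodule.subset_span ⟨_, ?_, rfl⟩)
    rw [hN]
    exact ⟨s, rfl⟩)
  have h4 : (∏ i : b, if i ∈ N then 1 else cf β lam i.1) = ∏ i : b, cf β lam i.1 := by
    refine Finset.prod_congr rfl fun i _ => ?_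
    split_ifs with hi
    · rw [hN] at hi
      obtain ⟨s, hs⟩ := hi
      rw [hs]
      rfl
    · rfl
  rw [h1, Matrix.det_mul_row, h3, h4, ← mul_assoc, prod_wt, hr']
  rfl

/-- The exchange of variables. -/
theorem Ev_mod {e : S → ι} (he : ∀ s, β (e s) = s) (hx : ∀ s, x (e s) ≠ 0) (a : A)
    {J : ι →₀ ℕ} (hJ : mdeg β J = d a) :
    Ev D c x a J - (mn x J / mn x (std e (d a))) • Ev D c x a (std e (d a)) ∈
      Submodule.span K (Set.range (gen β d D c E x)) := by
  refine exch _ (Ev D c x a) x (d a) he hx (fun M l l' hl hM => ?_) _ J hJ rfl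
  have h1 : gen β d D c E x (Sum.inr (Sum.inr (a, M, l, l'))) =
      x l' • Ev D c x a (M + Finsupp.single l 1) - x l • Ev D c x a (M + Finsupp.single l' 1) := by
    simp only [gen]
    rw [if_pos ⟨hl, hM⟩]
  rw [← h1]
  exact Submodule.subset_span ⟨_, rfl⟩

open scoped Classical in
/-- The determinant with other exponents. -/
theorem det_change {e e' : S → ι} (he : ∀ s, β (e s) = s) (hx : ∀ s, x (e s) ≠ 0)
    (he' : ∀ s, β (e' s) = s) {b : Finset (Gx ι S A X ⊕ A)} (σ : b → ι ⊕ Δ)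
    (hspan : Submodule.span K (Set.range (gen β d D c E x)) ≤
      Submodule.span K (gen β d D c E x '' {g | Sum.inl g ∈ b})) :
    (mx β d D c E x (fun a => std e' (d a)) b σ).det =
      (∏ i ∈ b, Sum.elim (fun _ => (1 : K))
        (fun a => mn x (std e' (d a)) / mn x (std e (d a))) i) *
        (mx β d D c E x (fun a => std e (d a)) b σ).det := by
  obtain ⟨r, hr⟩ : ∃ r : b → b → K, r = fun i j =>
    vv β d D c E x (fun a => std e' (d a)) i.1 (σ j) := ⟨_, rfl⟩
  obtain ⟨r', hr'⟩ : ∃ r' : b → b → K, r' = fun i j =>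
    vv β d D c E x (fun a => std e (d a)) i.1 (σ j) := ⟨_, rfl⟩
  obtain ⟨cc, hcc⟩ : ∃ cc : Gx ι S A X ⊕ A → K, cc = Sum.elim (fun _ => (1 : K))
        (fun a => mn x (std e' (d a)) / mn x (std e (d a))) := ⟨_, rfl⟩
  obtain ⟨N, hN⟩ : ∃ N : Set b, N = {i | ∃ g, i.1 = Sum.inl g} := ⟨_, rfl⟩
  have h3 := det_span N r r' (fun i => cc i.1) (fun i hi => by
    rw [hN] at hi
    obtain ⟨g, hg⟩ := hi
    rw [hr, hr']
    simp only [hg]
    rfl) (fun i hi => by
    obtain ⟨a, ha⟩ : ∃ a, i.1 = Sum.inr a := by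
      rcases h : i.1 with g | a
      · exact absurd (by rw [hN]; exact ⟨g, h⟩) hi
      · exact ⟨a, rfl⟩
    obtain ⟨w, hw⟩ : ∃ w, w = Ev D c x a (std e' (d a)) -
      (mn x (std e' (d a)) / mn x (std e (d a))) • Ev D c x a (std e (d a)) := ⟨_, rfl⟩
    have hwW : w ∈ Submodule.span K (gen β d D c E x '' {g | Sum.inl g ∈ b}) := by
      apply hspan
      rw [hw]
      exact Ev_mod he hx a (mdeg_std he' _)
    obtain ⟨π, hπ⟩ : ∃ π : (ι ⊕ Δ → K) →ₗ[K] (b → K), ∀ z j, π z j = z (σ j) :=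
      ⟨{ toFun := fun z j => z (σ j)
         map_add' := fun _ _ => rfl
         map_smul' := fun _ _ => rfl }, fun _ _ => rfl⟩
    have h7 : r i - cc i.1 • r' i = π w := by
      funext j
      rw [hπ, hr, hr', hcc, hw]
      simp only [Pi.sub_apply, Pi.smul_apply, ha, vv, Sum.elim_inr]
    rw [h7]
    have h8 : π w ∈ (Submodule.span K (gen β d D c E x '' {g | Sum.inl g ∈ b})).map π :=
      ⟨w, hwW, rfl⟩
    rw [Submodule.map_span] at h8
    refine Submodule.span_mono ?_ h8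
    rintro _ ⟨_, ⟨g, hg, rfl⟩, rfl⟩
    refine ⟨⟨Sum.inl g, hg⟩, by rw [hN]; exact ⟨g, rfl⟩, ?_⟩
    rw [hr']
    funext j
    rw [hπ]
    rfl)
  have h4 : (∏ i : b, if i ∈ N then 1 else cc i.1) = ∏ i ∈ b, cc i := by
    rw [← Finset.prod_coe_sort b cc]
    refine Finset.prod_congr rfl fun i _ => ?_
    split_ifs with hi
    · rw [hN] at hi
      obtain ⟨g, hg⟩ := hi
      rw [hg, hcc]
      rfl
    · rfl
  rw [h4, hr, hr', hcc] at h3
  exact h3

end scale

end Pool.Agent.KS6_26.D
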