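import Pool.Agent.KS6_26.D.Single

/-!
Preimages under generic maps.
-/

set_option autoImplicit false

open MvPolynomial Pool.Agent.W602.GT LinearAlgebra.Projectivization

namespace Pool.Agent.KS6_26.D

theorem mn_weight {σ K : Type} [Field K] (wt : σ → ℕ) (lam : K) (x : σ → K) (J : σ →₀ ℕ) :
    mn (fun l => lam ^ wt l * x l) J = lam ^ (Finsupp.weight wt J) * mn x J := by
  induction J using Finsupp.induction_linear with
  | zero => simp [mn_zero]
  | add I J hI hJ =>
    rw [mn_add, mn_add, hI, hJ, map_add, pow_add]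
    ring
  | single l k =>
    rw [mn_single, mn_single, Finsupp.weight_single, mul_pow, smul_eq_mul, ← pow_mul, mul_comm k]

theorem aeval_weight {σ K L : Type} [Field K] [Field L] [Algebra K L] {wt : σ → ℕ}
    {F : MvPolynomial σ K} {e : ℕ} (h : IsWeightedHomogeneous wt F e) (lam : L)
    (x : σ → L) : aeval (fun l => lam ^ wt l * x l) F = lam ^ e * aeval x F := by
  rw [aeval_sum (M := F.support) (fun J hJ => mem_support_iff.2 hJ),
    aeval_sum (M := F.support) (fun J hJ => mem_support_iff.2 hJ), Finset.mul_sum]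
  refine Finset.sum_congr rfl fun J hJ => ?_
  rw [mn_weight, h (mem_support_iff.1 hJ)]
  ring

/-- The condition on the dimensions, for the locally closed subset `Z` of the total space of the
sum of the line bundles `O(d a)` on projective space that is given by the equations in `R`,
and by the condition that not all polynomials in `H` are zero, in the variables `x` (coordinates of
projective space) and `u` (coordinates in the fibres): for each point `(x, u)` of `Z`, if `r` is the
dimension of the point `x` (of its closure over `k`), and `f` is the dimension of `(x, u)` in the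
fibre over `x`, then `2 r + 2 ≤ ∑ (d a + 1) + w`, where the sum is over any subset of at least
`|A| - f` indices. -/
def ZCond (k : Type) [Field k] {n : ℕ} {A : Type} [Fintype A] (d : A → ℕ)
    (R H : Set (MvPolynomial (Fin (n + 1) ⊕ A) k)) (w : ℕ) : Prop :=
  ∀ (Ω : Type) [Field Ω] [Algebra k Ω] (x : Fin (n + 1) → Ω) (u : A → Ω), x ≠ 0 →
    (∀ f ∈ R, aeval (Sum.elim x u) f = 0) → (∃ h ∈ H, aeval (Sum.elim x u) h ≠ 0) → ∃ r f : ℕ,
      Algebra.trdeg k (coords k x) ≤ r ∧
      Algebra.trdeg (coords k x) (IntermediateField.adjoin (coords k x)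
        {z | ∃ a j, x j ≠ 0 ∧ z = u a / x j ^ d a}) ≤ f ∧
      ∀ B : Finset A, Fintype.card A ≤ B.card + f → 2 * r + 2 ≤ ∑ a ∈ B, (d a + 1) + w

/-- The polynomials in `R` and `H` are homogeneous, if the variables `u a` have weights `d a`, and
the condition on the dimensions holds. -/
structure Adm (k : Type) [Field k] {n : ℕ} {A : Type} [Fintype A] (d : A → ℕ)
    (R H : Set (MvPolynomial (Fin (n + 1) ⊕ A) k)) (w : ℕ) : Prop where
  homR : ∀ f ∈ R, ∃ e, IsWeightedHomogeneous (Sum.elim (fun _ => 1) d) f e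
  homH : ∀ f ∈ H, ∃ e, IsWeightedHomogeneous (Sum.elim (fun _ => 1) d) f e
  dim : ZCond k d R H w

section zero

variable {n : ℕ} {A : Type} {d : A → ℕ}

theorem free_unit {k0 K : Type} [Field k0] [Field K] [Algebra k0 K]
    (F : A → MvPolynomial (Fin (n + 1)) K) (q : Empty → A × (Fin (n + 1) →₀ ℕ))
    (hgen : AlgebraicIndependent k0
      fun p : {p : A × (Fin (n + 1) →₀ ℕ) // p.2.degree = d p.1} => (F p.1.1).coeff p.1.2) :
    AlgebraicIndependent k0 fun p : Fr (fun _ : Fin (n + 1) => ()) (fun a _ => d a) q =>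
      (F p.1.1).coeff p.1.2 := by
  have h1 : ∀ p : Fr (fun _ : Fin (n + 1) => ()) (fun (a : A) _ => d a) q,
      p.1.2.degree = d p.1.1 := fun p => by
    rw [← mdeg_unit (β := fun _ : Fin (n + 1) => ()) p.1.2 (), p.2.1]
  have h2 := hgen.comp (fun p : Fr (fun _ : Fin (n + 1) => ()) (fun (a : A) _ => d a) q =>
    (⟨p.1, h1 p⟩ : {p : A × (Fin (n + 1) →₀ ℕ) // p.2.degree = d p.1})) (fun p p' h => by
      have h3 := congrArg Subtype.val h
      exact Subtype.ext h3)
  exact h2

variable [Fintype A]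

theorem hyp_zero {k0 : Type} [Field k0] [CharZero k0]
    {R H : Set (MvPolynomial (Fin (n + 1) ⊕ A) k0)} {w : ℕ} (hR : ZCond k0 d R H w) {δ : ℕ}
    (hδ : δ = 0) (l0 : Unit → Fin (n + 1)) {h : MvPolynomial (Fin (n + 1) ⊕ A) k0} (hh : h ∈ H) :
    HypL k0 (fun _ : Fin (n + 1) => ()) (fun a _ => d a) δ w l0 R h := by
  subst hδ
  intro L _ _ x u hx hxR hxh
  have hc : CharZero L := charZero_of_injective_algebraMap (algebraMap k0 L).injective
  have hx0 : x ≠ 0 := by
    intro h
    have h1 := hx ()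
    rw [h] at h1
    exact zero_ne_one h1
  obtain ⟨r, f, h1, h2, h3⟩ := hR L x u hx0 hxR ⟨h, hh, hxh⟩
  have h4 : ∀ j, x j ∈ coords k0 x := fun j =>
    IntermediateField.subset_adjoin _ _ ⟨j, l0 (), by rw [hx]; exact one_ne_zero, by
      rw [hx, div_one]⟩
  refine ⟨r, f, fun _ => r, finrank_DI_le x _ h4 h1, fun s => finrank_DI_le
    (fun l : {l : Fin (n + 1) // (fun _ => ()) l = s} => x l) _ (fun l => h4 l) h1, ?_,
    fun B hB s => ?_⟩
  · have h5 : ∀ a, u a ∈ IntermediateField.adjoin (coords k0 x)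
        {z | ∃ a j, x j ≠ 0 ∧ z = u a / x j ^ d a} := fun a =>
      IntermediateField.subset_adjoin _ _ ⟨a, l0 (), by rw [hx]; exact one_ne_zero, by
        rw [hx, one_pow, div_one]⟩
    have h6 := finrank_DI_le (k0 := coords k0 x) u _ h5 h2
    refine le_trans (Submodule.finrank_mono ?_) h6
    rintro y ⟨D, hD, hDx, hy⟩
    refine ⟨D, fun c => ?_, hy⟩
    have hZ : ∀ z ∈ Subfield.closure (Set.range (algebraMap k0 L) ∪
        {z | ∃ i j, x j ≠ 0 ∧ z = x i / x j}), D z = 0 := by
      intro z hz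
      induction hz using Subfield.closure_induction with
      | mem z hz =>
        rcases hz with ⟨r, rfl⟩ | ⟨i, j, -, rfl⟩
        · exact hD r
        · rw [Derivation.leibniz_div, hDx, hDx]
          simp
      | one => exact D.map_one_eq_zero
      | add a b _ _ ha hb => rw [map_add, ha, hb, add_zero]
      | neg a _ ha => rw [map_neg, ha, neg_zero]
      | inv a _ ha => rw [Derivation.leibniz_inv, ha, smul_zero]
      | mul a b _ _ ha hb => rw [D.leibniz, ha, hb, smul_zero, smul_zero, add_zero]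
    refine hZ _ ?_
    rw [← IntermediateField.adjoin_toSubfield]
    exact c.2
  · have := h3 B hB
    dsimp only
    omega

/-- Finitely many of the polynomials suffice. -/
theorem exists_finset {k0 σ : Type} [Field k0] [Finite σ] (H : Set (MvPolynomial σ k0)) :
    ∃ H0 : Finset (MvPolynomial σ k0), (H0 : Set (MvPolynomial σ k0)) ⊆ H ∧
      ∀ (L : Type) [Field L] [Algebra k0 L] (x : σ → L), (∃ h ∈ H, aeval x h ≠ 0) →
        ∃ h ∈ H0, aeval x h ≠ 0 := by
  obtain ⟨H0, h1, h2⟩ := (Submodule.fg_span_iff_fg_span_finset_subset H).1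
    (IsNoetherian.noetherian (Submodule.span (MvPolynomial σ k0) H))
  refine ⟨H0, h1, fun L _ _ x hx => ?_⟩
  by_contra hcon
  push Not at hcon
  obtain ⟨h, hh, hx⟩ := hx
  apply hx
  have h3 : Submodule.span (MvPolynomial σ k0) (H0 : Set (MvPolynomial σ k0)) ≤
      RingHom.ker (aeval x : MvPolynomial σ k0 →ₐ[k0] L) := by
    rw [Submodule.span_le]
    intro g hg
    exact hcon g hg
  have h4 : h ∈ Submodule.span (MvPolynomial σ k0) H := Submodule.subset_span hh
  rw [h2] at h4
  exact h3 h4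

variable {k0 K : Type} [Field k0] [Field K] [Algebra k0 K] [IsAlgClosed K] [CharZero K]

/-- The points over finitely generated fields. -/
theorem fin_zero [IsAlgClosed k0] {R H : Set (MvPolynomial (Fin (n + 1) ⊕ A) k0)}
    (hRh : ∀ f ∈ R, ∃ e, IsWeightedHomogeneous (Sum.elim (fun _ => 1) d) f e)
    (hHh : ∀ f ∈ H, ∃ e, IsWeightedHomogeneous (Sum.elim (fun _ => 1) d) f e)
    (hR : ZCond k0 d R H 0) {F : A → MvPolynomial (Fin (n + 1)) K}
    (hF : ∀ a, (F a).IsHomogeneous (d a))
    (hgen : AlgebraicIndependent k0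
      fun p : {p : A × (Fin (n + 1) →₀ ℕ) // p.2.degree = d p.1} => (F p.1.1).coeff p.1.2)
    (T : Finset K) :
    {p : ℙ K (Fin (n + 1) → K) | ∃ x : Fin (n + 1) → K,
      (∀ i, x i ∈ IntermediateField.adjoin k0 (T : Set K)) ∧
      (∀ f ∈ R, aeval (Sum.elim x fun a => eval x (F a)) f = 0) ∧
      (∃ h ∈ H, aeval (Sum.elim x fun a => eval x (F a)) h ≠ 0) ∧
      ∃ hx : x ≠ 0, p = Projectivization.mk K x hx}.Finite := by
  have hc0 : CharZero k0 := by
    constructor
    intro a b hab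
    have h1 := congrArg (algebraMap k0 K) hab
    rw [map_natCast, map_natCast] at h1
    exact Nat.cast_injective h1
  obtain ⟨Mn, hMn⟩ := exists_Mn (fun _ : Fin (n + 1) => ()) (fun (a : A) (_ : Unit) => d a)
  have hval : ∀ a (x : Fin (n + 1) → K), eval x (F a) = ∑ J ∈ Mn a, (F a).coeff J * mn x J := by
    intro a x
    have h1 := aeval_sum (F := F a) (M := Mn a) (fun J hJ =>
      (hMn a J).2 (coeff_unit hF a J hJ)) x
    rw [aeval_eq_eval] at h1
    exact h1
  have hscale : ∀ f : MvPolynomial (Fin (n + 1) ⊕ A) k0, ∀ e,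
      IsWeightedHomogeneous (Sum.elim (fun _ => 1) d) f e → ∀ (x : Fin (n + 1) → K) (b : K),
      aeval (Sum.elim (b • x) fun a => eval (b • x) (F a)) f =
        b ^ e * aeval (Sum.elim x fun a => eval x (F a)) f := by
    intro f e he x b
    have h1 := aeval_weight he b (Sum.elim x fun a => eval x (F a))
    have h2 : (fun l => b ^ (Sum.elim (fun _ => 1) d : Fin (n + 1) ⊕ A → ℕ) l *
        (Sum.elim x fun a => eval x (F a) : Fin (n + 1) ⊕ A → K) l) =
        Sum.elim (b • x) fun a => eval (b • x) (F a) := by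
      funext l
      rcases l with l | a
      · simp
      · simp only [Sum.elim_inr]
        rw [Pool.Agent.TH145.GH.eval_smul_hom (hF a) x b]
    rw [h2] at h1
    exact h1
  obtain ⟨H0, hH0, hH0'⟩ := exists_finset H
  have hfin : ∀ h ∈ H0, {p : ℙ K (Fin (n + 1) → K) |
      ∃ x ∈ {x : Fin (n + 1) → K | (∀ f ∈ R, aeval (Sum.elim x fun a => eval x (F a)) f = 0) ∧
        aeval (Sum.elim x fun a => eval x (F a)) h ≠ 0},
      (∀ i, x i ∈ (IntermediateField.adjoin k0 (T : Set K)).toSubfield) ∧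
      ∃ hx : x ≠ 0, p = Projectivization.mk K x hx}.Finite := by
    intro h hh
    refine Pool.Agent.TH145.GH.proj_finite (IntermediateField.adjoin k0 (T : Set K)).toSubfield
      _ (fun x hx b hb => ⟨fun f hf => ?_, ?_⟩) fun l0 => ?_
    · obtain ⟨e, he⟩ := hRh f hf
      rw [hscale f e he, hx.1 f hf, mul_zero]
    · obtain ⟨e, he⟩ := hHh h (hH0 hh)
      rw [hscale h e he]
      exact mul_ne_zero (pow_ne_zero _ hb) hx.2
    · have h1 := fin_points (β := fun _ : Fin (n + 1) => ()) (d := fun (a : A) _ => d a)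
        (q := fun δ : Empty => δ.elim) hMn blk_unit
        (l0 := fun _ => l0) (fun _ => rfl) (hyp_zero hR rfl _ (hH0 hh)) (fun δ => δ.elim)
        (t := fun a J => (F a).coeff J) (free_unit F _ hgen) T
      refine h1.subset ?_
      rintro x ⟨hx, hxl, hxR, hxh⟩
      refine ⟨hx, fun _ => hxl, fun f hf => ?_, ?_⟩
      · simp only [← hval]
        exact hxR f hf
      · simp only [← hval]
        exact hxh
  refine (H0.finite_toSet.biUnion fun h hh => hfin h hh).subset ?_
  rintro p ⟨x, hx, hxR, hxH, hx0, hp⟩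
  obtain ⟨h, hh, hxh⟩ := hH0' K (Sum.elim x fun a => eval x (F a)) hxH
  exact Set.mem_iUnion₂.2 ⟨h, hh, x, ⟨hxR, hxh⟩, hx, hx0, hp⟩

/-- The subvarieties are of general type. -/
theorem general_zero {R H : Set (MvPolynomial (Fin (n + 1) ⊕ A) k0)} {w : ℕ}
    (hRh : ∀ f ∈ R, ∃ e, IsWeightedHomogeneous (Sum.elim (fun _ => 1) d) f e)
    (hHh : ∀ f ∈ H, ∃ e, IsWeightedHomogeneous (Sum.elim (fun _ => 1) d) f e)
    (hR : ZCond k0 d R H w) {F : A → MvPolynomial (Fin (n + 1)) K}
    (hF : ∀ a, (F a).IsHomogeneous (d a))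
    (hgen : AlgebraicIndependent k0
      fun p : {p : A × (Fin (n + 1) →₀ ℕ) // p.2.degree = d p.1} => (F p.1.1).coeff p.1.2)
    {L : Type} [Field L] [Algebra K L] (hw : 0 < w) (htr : Algebra.trdeg K L = w)
    {x : Fin (n + 1) → L} (hx : x ≠ 0) (hgx : Algebra.IsAlgebraic (coords K x) L)
    (hxR : ∀ f ∈ R, aeval (Sum.elim x fun a => aeval x (F a)) (map (algebraMap k0 K) f) = 0)
    (hxH : ∃ h ∈ H,
      aeval (Sum.elim x fun a => aeval x (F a)) (map (algebraMap k0 K) h) ≠ 0) :
    GeneralType K L w := by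
  have hc0 : CharZero k0 := by
    constructor
    intro a b hab
    have h1 := congrArg (algebraMap k0 K) hab
    rw [map_natCast, map_natCast] at h1
    exact Nat.cast_injective h1
  let _ : Algebra k0 L := ((algebraMap K L).comp (algebraMap k0 K)).toAlgebra
  have hst : IsScalarTower k0 K L := IsScalarTower.of_algebraMap_eq fun _ => rfl
  obtain ⟨Mn, hMn⟩ := exists_Mn (fun _ : Fin (n + 1) => ()) (fun (a : A) (_ : Unit) => d a)
  obtain ⟨c0, hc0'⟩ := Function.ne_iff.1 hx
  have hc0' : x c0 ≠ 0 := hc0'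
  obtain ⟨x', hx'⟩ : ∃ x' : Fin (n + 1) → L, x' = fun j => (x c0)⁻¹ * x j := ⟨_, rfl⟩
  have hcx : (x c0)⁻¹ ≠ 0 := inv_ne_zero hc0'
  have hx1 : x' c0 = 1 := by
    rw [hx']
    exact inv_mul_cancel₀ hc0'
  have hxx : x' = (x c0)⁻¹ • x := by rw [hx']; rfl
  have hsub : coords K x ≤ IntermediateField.adjoin K (Set.range x') := by
    unfold coords
    rw [IntermediateField.adjoin_le_iff]
    rintro z ⟨i, j, hj, rfl⟩
    have h1 : x i / x j = x' i / x' j := by
      rw [hx']
      field_simp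
    rw [SetLike.mem_coe, h1]
    exact div_mem (IntermediateField.subset_adjoin _ _ ⟨i, rfl⟩)
      (IntermediateField.subset_adjoin _ _ ⟨j, rfl⟩)
  have hgen' : Algebra.IsAlgebraic (IntermediateField.adjoin K (Set.range x')) L := by
    refine ⟨fun f => ?_⟩
    have h3 := hgx.isAlgebraic f
    exact Pool.Agent.TH145.MF.alg_mono (F1 := (coords K x).toSubfield)
      (F2 := (IntermediateField.adjoin K (Set.range x')).toSubfield) (fun z hz => hsub hz) h3
  have hval : ∀ a, ∑ J ∈ Mn a, algebraMap K L ((F a).coeff J) * mn x' J = aeval x' (F a) :=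
    fun a => (aeval_sum (F := F a) (M := Mn a) (fun J hJ =>
      (hMn a J).2 (coeff_unit hF a J hJ)) x').symm
  have hscale : ∀ f : MvPolynomial (Fin (n + 1) ⊕ A) k0, ∀ e,
      IsWeightedHomogeneous (Sum.elim (fun _ => 1) d) f e →
      aeval (Sum.elim x' fun a =>
        ∑ J ∈ Mn a, algebraMap K L ((F a).coeff J) * mn x' J) f =
        (x c0)⁻¹ ^ e * aeval (Sum.elim x fun a => aeval x (F a)) f := by
    intro f e he
    rw [← aeval_weight he (x c0)⁻¹ (Sum.elim x fun a => aeval x (F a))]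
    congr 2
    funext l
    rcases l with l | a
    · simp [hx']
    · simp only [Sum.elim_inr]
      rw [hval, hxx, Pool.Agent.TH145.MG.aeval_smul (hF a)]
  obtain ⟨h, hh, hxh⟩ := hxH
  rw [aeval_map_algebraMap] at hxh
  refine general_free (k0 := k0) (β := fun _ : Fin (n + 1) => ()) (d := fun (a : A) _ => d a)
    (q := fun δ : Empty => δ.elim)
    blk_unit hMn (fun δ => δ.elim) (t := fun a J => (F a).coeff J) (free_unit F _ hgen)
    (R := R) (g := h) (l0 := fun _ => c0)
    (fun _ => rfl) (hyp_zero hR rfl _ hh) hw htr (x := x') (fun _ => hx1) hgen'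
    (fun f hf => ?_) ?_
  · obtain ⟨e, he⟩ := hRh f hf
    have h4 := hxR f hf
    rw [aeval_map_algebraMap] at h4
    rw [hscale f e he, h4, mul_zero]
  · obtain ⟨e, he⟩ := hHh h hh
    rw [hscale h e he]
    exact mul_ne_zero (pow_ne_zero _ hcx) hxh

/-- The condition for products of a closed subset of projective space of dimension at most `m` and
a weighted cone of dimension at most `c`. -/
theorem zcond_prod {k0 : Type} [Field k0] {V : Set (MvPolynomial (Fin (n + 1)) k0)}
    {Y : Set (MvPolynomial A k0)} {m c w : ℕ} (hV : Pool.Agent.TH145.MG.DimLE k0 V m)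
    (hYh : ∀ g ∈ Y, ∃ e, IsWeightedHomogeneous d g e)
    (hY : ∀ (Ω : Type) [Field Ω] [Algebra k0 Ω] (u : A → Ω), (∀ g ∈ Y, aeval u g = 0) →
      Algebra.trdeg k0 (IntermediateField.adjoin k0 (Set.range u)) ≤ c)
    (hd : ∀ B : Finset A, Fintype.card A ≤ B.card + c → 2 * m + 2 ≤ ∑ a ∈ B, (d a + 1) + w) :
    ZCond k0 d (rename Sum.inl '' V ∪ rename Sum.inr '' Y) {1} w := by
  classical
  intro Ω _ _ x u hx hxR _
  have hxV : ∀ f ∈ V, aeval x f = 0 := fun f hf => by
    have h1 := hxR _ (Or.inl ⟨f, hf, rfl⟩)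
    rw [aeval_rename] at h1
    exact h1
  have huY : ∀ g ∈ Y, aeval u g = 0 := fun g hg => by
    have h1 := hxR _ (Or.inr ⟨g, hg, rfl⟩)
    rw [aeval_rename] at h1
    exact h1
  refine ⟨m, c, hV Ω x hx hxV, ?_, hd⟩
  obtain ⟨j0, hj0⟩ := Function.ne_iff.1 hx
  have hj0 : x j0 ≠ 0 := hj0
  obtain ⟨u', hu'⟩ : ∃ u' : A → Ω, ∀ a, u' a = (x j0)⁻¹ ^ d a * u a := ⟨_, fun _ => rfl⟩
  have hu'Y : ∀ g ∈ Y, aeval u' g = 0 := fun g hg => by
    obtain ⟨e, he⟩ := hYh g hg
    have h1 := aeval_weight he (x j0)⁻¹ u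
    rw [huY g hg, mul_zero] at h1
    rw [← h1]
    congr 2
    funext a
    exact hu' a
  obtain ⟨I, hI, hIu⟩ := exists_basisF u' (IntermediateField.adjoin k0 (Set.range u'))
    (fun a => IntermediateField.subset_adjoin _ _ ⟨a, rfl⟩) (hY Ω u' hu'Y)
  refine (trdeg_le_of_cl (J := I) _ (fun i => u' i) fun z hz => ?_).trans ?_
  · have h1 : IntermediateField.adjoin (coords k0 x)
        {z | ∃ a j, x j ≠ 0 ∧ z = u a / x j ^ d a} ≤
        Pool.Agent.TH145.MG.cl (coords k0 x) (Set.range fun i : I => u' i) := by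
      rw [IntermediateField.adjoin_le_iff]
      rintro _ ⟨a, j, hj, rfl⟩
      have h2 : u a / x j ^ d a = u' a * (x j0 / x j) ^ d a := by
        rw [hu', div_pow, inv_pow]
        have := pow_ne_zero (d a) hj0
        field_simp
      rw [h2]
      refine mul_mem ?_ (pow_mem ?_ _)
      · have h3 := Pool.Agent.TH145.MG.mem_cl.1 (hIu a)
        refine Pool.Agent.TH145.MG.mem_cl.2 ?_
        refine Pool.Agent.TH145.MF.alg_mono
          (F1 := (IntermediateField.adjoin k0 (u' '' I)).toSubfield)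
          (F2 := (IntermediateField.adjoin (coords k0 x)
            (Set.range fun i : I => u' i)).toSubfield) (fun z hz => ?_) h3
        rw [IntermediateField.adjoin_toSubfield] at hz
        have h4 : Subfield.closure (Set.range (algebraMap k0 Ω) ∪ u' '' I) ≤
            (IntermediateField.adjoin (coords k0 x)
              (Set.range fun i : I => u' i)).toSubfield := by
          rw [Subfield.closure_le]
          rintro _ (⟨r, rfl⟩ | ⟨i, hi, rfl⟩)
          · exact IntermediateField.algebraMap_mem _ (algebraMap k0 (coords k0 x) r)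
          · exact IntermediateField.subset_adjoin _ _ ⟨⟨i, hi⟩, rfl⟩
        exact h4 hz
      · exact IntermediateField.algebraMap_mem _
          (⟨_, IntermediateField.subset_adjoin _ _ ⟨j0, j, hj, rfl⟩⟩ : coords k0 x)
    exact h1 hz
  · rw [Nat.card_eq_fintype_card, Fintype.card_coe]
    exact_mod_cast hI

theorem wh_rename {σ τ R : Type} [CommSemiring R] {f : σ → τ} {wt : τ → ℕ} {wt' : σ → ℕ}
    (hwt : ∀ i, wt (f i) = wt' i) {φ : MvPolynomial σ R} {e : ℕ}
    (h : IsWeightedHomogeneous wt' φ e) : IsWeightedHomogeneous wt (rename f φ) e := by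
  intro D hD
  obtain ⟨u, rfl, hu⟩ := coeff_rename_ne_zero f φ D hD
  rw [← h hu]
  clear hD hu
  induction u using Finsupp.induction_linear with
  | zero => simp
  | add I J hI hJ => rw [Finsupp.mapDomain_add, map_add, map_add, hI, hJ]
  | single l k =>
    rw [Finsupp.mapDomain_single, Finsupp.weight_single, Finsupp.weight_single, hwt]

/-- The condition for linear systems with base locus given by the forms `G a`. -/
theorem zcond_base {k0 C : Type} [Field k0] [Fintype C] {d : C × A → ℕ}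
    {V : Set (MvPolynomial (Fin (n + 1)) k0)} {m w : ℕ}
    (hV : Pool.Agent.TH145.MG.DimLE k0 V m) {G : A → MvPolynomial (Fin (n + 1)) k0} {g : A → ℕ}
    (hG : ∀ a, (G a).IsHomogeneous (g a)) {D : C → ℕ} (hD : ∀ b a, d (b, a) + g a = D b)
    (hd : ∀ B : Finset (C × A), Fintype.card C ≤ B.card →
      2 * m + 2 ≤ ∑ p ∈ B, (d p + 1) + w) :
    ZCond k0 d (rename Sum.inl '' V ∪
      Set.range fun b => ∑ a, rename Sum.inl (G a) * X (Sum.inr (b, a)))
      (rename Sum.inl '' Set.range G) w := by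
  classical
  intro Ω _ _ x u hx hxR hxH
  have hxV : ∀ f ∈ V, aeval x f = 0 := fun f hf => by
    have h1 := hxR _ (Or.inl ⟨f, hf, rfl⟩)
    rw [aeval_rename] at h1
    exact h1
  obtain ⟨a0, ha0⟩ : ∃ a0, aeval x (G a0) ≠ 0 := by
    obtain ⟨_, ⟨_, ⟨a0, rfl⟩, rfl⟩, h1⟩ := hxH
    rw [aeval_rename] at h1
    exact ⟨a0, h1⟩
  have hxe : ∀ b, ∑ a, aeval x (G a) * u (b, a) = 0 := fun b => by
    have h1 := hxR _ (Or.inr ⟨b, rfl⟩)
    rw [map_sum] at h1
    rw [← h1]
    refine Finset.sum_congr rfl fun a _ => ?_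
    rw [map_mul, aeval_rename, aeval_X]
    rfl
  obtain ⟨j0, hj0⟩ := Function.ne_iff.1 hx
  have hj0 : x j0 ≠ 0 := hj0
  obtain ⟨x', hx'⟩ : ∃ x' : Fin (n + 1) → Ω, x' = (x j0)⁻¹ • x := ⟨_, rfl⟩
  obtain ⟨u', hu'⟩ : ∃ u' : C × A → Ω, ∀ p, u' p = (x j0)⁻¹ ^ d p * u p := ⟨_, fun _ => rfl⟩
  have hGx : ∀ a, aeval x' (G a) = (x j0)⁻¹ ^ g a * aeval x (G a) := fun a => by
    rw [hx', Pool.Agent.TH145.MG.aeval_smul (hG a)]
  have hxe' : ∀ b, ∑ a, aeval x' (G a) * u' (b, a) = 0 := fun b => by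
    have h1 : ∑ a, aeval x' (G a) * u' (b, a) =
        (x j0)⁻¹ ^ D b * ∑ a, aeval x (G a) * u (b, a) := by
      rw [Finset.mul_sum]
      refine Finset.sum_congr rfl fun a _ => ?_
      rw [hGx, hu', ← hD b a, pow_add]
      ring
    rw [h1, hxe, mul_zero]
  have hF : ∀ a, ∃ c : coords k0 x, (c : Ω) = aeval x' (G a) := by
    intro a
    obtain ⟨y, hy⟩ : ∃ y : Fin (n + 1) → coords k0 x, ∀ i, (y i : Ω) = x' i :=
      ⟨fun i => ⟨x' i, IntermediateField.subset_adjoin _ _ ⟨i, j0, hj0, by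
        rw [hx', Pi.smul_apply, smul_eq_mul, mul_comm, div_eq_mul_inv]⟩⟩, fun _ => rfl⟩
    refine ⟨aeval y (G a), ?_⟩
    have h1 := aeval_algebraMap_apply Ω y (G a)
    have h2 : (algebraMap (coords k0 x) Ω) ∘ y = x' := funext hy
    rw [h2] at h1
    exact h1.symm
  choose c hc using hF
  have ha0' : aeval x' (G a0) ≠ 0 := by
    rw [hGx]
    exact mul_ne_zero (pow_ne_zero _ (inv_ne_zero hj0)) ha0
  refine ⟨m, Fintype.card C * (Fintype.card A - 1), hV Ω x hx hxV, ?_, fun B hB => hd B ?_⟩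
  · refine (trdeg_le_of_cl (J := {p : C × A // p.2 ≠ a0}) _ (fun p => u' p) fun z hz => ?_).trans
      ?_
    · have h0 : ∀ p, u' p ∈ Pool.Agent.TH145.MG.cl (coords k0 x)
          (Set.range fun p : {p : C × A // p.2 ≠ a0} => u' p) := by
        rintro ⟨b, a⟩
        by_cases ha : a = a0
        · subst ha
          have h1 := hxe' b
          rw [← Finset.add_sum_erase _ _ (Finset.mem_univ a)] at h1
          have h2 : u' (b, a) = -(∑ a' ∈ Finset.univ.erase a, (c a' : Ω) * u' (b, a')) /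
              (c a : Ω) := by
            rw [hc, eq_div_iff ha0', mul_comm]
            have h3 := eq_neg_of_add_eq_zero_left h1
            rw [h3]
            congr 1
            exact Finset.sum_congr rfl fun a' _ => by rw [hc]
          rw [h2]
          refine div_mem (neg_mem (sum_mem fun a' ha' => mul_mem ?_ ?_)) ?_
          · exact IntermediateField.algebraMap_mem _ (c a')
          · exact Pool.Agent.TH145.MG.subset_cl ⟨⟨(b, a'), (Finset.mem_erase.1 ha').1⟩, rfl⟩
          · exact IntermediateField.algebraMap_mem _ (c a)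
        · exact Pool.Agent.TH145.MG.subset_cl ⟨⟨(b, a), ha⟩, rfl⟩
      have h1 : IntermediateField.adjoin (coords k0 x)
          {z | ∃ a j, x j ≠ 0 ∧ z = u a / x j ^ d a} ≤
          Pool.Agent.TH145.MG.cl (coords k0 x)
            (Set.range fun p : {p : C × A // p.2 ≠ a0} => u' p) := by
        rw [IntermediateField.adjoin_le_iff]
        rintro _ ⟨a, j, hj, rfl⟩
        have h2 : u a / x j ^ d a = u' a * (x j0 / x j) ^ d a := by
          rw [hu', div_pow, inv_pow]
          have := pow_ne_zero (d a) hj0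
          field_simp
        rw [h2]
        exact mul_mem (h0 a) (pow_mem (IntermediateField.algebraMap_mem _
          (⟨_, IntermediateField.subset_adjoin _ _ ⟨j0, j, hj, rfl⟩⟩ : coords k0 x)) _)
      exact h1 hz
    · have h1 : Nat.card {p : C × A // p.2 ≠ a0} = Fintype.card C * (Fintype.card A - 1) := by
        have e : {p : C × A // p.2 ≠ a0} ≃ C × {a : A // a ≠ a0} :=
          ⟨fun p => (p.1.1, ⟨p.1.2, p.2⟩), fun q => ⟨(q.1, q.2.1), q.2.2⟩, fun _ => rfl,
            fun _ => rfl⟩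
        rw [Nat.card_congr e, Nat.card_prod, Nat.card_eq_fintype_card,
          Nat.card_eq_fintype_card]
        congr 1
        rw [Fintype.card_subtype_compl, Fintype.card_subtype_eq]
      rw [h1]
  · rw [Fintype.card_prod] at hB
    have h1 : 1 ≤ Fintype.card A := Fintype.card_pos_iff.2 ⟨a0⟩
    obtain ⟨N, hN⟩ : ∃ N, Fintype.card A = N + 1 := ⟨Fintype.card A - 1, by omega⟩
    rw [hN, Nat.mul_succ, Nat.add_sub_cancel] at hB
    omega

/-- Preimages under generic maps. -/
theorem adm_prod {k0 : Type} [Field k0] {V : Set (MvPolynomial (Fin (n + 1)) k0)}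
    {Y : Set (MvPolynomial A k0)} {m c w : ℕ} (hVh : ∀ f ∈ V, ∃ e, f.IsHomogeneous e)
    (hV : Pool.Agent.TH145.MG.DimLE k0 V m) (hYh : ∀ g ∈ Y, ∃ e, IsWeightedHomogeneous d g e)
    (hY : ∀ (Ω : Type) [Field Ω] [Algebra k0 Ω] (u : A → Ω), (∀ g ∈ Y, aeval u g = 0) →
      Algebra.trdeg k0 (IntermediateField.adjoin k0 (Set.range u)) ≤ c)
    (hd : ∀ B : Finset A, Fintype.card A ≤ B.card + c → 2 * m + 2 ≤ ∑ a ∈ B, (d a + 1) + w) :
    Adm k0 d (rename Sum.inl '' V ∪ rename Sum.inr '' Y) {1} w where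
  homR f hf := by
    rcases hf with ⟨f, hf, rfl⟩ | ⟨f, hf, rfl⟩
    · obtain ⟨e, he⟩ := hVh f hf
      exact ⟨e, wh_rename (fun _ => rfl) he⟩
    · obtain ⟨e, he⟩ := hYh f hf
      exact ⟨e, wh_rename (fun _ => rfl) he⟩
  homH f hf := by
    rw [Set.mem_singleton_iff] at hf
    rw [hf]
    exact ⟨0, isWeightedHomogeneous_one _ _⟩
  dim := zcond_prod hV hYh hY hd

/-- Generic members of linear systems with base points. -/
theorem adm_base {k0 C : Type} [Field k0] [Fintype C] {d : C × A → ℕ}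
    {V : Set (MvPolynomial (Fin (n + 1)) k0)} {m w : ℕ} (hVh : ∀ f ∈ V, ∃ e, f.IsHomogeneous e)
    (hV : Pool.Agent.TH145.MG.DimLE k0 V m) {G : A → MvPolynomial (Fin (n + 1)) k0} {g : A → ℕ}
    (hG : ∀ a, (G a).IsHomogeneous (g a)) {D : C → ℕ} (hD : ∀ b a, d (b, a) + g a = D b)
    (hd : ∀ B : Finset (C × A), Fintype.card C ≤ B.card →
      2 * m + 2 ≤ ∑ p ∈ B, (d p + 1) + w) :
    Adm k0 d (rename Sum.inl '' V ∪
      Set.range fun b => ∑ a, rename Sum.inl (G a) * X (Sum.inr (b, a)))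
      (rename Sum.inl '' Set.range G) w where
  homR f hf := by
    rcases hf with ⟨f, hf, rfl⟩ | ⟨b, rfl⟩
    · obtain ⟨e, he⟩ := hVh f hf
      exact ⟨e, wh_rename (fun _ => rfl) he⟩
    · refine ⟨D b, IsWeightedHomogeneous.sum _ _ _ fun a _ => ?_⟩
      have h1 : D b = g a + d (b, a) := by rw [← hD b a, add_comm]
      have h2 : IsWeightedHomogeneous (Sum.elim (fun _ => 1) d : Fin (n + 1) ⊕ (C × A) → ℕ)
          (rename Sum.inl (G a)) (g a) := wh_rename (fun _ => rfl) (hG a)
      have h3 : IsWeightedHomogeneous (Sum.elim (fun _ => 1) d : Fin (n + 1) ⊕ (C × A) → ℕ)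
          (X (Sum.inr (b, a)) : MvPolynomial (Fin (n + 1) ⊕ (C × A)) k0) (d (b, a)) :=
        isWeightedHomogeneous_X k0 _ _
      rw [h1]
      exact h2.mul h3
  homH f hf := by
    obtain ⟨_, ⟨a, rfl⟩, rfl⟩ := hf
    exact ⟨g a, wh_rename (fun _ => rfl) (hG a)⟩
  dim := zcond_base hV hG hD hd

end zero

end Pool.Agent.KS6_26.D
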